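import Pool.Agent.BKU.All

/-!
The upper bound for the upper half of the residues by an explicit graph (MP_303581_co).
-/

set_option autoImplicit false

open Finset

namespace Pool.Agent.TwoDens

open Pool.Agent.BKU

theorem BK_e2 {V : Type} [DecidableEq V] (G : SimpleGraph V) [DecidableRel G.Adj] (F : Finset V) :
    (e2 G F : ℝ) = E2 G F := by
  classical
  unfold e2 E2
  rw [Nat.cast_sum]
  refine Finset.sum_congr rfl (fun x _ => ?_)
  rw [Finset.card_filter, Nat.cast_sum]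
  refine Finset.sum_congr rfl (fun y _ => ?_)
  by_cases h : G.Adj x y
  · simp [h]
  · simp [h]

theorem block_upper (s t h : ℕ) (hh : 1 ≤ h) (hst : 2 * t < s) (hle : h * (s - 2 * t) ≤ t) :
    ∃ K : ℕ, ∀ k : ℕ, K ≤ k →
      minTwoDensity (k * s - t) (s + 1) ≤ ((k : ℝ) + 1) / 2 - (h : ℝ) / ((k : ℝ) - 2) := by
  classical
  refine ⟨100 * (h + 2) ^ 2, fun k hk => ?_⟩
  obtain ⟨δ, hδ⟩ : ∃ δ, s = 2 * t + δ := ⟨s - 2 * t, by omega⟩
  subst hδ
  have hd : 2 * t + δ - 2 * t = δ := by omega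
  rw [hd] at hle
  obtain ⟨e, he⟩ : ∃ e, t = h * δ + e := ⟨t - h * δ, by omega⟩
  have hk6 : 100 * 9 ≤ k := by
    have : 3 ^ 2 ≤ (h + 2) ^ 2 := Nat.pow_le_pow_left (by omega) 2
    omega
  have hhk : h + 2 ≤ k := by nlinarith
  set G := jn (cp (Fin δ) (ag k h)) (cp (Fin e) (pr k h)) (fun _ _ => False) with hG
  obtain ⟨hU1, hU2⟩ := all_UN
  have g1 : Gd k (mu k h) (cp (Fin δ) (ag k h)) :=
    (hU2 (Fin δ) _ (ag k h)).1 k h hh hk (all_GA k h hh hk)
  have g2 : Gd k (mu k h) (cp (Fin e) (pr k h)) :=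
    (hU2 (Fin e) _ (pr k h)).1 k h hh hk (all_GP k h hh hk)
  have g3 : Gd k (mu k h) G := (hU1 _ _ _ _).1 k h hh hk g1 g2
  have i1 : Ind (cp (Fin δ) (ag k h)) (Fintype.card (Fin δ) * (2 * h + 1)) :=
    (hU2 (Fin δ) _ (ag k h)).2 _ (all_IA k h hhk)
  have i2 : Ind (cp (Fin e) (pr k h)) (Fintype.card (Fin e) * 2) :=
    (hU2 (Fin e) _ (pr k h)).2 _ (all_IP k h hhk).1
  have i3 : Ind G (Fintype.card (Fin δ) * (2 * h + 1) + Fintype.card (Fin e) * 2) := (hU1 _ _ _ _).2 _ _ i1 i2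
  simp only [Fintype.card_fin] at i3
  have hkr : (900 : ℝ) ≤ k := by exact_mod_cast hk6
  have hmu : mu k h = 2 * ((h : ℝ) / ((k : ℝ) - 2)) := by
    unfold mu
    ring
  have hle2 : (h : ℝ) / ((k : ℝ) - 2) ≤ 1 := by
    rw [div_le_one (by linarith)]
    have : ((h + 2 : ℕ) : ℝ) ≤ k := by exact_mod_cast hhk
    push_cast at this
    linarith
  refine minTwoDensity_le (by linarith) G ?_ ?_ ?_
  · simp only [Fintype.card_sum, Fintype.card_prod, Fintype.card_fin]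
    have hk1 : k - 1 + k = 2 * k - 1 := by omega
    obtain ⟨m, hm⟩ : ∃ m, k = m + 1 := ⟨k - 1, by omega⟩
    subst hm
    have e1 : m + 1 - 1 = m := by omega
    rw [e1]
    subst he
    refine Nat.sub_le_iff_le_add.2 (le_of_eq ?_)
    ring
  · intro I hI
    have := i3 I (fun x hx y hy hxy hadj => hI (Finset.mem_coe.2 hx) (Finset.mem_coe.2 hy) hxy hadj)
    have e1 : δ * (2 * h + 1) + e * 2 = 2 * t + δ := by
      rw [he]
      ring
    omega
  · intro Y hY
    have h1 := g3 Y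
    rw [← BK_e2 G Y] at h1
    unfold mm at h1
    rw [if_neg (by omega), if_neg (by omega), hmu] at h1
    linarith

end Pool.Agent.TwoDens
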