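import Pool.Agent.TwoDens.HalfC

/-!
Refined loads and local bounds for the exact upper half.
-/

open Finset

namespace Pool.Agent.TwoDens

variable {V : Type} [DecidableEq V] (G : SimpleGraph V) [DecidableRel G.Adj]

theorem e2_union_full {A B : Finset V} (hAB : Disjoint A B) :
    e2 G A + e2 G B + 2 * ∑ v ∈ B, (A.filter (G.Adj v)).card ≤ e2 G (A ∪ B) := by
  unfold e2
  rw [Finset.sum_union hAB]
  have h1 : ∀ x ∈ A, (A.filter (G.Adj x)).card + (B.filter (G.Adj x)).card ≤
      ((A ∪ B).filter (G.Adj x)).card := by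
    intro x _
    rw [← Finset.card_union_of_disjoint]
    · refine Finset.card_le_card ?_
      rw [Finset.filter_union]
    · exact Finset.disjoint_filter_filter hAB
  have h2 : ∀ x ∈ B, (A.filter (G.Adj x)).card + (B.filter (G.Adj x)).card ≤
      ((A ∪ B).filter (G.Adj x)).card := by
    intro x _
    rw [← Finset.card_union_of_disjoint]
    · refine Finset.card_le_card ?_
      rw [Finset.filter_union]
    · exact Finset.disjoint_filter_filter hAB
  have h3 : ∑ x ∈ A, (B.filter (G.Adj x)).card = ∑ x ∈ B, (A.filter (G.Adj x)).card := by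
    simp only [Finset.card_filter]
    rw [Finset.sum_comm]
    refine Finset.sum_congr rfl fun x _ => Finset.sum_congr rfl fun y _ => ?_
    simp only [G.adj_comm]
  have h4 := Finset.sum_le_sum h1
  have h5 := Finset.sum_le_sum h2
  rw [Finset.sum_add_distrib, h3] at h4
  rw [Finset.sum_add_distrib] at h5
  omega

theorem e2_mono {A B : Finset V} (h : A ⊆ B) : e2 G A ≤ e2 G B := by
  unfold e2
  refine (Finset.sum_le_sum fun x _ => ?_).trans
    (Finset.sum_le_sum_of_subset (f := fun x => (B.filter (G.Adj x)).card) h)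
  exact Finset.card_le_card (Finset.filter_subset_filter _ h)

/-- edges inside a union of groups -/
theorem e2_groups (Y : Finset V) (h : V → V) (B : Finset V) :
    ∑ j ∈ B, e2 G (grp Y h j) ≤ e2 G (XJ Y h B) := by
  have h1 : e2 G (XJ Y h B) = ∑ j ∈ B, ∑ x ∈ grp Y h j, ((XJ Y h B).filter (G.Adj x)).card := by
    unfold e2
    rw [← Finset.sum_fiberwise_of_maps_to (s := XJ Y h B) (t := B) (g := h)
      (fun x hx => (mem_filter.1 hx).2)]
    refine Finset.sum_congr rfl fun j hj => ?_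
    refine Finset.sum_congr ?_ fun _ _ => rfl
    exact grp_XJ Y h B hj
  rw [h1]
  refine Finset.sum_le_sum fun j hj => ?_
  unfold e2
  refine Finset.sum_le_sum fun x _ => ?_
  refine Finset.card_le_card (Finset.filter_subset_filter _ ?_)
  intro u hu
  obtain ⟨h2, h3⟩ := mem_filter.1 hu
  exact mem_filter.2 ⟨h2, by rw [h3]; exact hj⟩

/-- integer form of the load bound, refined -/
theorem load_int2 {k t q Λ : ℕ} {Y : Finset V} {h : V → V} {i : V} {W : Finset V}
    {H : Finset (Sym2 V)} (hH : H.Nonempty) (hHq : H.card ≤ q + 1)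
    (hW : ∀ e ∈ H, ∀ v ∈ e, v ∈ W)
    (hbad : ∀ e ∈ H, ∃ x y : V, e = s(x, y) ∧
      ((grp Y h i).filter (fun u => ¬ G.Adj x u ∧ ¬ G.Adj y u)).card ≤ Λ)
    (hgk : (grp Y h i).card ≤ k) (hgt : k ≤ (grp Y h i).card + t) :
    (∃ c ∈ W, ((H.card : ℤ) - 1) * ((k : ℤ) - ((2 * dj G Y h c i - k : ℕ) : ℤ)) ≤
        (2 * ((∑ v ∈ W, dj G Y h v i : ℕ) : ℤ) - 2 * k) + 4 * (q + 1) * (t + (q + 1) * Λ) ∧
      ((2 * dj G Y h c i - k : ℕ) : ℤ) ≤ k) ∨
    2 * (k : ℤ) ≤ (2 * ((∑ v ∈ W, dj G Y h v i : ℕ) : ℤ) - 2 * k) +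
      4 * (q + 1) * (t + (q + 1) * Λ) := by
  have hL : ∑ v ∈ W, ((grp Y h i).filter (G.Adj v)).card = ∑ v ∈ W, dj G Y h v i :=
    Finset.sum_congr rfl fun v _ => grp_filter G Y h i v
  have hn1 : 1 ≤ H.card := Finset.card_pos.2 hH
  have hq1 : (H.card : ℤ) ≤ (q : ℤ) + 1 := by exact_mod_cast hHq
  have hn1' : (1 : ℤ) ≤ H.card := by exact_mod_cast hn1
  have hgk' : ((grp Y h i).card : ℤ) ≤ k := by exact_mod_cast hgk
  have hgt' : (k : ℤ) ≤ (grp Y h i).card + t := by exact_mod_cast hgt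
  have hΛ0 : (0 : ℤ) ≤ Λ := Int.natCast_nonneg _
  have ht0 : (0 : ℤ) ≤ t := Int.natCast_nonneg _
  have hq0 : (0 : ℤ) ≤ q := Int.natCast_nonneg _
  rcases load G hH hW hbad with ⟨c, hcW, hc⟩ | hns
  · left
    refine ⟨c, hcW, ?_⟩
    rw [hL, grp_filter] at hc
    have hsplit := Finset.card_filter_add_card_filter_not (s := grp Y h i) (G.Adj c)
    rw [grp_filter] at hsplit
    set L := ∑ v ∈ W, dj G Y h v i
    set n := H.card
    set D := dj G Y h c i
    set F := ((grp Y h i).filter (fun z => ¬ G.Adj c z)).card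
    set g := (grp Y h i).card
    have hc' : (D : ℤ) + n * F ≤ L + n * (n * Λ) := by exact_mod_cast hc
    have hs' : (D : ℤ) + F = g := by exact_mod_cast hsplit
    have hF0 : (0 : ℤ) ≤ F := Int.natCast_nonneg _
    have hD0 : (0 : ℤ) ≤ D := Int.natCast_nonneg _
    -- the overload
    have ho : (2 * D : ℤ) ≤ k + ((2 * D - k : ℕ) : ℤ) := by
      have : 2 * D ≤ k + (2 * D - k) := by omega
      exact_mod_cast this
    have ho0 : (0 : ℤ) ≤ ((2 * D - k : ℕ) : ℤ) := Int.natCast_nonneg _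
    have hok : ((2 * D - k : ℕ) : ℤ) ≤ k := by
      have : 2 * D - k ≤ k := by omega
      exact_mod_cast this
    generalize ((2 * D - k : ℕ) : ℤ) = o at ho ho0 hok ⊢
    -- 2 L ≥ 2 g + x (2 g - 2 D) - 2 n² Λ
    have e1 : (n : ℤ) * (n * Λ) ≤ (q + 1) * ((q + 1) * Λ) := by
      have : (n : ℤ) * Λ ≤ (q + 1) * Λ := mul_le_mul_of_nonneg_right hq1 hΛ0
      exact mul_le_mul hq1 this (by positivity) (by positivity)
    have e2 : (n : ℤ) * t ≤ (q + 1) * t := mul_le_mul_of_nonneg_right hq1 ht0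
    have e3 : ((n : ℤ) - 1) * (k - o) ≤ ((n : ℤ) - 1) * (2 * F + 2 * t) := by
      refine mul_le_mul_of_nonneg_left ?_ (by linarith)
      linarith
    have e6 : 0 ≤ ((q : ℤ) + 1) * ((q + 1) * Λ) := by positivity
    have e7 : 0 ≤ ((q : ℤ) + 1) * t := by positivity
    refine ⟨?_, hok⟩
    nlinarith
  · right
    rw [hL] at hns
    set L := ∑ v ∈ W, dj G Y h v i
    set n := H.card
    set g := (grp Y h i).card
    have hns' : 2 * (g : ℤ) ≤ L + 2 * (n * Λ) := by exact_mod_cast hns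
    have e1 : (n : ℤ) * Λ ≤ (q + 1) * Λ := mul_le_mul_of_nonneg_right hq1 hΛ0
    have e2 : 0 ≤ (q : ℤ) * t := by positivity
    have e3 : 0 ≤ (q : ℤ) * ((q + 1) * Λ) := by positivity
    nlinarith

/-- the local bound: centres of the groups of `A` and the loads of the groups of `B` -/
theorem loc_bound {k Λ : ℕ} {Y : Finset V} {h : V → V} {i : V} (hS : Sk G k Y)
    (A B : Finset V) (hAB : Disjoint A B) (hiA : i ∉ A) (hiB : i ∉ B)
    (hBk : ∀ j ∈ B, (grp Y h j).card = k)
    (hle : (grp Y h i).card ≤ k) (hge : 3 ≤ (grp Y h i).card)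
    (hP1 : ∑ x ∈ Y, ms G Y h x ≤ 2 * Λ)
    (c : V → V) (hc : ∀ j ∈ A, c j ∈ grp Y h j)
    (hbig : ∀ j ∈ A, k ≤ 2 * dj G Y h (c j) i)
    (W : V → Finset V) (hW : ∀ j ∈ B, W j ⊆ grp Y h j) :
    ∑ j ∈ A, (2 * dj G Y h (c j) i - k) + 2 * (∑ j ∈ B, ∑ v ∈ W j, dj G Y h v i) ≤
      2 * k * B.card + k * (k - (grp Y h i).card) + A.card + 2 * Λ := by
  have hinj : Set.InjOn c (A : Set V) := by
    intro p hp q hq hpq
    have h1 := (mem_filter.1 (hc p hp)).2
    have h2 := (mem_filter.1 (hc q hq)).2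
    rw [← h1, ← h2, hpq]
  set X := XJ Y h B with hX
  set C := A.image c with hC
  have hXY : X ⊆ Y := Finset.filter_subset _ _
  have hCY : C ⊆ Y := by
    intro u hu
    obtain ⟨j, hj, rfl⟩ := mem_image.1 hu
    exact (mem_filter.1 (hc j hj)).1
  have hXC : Disjoint X C := by
    rw [Finset.disjoint_left]
    intro u hu hu'
    obtain ⟨j, hj, rfl⟩ := mem_image.1 hu'
    have h1 := (mem_filter.1 (hc j hj)).2
    have h2 := (mem_filter.1 hu).2
    rw [h1] at h2
    exact Finset.disjoint_left.1 hAB hj h2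
  have hgXC : Disjoint (grp Y h i) (X ∪ C) := by
    rw [Finset.disjoint_left]
    intro u hu hu'
    have h0 := (mem_filter.1 hu).2
    rcases mem_union.1 hu' with h1 | h1
    · have h2 := (mem_filter.1 h1).2
      rw [h0] at h2
      exact hiB h2
    · obtain ⟨j, hj, rfl⟩ := mem_image.1 h1
      have h2 := (mem_filter.1 (hc j hj)).2
      rw [h0] at h2
      rw [← h2] at hj
      exact hiA hj
  have h1 := e2_union_full G hgXC
  have h2 : e2 G X ≤ e2 G (X ∪ C) := e2_mono G Finset.subset_union_left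
  have h3 : ∑ j ∈ B, e2 G (grp Y h j) ≤ e2 G X := e2_groups G Y h B
  rw [Finset.sum_union hXC] at h1
  have hCs : ∑ v ∈ C, ((grp Y h i).filter (G.Adj v)).card = ∑ j ∈ A, dj G Y h (c j) i := by
    rw [hC, Finset.sum_image hinj]
    exact Finset.sum_congr rfl fun j _ => grp_filter G Y h i (c j)
  have hXs : ∑ j ∈ B, ∑ v ∈ W j, dj G Y h v i ≤ ∑ v ∈ X, ((grp Y h i).filter (G.Adj v)).card := by
    rw [← Finset.sum_fiberwise_of_maps_to (s := X) (t := B) (g := h)
      (fun x hx => (mem_filter.1 hx).2)]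
    refine Finset.sum_le_sum fun j hj => ?_
    have h4 : X.filter (fun x => h x = j) = grp Y h j := grp_XJ Y h B hj
    rw [h4]
    refine (Finset.sum_le_sum fun v _ => (grp_filter G Y h i v).ge).trans ?_
    exact Finset.sum_le_sum_of_subset (hW j hj)
  have hXc : X.card = B.card * k := by
    have h4 : X.card = ∑ j ∈ B, (grp Y h j).card := by
      rw [Finset.card_eq_sum_card_fiberwise (s := X) (t := B) (f := h)
        (fun x hx => (mem_filter.1 hx).2)]
      exact Finset.sum_congr rfl fun j hj => by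
        rw [← grp_XJ Y h B hj]
        rfl
    rw [h4, Finset.sum_congr rfl hBk, Finset.sum_const, smul_eq_mul]
  have hFc : (grp Y h i ∪ (X ∪ C)).card = (grp Y h i).card + (B.card * k + A.card) := by
    rw [Finset.card_union_of_disjoint hgXC, Finset.card_union_of_disjoint hXC, hXc,
      hC, Finset.card_image_of_injOn hinj]
  have h4 := hS (grp Y h i ∪ (X ∪ C)) (Finset.union_subset (Finset.filter_subset _ _)
    (Finset.union_subset hXY hCY)) (by omega)
  rw [hFc] at h4
  -- missing pairs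
  have hmiss : m2 G (grp Y h i) + ∑ j ∈ B, m2 G (grp Y h j) ≤ 2 * Λ := by
    refine le_trans ?_ hP1
    have h5 : ∀ j, m2 G (grp Y h j) = ∑ x ∈ Y.filter (fun x => h x = j), ms G Y h x := by
      intro j
      unfold m2 ms grp
      refine Finset.sum_congr rfl fun x hx => ?_
      have h6 := (mem_filter.1 hx).2
      rw [Finset.filter_filter]
      congr 1
      refine Finset.filter_congr fun y _ => ?_
      rw [h6]
    have h7 : m2 G (grp Y h i) + ∑ j ∈ B, m2 G (grp Y h j) =
        ∑ j ∈ insert i B, m2 G (grp Y h j) := by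
      rw [Finset.sum_insert hiB]
    rw [h7, Finset.sum_congr rfl fun j _ => h5 j]
    have h8 : ∑ j ∈ insert i B, ∑ x ∈ Y.filter (fun x => h x = j), ms G Y h x =
        ∑ x ∈ Y.filter (fun x => h x ∈ insert i B), ms G Y h x := by
      rw [← Finset.sum_fiberwise_of_maps_to (s := Y.filter (fun x => h x ∈ insert i B))
        (t := insert i B) (g := h) (fun x hx => (mem_filter.1 hx).2)]
      refine Finset.sum_congr rfl fun j hj => ?_
      refine Finset.sum_congr ?_ fun _ _ => rfl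
      rw [Finset.filter_filter]
      refine Finset.filter_congr fun x _ => ?_
      constructor
      · intro hx
        exact ⟨by rw [hx]; exact hj, hx⟩
      · exact fun hx => hx.2
    rw [h8]
    exact Finset.sum_le_sum_of_subset (Finset.filter_subset _ _)
  have h5 := e2_add_m2 G (grp Y h i)
  have h6 : ∑ j ∈ B, e2 G (grp Y h j) + ∑ j ∈ B, m2 G (grp Y h j) + B.card * k =
      B.card * (k * k) := by
    have h7 : ∀ j ∈ B, e2 G (grp Y h j) + m2 G (grp Y h j) + k = k * k := by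
      intro j hj
      have := e2_add_m2 G (grp Y h j)
      rw [hBk j hj] at this
      exact this
    have h8 := Finset.sum_congr (rfl : B = B) h7
    rw [Finset.sum_add_distrib, Finset.sum_add_distrib, Finset.sum_const, Finset.sum_const,
      smul_eq_mul, smul_eq_mul] at h8
    exact h8
  have h7 : ∑ j ∈ A, (2 * dj G Y h (c j) i - k) + A.card * k =
      2 * ∑ j ∈ A, dj G Y h (c j) i := by
    rw [Finset.mul_sum, ← smul_eq_mul, ← Finset.sum_const, ← Finset.sum_add_distrib]
    refine Finset.sum_congr rfl fun j hj => ?_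
    have := hbig j hj
    omega
  obtain ⟨d, hd⟩ := Nat.exists_eq_add_of_le hle
  have h8 : k - (grp Y h i).card = d := by omega
  rw [h8]
  rw [hCs] at h1
  set g := (grp Y h i).card
  have h9 : g * d ≤ k * d := Nat.mul_le_mul_right _ hle
  have h10 : (k + 1) * (g + (B.card * k + A.card)) =
      g * g + g * d + g + B.card * (k * k) + B.card * k + A.card * k + A.card := by
    rw [hd]; ring
  rw [h10] at h4
  have h11 : 2 * k * B.card = 2 * (B.card * k) := by ring
  rw [h11]
  omega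

/-- the budget of a set `L` of groups -/
theorem bud_bound {k Λ a w : ℕ} {Y I Full L : Finset V} {h : V → V} (hS : Sk G k Y)
    (hIc : I.card ≤ a) (hLI : L ⊆ I) (hL : L.Nonempty) (hFI : Full ⊆ L)
    (hle : ∀ j ∈ I, (grp Y h j).card ≤ k)
    (hge : ∀ j ∈ I, 3 ≤ (grp Y h j).card) (hP1 : ∑ x ∈ Y, ms G Y h x ≤ 2 * Λ)
    (W : V → Finset V) (hW : ∀ j ∈ Full, W j ⊆ grp Y h j) (hWc : ∀ j ∈ Full, (W j).card ≤ w) :
    2 * (∑ i ∈ L, ∑ j ∈ Full.filter (fun j => j ≠ i), ∑ v ∈ W j, dj G Y h v i) + 2 * k ≤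
      2 * k * L.card + k * (∑ i ∈ L, (k - (grp Y h i).card)) + 2 * Λ +
        2 * ((a * w) * (a * w)) := by
  have hXY : XJ Y h L ⊆ Y := Finset.filter_subset _ _
  have h2 : ∑ x ∈ XJ Y h L, ms G (XJ Y h L) h x ≤ 2 * Λ := by
    refine le_trans ?_ hP1
    refine (Finset.sum_le_sum fun x _ => ?_).trans
      (Finset.sum_le_sum_of_subset (f := fun x => ms G Y h x) hXY)
    exact Finset.card_le_card (Finset.filter_subset_filter _ hXY)
  have h1 := global_load G (k := k) (t := ∑ i ∈ L, (k - (grp Y h i).card)) (Λ := Λ)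
    (a := L.card) (w := w) (Y := XJ Y h L) (I := L) (Full := Full) (h := h) (hS.mono G hXY)
    (fun v hv => (mem_filter.1 hv).2) rfl (Finset.card_pos.2 hL) hFI
    (fun j hj => by rw [grp_XJ Y h L hj]; exact hle j (hLI hj))
    (fun j hj => by rw [grp_XJ Y h L hj]; exact hge j (hLI hj)) h2
    (Finset.sum_congr rfl fun j hj => by rw [grp_XJ Y h L hj]) W
    (fun j hj => by rw [grp_XJ Y h L (hFI hj)]; exact hW j hj) hWc
  have h3 : ∀ i ∈ L, ∀ v, dj G (XJ Y h L) h v i = dj G Y h v i := by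
    intro i hi v
    unfold dj XJ
    rw [Finset.filter_filter]
    congr 1
    refine Finset.filter_congr fun u _ => ?_
    constructor
    · rintro ⟨_, h4, h5⟩; exact ⟨h4, h5⟩
    · rintro ⟨h4, h5⟩; exact ⟨by rw [h4]; exact hi, h4, h5⟩
  have h4 : ∑ i ∈ L, ∑ j ∈ Full.filter (fun j => j ≠ i), ∑ v ∈ W j, dj G (XJ Y h L) h v i =
      ∑ i ∈ L, ∑ j ∈ Full.filter (fun j => j ≠ i), ∑ v ∈ W j, dj G Y h v i := by
    refine Finset.sum_congr rfl fun i hi => Finset.sum_congr rfl fun j _ =>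
      Finset.sum_congr rfl fun v _ => h3 i hi v
  rw [h4] at h1
  have h5 : L.card * w ≤ a * w := Nat.mul_le_mul_right _ ((Finset.card_le_card hLI).trans hIc)
  have h6 : (L.card * w) * (L.card * w) ≤ (a * w) * (a * w) := Nat.mul_le_mul h5 h5
  omega

end Pool.Agent.TwoDens
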