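import Mathlib

/-!
# Campaign UHX (MP_303581_co): abstract data for the lower bound in the upper half of the residues

All numbers are integers; `ε` is an error with `M ε < k` for a huge `M`, so read everything in units of `k` with `ε = 0`.

`I` the groups (`a` of them), `d i` the deficit of the group `i` (its size is `k - d i`), `∑ d = t`; the full groups are those with
`d i = 0`. Every full group `j` has `q + 1` marked missing pairs, every marked pair has a target group `i ≠ j`. `J i` is the set of the full groups `j`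
having a marked pair with target `i`, `x i j + 1 ≥ 1` is the number of the marked pairs of `j` with target `i`. `2 k + E i j` is twice the number of edges
between the ends of these pairs and the group `i`. `o i j` is the overload of the centre (if the pairs form a star, `st i j`).

Every `St_X` is a statement with its proof in the docstring. A module proves `thm_X` (with the named `St_Y` as hypotheses).
-/

set_option autoImplicit false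

open Finset

namespace Pool.Agent.UHX

structure HD {ι : Type} [DecidableEq ι] (a t q k ε : ℤ) (I : Finset ι) (d : ι → ℤ)
    (J : ι → Finset ι) (x o E : ι → ι → ℤ) (st : ι → ι → Prop) : Prop where
  /-- number of groups -/
  cI : (I.card : ℤ) = a
  d0 : ∀ i ∈ I, 0 ≤ d i
  dt : ∑ i ∈ I, d i = t
  /-- `J i` consists of full groups different from `i` -/
  JI : ∀ i ∈ I, ∀ j ∈ J i, j ∈ I ∧ d j = 0 ∧ j ≠ i
  x0 : ∀ i ∈ I, ∀ j ∈ J i, 0 ≤ x i j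
  xq : ∀ i ∈ I, ∀ j ∈ J i, x i j ≤ q
  o0 : ∀ i ∈ I, ∀ j ∈ J i, 0 ≤ o i j
  ok : ∀ i ∈ I, ∀ j ∈ J i, o i j ≤ k
  E0 : ∀ i ∈ I, ∀ j ∈ J i, 0 ≤ E i j + ε
  /-- stars -/
  star : ∀ i ∈ I, ∀ j ∈ J i, st i j → k * x i j ≤ x i j * o i j + E i j + ε
  /-- the others -/
  nst : ∀ i ∈ I, ∀ j ∈ J i, ¬ st i j → 2 * k ≤ E i j + ε
  /-- local bound at the target `i` for disjoint sets of groups -/
  loc : ∀ i ∈ I, ∀ A B : Finset ι, A ⊆ J i → B ⊆ J i → Disjoint A B →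
    ∑ j ∈ A, o i j + ∑ j ∈ B, E i j ≤ k * d i + ε
  /-- budget of a set of groups -/
  bud : ∀ L : Finset ι, L ⊆ I → L.Nonempty →
    ∑ i ∈ L, ∑ j ∈ (J i).filter (fun j => j ∈ L), (2 * k + E i j) ≤
      2 * k * ((L.card : ℤ) - 1) + k * ∑ i ∈ L, d i + ε
  /-- every full group has `q + 1` marked pairs -/
  cnt : ∀ j ∈ I, d j = 0 → ∑ i ∈ I.filter (fun i => j ∈ J i), (x i j + 1) = q + 1

/-- (LC) Local lemmas. PROOF. (1) `loc` with `A = ∅`, `B = {j}`: `E i j ≤ ε`; so `st i j` (otherwise `2 k ≤ 2 ε`); `loc` with `A = {j}`, `B = ∅`: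
`o i j ≤ ε`; `star`: `k x ≤ x ε + 2 ε ≤ (q + 2) ε < k`, so `x < 1`. (2) not `st`: `2 k ≤ E + ε ≤ k + 2 ε`. (3) `E j ≥ x j (k - o j) - ε`, `E j' ≥ x j' (k - o j') - ε`,
`o j + o j' ≤ k + ε` (`loc`, `A = {j, j'}`), `E j + E j' ≤ k + ε` (`loc`, `B = {j, j'}`), `o ≤ k`. So `E j + E j' ≥ 2 k - o j - o j' - 2 ε ≥ k - 3 ε`.
If `x j ≥ 2`: `2 (k - o j) + (k - o j') ≤ k + 3 ε`, so `k - o j ≤ 4 ε` (subtract `(k - o j) + (k - o j') ≥ k - ε`), `o j' ≤ 5 ε`, `E j' ≥ k - 6 ε`,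
but `o j + E j' ≤ k + ε` (`loc`, `A = {j}`, `B = {j'}`), so `2 k - 10 ε ≤ k + ε`. (4) three different ones: `E + E' + E'' ≥ 3 k - (o + o' + o'') - 3 ε ≥ 2 k - 4 ε`
but `≤ k + ε`. -/
def St_LC : Prop := ∀ (ι : Type) [DecidableEq ι] (a t q k ε : ℤ) (I : Finset ι) (d : ι → ℤ) (J : ι → Finset ι)
    (x o E : ι → ι → ℤ) (st : ι → ι → Prop),
    HD a t q k ε I d J x o E st → 0 ≤ ε → 0 ≤ q → (q + 20) * ε < k → ∀ i ∈ I,
    (d i = 0 → ∀ j ∈ J i, x i j = 0) ∧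
    (d i = 1 → (∀ j ∈ J i, st i j) ∧
      (∀ j ∈ J i, ∀ j' ∈ J i, j ≠ j' → 1 ≤ x i j → 1 ≤ x i j' → x i j = 1 ∧ x i j' = 1 ∧ k - 3 * ε ≤ E i j + E i j') ∧
      ∀ j ∈ J i, ∀ j' ∈ J i, ∀ j'' ∈ J i, j ≠ j' → j ≠ j'' → j' ≠ j'' → 1 ≤ x i j → 1 ≤ x i j' → 1 ≤ x i j'' → False)

/-- (L1) `q ≥ 2` and `(4 q + 3) t ≤ 2 q a + 1` are impossible. Uses LC. PROOF. Let `gain i = ∑ j ∈ J i, (2 k x i j - E i j)`, `ε' = ` a multiple of `ε`.
`d i = 0`: `x = 0`, `gain i ≤ a ε`. `d i = 1`: let `P` be the set of `j ∈ J i` with `x i j ≥ 1`; `E ≥ -ε` for the others. `P` has at most two elements; none: `gain ≤ a ε`; one: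
`gain ≤ 2 k q + a ε`; two: `x = 1` for both, `gain ≤ 4 k - (k - 3 ε) + a ε ≤ 2 q k + (a + 3) ε`. `d i ≥ 2` (any `d i`): for `st i j`: `2 k x - E ≤ 2 x o + E + 2 ε ≤ 2 q o + q E + (q + 2) ε` (`E + ε ≥ 0`);
not `st i j`: `2 k x - E ≤ 2 k q - E ≤ q (E + ε) - E ≤ q E + (q + 2) ε`. Sum, `loc` with `A = {j : st i j}`, `B = ∅` and with `A = ∅`, `B = J i`:
`gain i ≤ 2 q (k d i + ε) + q (k d i + ε) + a (q + 2) ε = 3 q k d i + ε'`. By `cnt` (swap the sums) `∑_i ∑_{j ∈ J i} (x i j + 1) = (q + 1) F`, `F` the number of full groups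
(the `i ∈ I` with `d i = 0`), and `bud` for `L = I`: `∑_i ∑_{j ∈ J i} (2 k + E i j) ≤ 2 k (a - 1) + k t + ε`. So
`2 k (q + 1) F - 2 k (a - 1) - k t - ε ≤ ∑ gain ≤ 2 q k n1 + 3 q k (t - n1) + ε'`, `n1` the number of `i` with `d i = 1`, `n2` the number with `d i ≥ 2`, `F = a - n1 - n2`, `2 n2 ≤ t - n1`.
The difference in units of `k`: `2 (q + 1) F - 2 a + 2 - t - 2 q n1 - 3 q (t - n1) ≥ 2 q a + 2 - (4 q + 3) t ≥ 1` (use `(q + 1) 2 n2 ≤ (q + 1) (t - n1)`, and `n1 ≤ t`). -/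
def St_L1 : Prop := ∀ a t q : ℕ, 1 ≤ a → 2 ≤ q → (4 * q + 3) * t ≤ 2 * q * a + 1 → ∃ M : ℕ,
  ∀ (ι : Type) [DecidableEq ι] (k ε : ℤ) (I : Finset ι) (d : ι → ℤ) (J : ι → Finset ι)
    (x o E : ι → ι → ℤ) (st : ι → ι → Prop),
    HD (a : ℤ) (t : ℤ) (q : ℤ) k ε I d J x o E st → 0 ≤ ε → (M : ℤ) * ε < k → False

/-- (L3) `q ≥ 3`, `2 t < a` and `t - 1 ≤ (q - 1) (a - 2 t)` are impossible. Uses LC. PROOF. For a full `j` let `T j = {i ∈ I : j ∈ J i}`, `N j` its size (`≥ 1`). `j` is cheap if `N j = 1`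
(then `x i j = q` for its target `i`, and `d i ≥ 1` by LC (1)), otherwise of type D; then `x i j ≤ q - 1` for all its targets. `I' = {i ∈ I : d i ≥ 1}`. For `i ∈ I'` let `q_i` be the number of the cheap `j ∈ J i`
and `M_i = ∑ x i j` over the `j ∈ J i` of type D. CLAIM `(q - 1) q_i + M_i ≤ (q - 1) (2 d i - 1)`. Put `y j = q - 1` for cheap `j`, `y j = x i j` otherwise; `0 ≤ y j ≤ x i j`, `y j ≤ q - 1`, the left side is
`∑_{j ∈ J i} y j`. `d i = 1`: by LC either one `j` at most has `x i j ≥ 1`, the sum is `≤ q - 1`, or two have `x = 1` (both not cheap, `q ≥ 3`), the sum is `2 ≤ q - 1`. `d i ≥ 2`: star: `y (k - o) ≤ x (k - o) ≤ E + ε`, so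
`2 k y ≤ 2 y o + 2 (E + ε) ≤ 2 (q - 1) o + (q - 1) (E + ε)`; not star: `2 k y ≤ 2 k (q - 1) ≤ (q - 1) (E + ε)`. Sum and `loc`: `2 k ∑ y ≤ 2 (q - 1) (k d i + ε) + (q - 1) (k d i + ε + a ε)`, integers: `2 ∑ y ≤ 3 (q - 1) d i ≤ 2 (q - 1) (2 d i - 1)`.
Clusters `K_i = {i} ∪ {cheap j with target i}`, `i ∈ I'`; `I` is the disjoint union of `D` (the groups of type D) and the clusters. `D ≠ ∅`: otherwise `a = ∑ (1 + q_i) ≤ ∑ 2 d i = 2 t`. Let `m_i` be the number of pairs `(j, g)`, `j ∈ D`, `g ∈ K_i`, `j ∈ J g`,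
and `m_0` the number of those with `j, g ∈ D`; `∑_{j ∈ D} N j = m_0 + ∑ m_i`. Let `L = D ∪ ⋃ K_i` over the `i ∈ I'` with `2 m_i > 2 + d i`. `bud` for `L` (with `E ≥ -ε`, at most `a^2` pairs): `2 m_0 + ∑_{kept} (2 m_i + 2 q_i) ≤ 2 (|D| + ∑_{kept} (1 + q_i) - 1) + ∑_{kept} d i` (integers),
that is `2 m_0 + ∑_{i ∈ I'} max (2 m_i - 2 - d i) 0 ≤ 2 |D| - 2`. Now `max (2 m - 2 - d) 0 ≥ m - (d + 2) / 2` (floor) and `(d + 2) / 2 ≤ d` for `d ≥ 1`, so `∑_{j ∈ D} N j ≤ 2 |D| - 2 + t`.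
On the other hand `N j = q + 1 - ∑_{i ∈ T j} x i j` (`cnt`), `x i j = 0` for full `i`, so `∑_{j ∈ D} (N j - 2) = (q - 1) |D| - ∑ M_i`, `|D| = a - |I'| - ∑ q_i`, and this is
`(q - 1) (a - |I'|) - ∑ ((q - 1) q_i + M_i) ≥ (q - 1) (a - |I'|) - (q - 1) (2 t - |I'|) = (q - 1) (a - 2 t) ≥ t - 1 > t - 2`. -/
def St_L3 : Prop := ∀ a t q : ℕ, 3 ≤ q → 2 * t < a → t ≤ (q - 1) * (a - 2 * t) + 1 → ∃ M : ℕ,
  ∀ (ι : Type) [DecidableEq ι] (k ε : ℤ) (I : Finset ι) (d : ι → ℤ) (J : ι → Finset ι)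
    (x o E : ι → ι → ℤ) (st : ι → ι → Prop),
    HD (a : ℤ) (t : ℤ) (q : ℤ) k ε I d J x o E st → 0 ≤ ε → (M : ℤ) * ε < k → False

/-- (L4) the case `a = 5`, `t = 2`, `q = 2` is impossible. Uses LC. PROOF. Let `F` be the number of full groups, `N j` the number of targets of the full group `j`. `∑ N j = 3 F - ∑ x`, `bud` for `L = I`:
`2 k ∑ N j + ∑ E ≤ 10 k + ε`, so `∑ N j ≤ 5`. One group with `d = 2`: `F = 4`, `∑ x ≥ 7`, all at this group `i` (LC (1)); `k x ≤ 2 o + E + ε` for stars, `k x ≤ 2 k ≤ E + ε` for the others, sum: `k ∑ x ≤ 2 (2 k + ε) + (2 k + ε) + 4 ε`, so `∑ x ≤ 6`.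
Two groups `i, i'` with `d = 1`: `F = 3`, `∑ x ≥ 4`, and `∑_j x i j ≤ 2` for each of the two by LC (one `j` with `x ≤ 2` or two with `x = 1`). So `∑ N j = 5`, `∑_j x i j = 2` for both, `∑ E ≤ ε`, hence each `E ≤ 25 ε`, so LC excludes two `j` with `x = 1`; so there is `j(i)` with
`x i j(i) = 2`, then `i` is the only target of `j(i)`, `j(i) ≠ j(i')`, and the third full group `D` has `5 - 2 = 3` targets in `{i, i', j(i), j(i')}`; so for one of the two, `i` and `j(i)` are both targets of `D`. `bud` for `L = {D, i, j(i)}`: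
`3 (2 k - ε) ≤ 2 k 2 + k + ε`. -/
def St_L4 : Prop := ∃ M : ℕ,
  ∀ (ι : Type) [DecidableEq ι] (k ε : ℤ) (I : Finset ι) (d : ι → ℤ) (J : ι → Finset ι)
    (x o E : ι → ι → ℤ) (st : ι → ι → Prop),
    HD (5 : ℤ) (2 : ℤ) (2 : ℤ) k ε I d J x o E st → 0 ≤ ε → (M : ℤ) * ε < k → False

end Pool.Agent.UHX
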