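import Pool.Agent.TwoDens.Struct2

/-!
The structure theorem with the general covering clause (Lean: helper3, after `struct_thm`).
-/

open Finset

namespace Pool.Agent.TwoDens

section

variable {V : Type*} [DecidableEq V] (G : SimpleGraph V) [DecidableRel G.Adj]

theorem struct_core2 {a t k N' γ : ℕ} {X : Finset V} (ha : 2 ≤ a) (hk : 3 ≤ k)
    (hS : Sk G k X) (hal : Al G a X) (hcard : X.card + t = k * a)
    (hdeg : ∀ v ∈ X, k ≤ dg G X v + t)
    (hbig : 2 * ((a - 1) * (2 * a * (t + 1) + 1) + t) ≤ k)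
    (hγ : k ≤ (γ + 1) * N') :
    ∃ (I : Finset V) (h : V → V), I.card = a ∧ I ⊆ X ∧ (∀ v ∈ X, h v ∈ I) ∧
      (∑ x ∈ X, (X.filter (fun y => h y = h x ∧ y ≠ x ∧ ¬ G.Adj x y)).card ≤
        2 * ((a * (2 * a * (t + 1) + 1) + t + 1) *
          (a * (γ + (a * (2 * a * (t + 1) + 1) + t) + (t + 1) * a * N' + 1)
            + (t + 1) * a * N' + (a * (2 * a * (t + 1) + 1) + t)))) ∧
      (∀ W ⊆ X, G.IsIndepSet (W : Set V) → ∀ J ⊆ I, (∀ w ∈ W, h w ∉ J) →
        a + 1 ≤ W.card + J.card →
        ∃ j ∈ J, (X.filter (fun u => h u = j ∧ ∀ w ∈ W, ¬ G.Adj w u)).card ≤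
          (a * (2 * a * (t + 1) + 1) + t + 1) *
          (a * (γ + (a * (2 * a * (t + 1) + 1) + t) + (t + 1) * a * N' + 1)
            + (t + 1) * a * N' + (a * (2 * a * (t + 1) + 1) + t))) := by
  classical
  set C := 2 * a * (t + 1) with hC
  set O0 := a * (C + 1) + t with hO0
  set H0 := (t + 1) * a * N' with hH0
  set δ := γ + O0 + H0 + 1 with hδ
  set x : V → ℕ := fun v => dg G X v + t - k with hx
  have hka : k * 2 ≤ k * a := Nat.mul_le_mul_left _ ha
  have htk : 2 * t ≤ k := by
    have : 0 ≤ (a - 1) * (C + 1) := Nat.zero_le _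
    omega
  have hXpos : 3 ≤ X.card := by omega
  have hSX := hS X subset_rfl hXpos
  -- sum of excess
  have hxsum : ∑ v ∈ X, x v + k * X.card = e2 G X + t * X.card := by
    have h1 : ∀ v ∈ X, x v + k = dg G X v + t := by
      intro v hv
      have := hdeg v hv
      simp only [hx]; omega
    have h2 : ∑ v ∈ X, (x v + k) = ∑ v ∈ X, (dg G X v + t) := Finset.sum_congr rfl h1
    rw [Finset.sum_add_distrib, Finset.sum_add_distrib, sum_dg] at h2
    simp only [Finset.sum_const, smul_eq_mul] at h2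
    rw [mul_comm k, mul_comm t]
    exact h2
  have hxsum' : ∑ v ∈ X, x v ≤ (t + 1) * (k * a) := by
    have h1 : X.card ≤ k * a := by omega
    have h2 : ∑ v ∈ X, x v ≤ (t + 1) * X.card := by nlinarith
    exact h2.trans (Nat.mul_le_mul_left _ h1)
  -- few vertices of excess > C
  have hlow : 2 * (X.filter (fun v => C < x v)).card < k := by
    have h1 := markov (X := X) x C
    by_contra hcon
    push Not at hcon
    have h2 : k * (C + 1) ≤ 2 * ((t + 1) * (k * a)) := by
      calc k * (C + 1) ≤ (2 * (X.filter (fun v => C < x v)).card) * (C + 1) :=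
            Nat.mul_le_mul_right _ hcon
        _ = 2 * ((X.filter (fun v => C < x v)).card * (C + 1)) := by ring
        _ ≤ 2 * (∑ v ∈ X, x v) := Nat.mul_le_mul_left _ h1
        _ ≤ _ := Nat.mul_le_mul_left _ hxsum'
    have h3 : 2 * ((t + 1) * (k * a)) = k * C := by rw [hC]; ring
    rw [h3, mul_add] at h2
    omega
  have hlow' : (X.filter (fun v => k + C < dg G X v)).card ≤
      (X.filter (fun v => C < x v)).card := by
    refine Finset.card_le_card ?_
    intro v hv
    rw [mem_filter] at hv ⊢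
    refine ⟨hv.1, ?_⟩
    simp only [hx]; omega
  obtain ⟨I, hIX, hind, hIcard, hIdeg, hdom⟩ := exists_I G (a := a) (D := k + C) hal (by
    have h1 : (a - 1) * (k + C + 1) = (a - 1) * k + (a - 1) * (C + 1) := by ring
    have h2 : (a - 1) * k + k = k * a := by
      obtain ⟨b, rfl⟩ : ∃ b, a = b + 1 := ⟨a - 1, by omega⟩
      simp; ring
    rw [h1]
    omega)
  -- counting of dominations
  let cnt : V → ℕ := fun v => (I.filter (fun i => i = v ∨ G.Adj i v)).card
  have hcnt1 : ∀ v ∈ X, 1 ≤ cnt v := by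
    intro v hv
    obtain ⟨i, hi, h⟩ := hdom v hv
    exact Finset.card_pos.2 ⟨i, mem_filter.2 ⟨hi, h⟩⟩
  have hcntsum : ∑ v ∈ X, cnt v ≤ a * (k + C + 1) := by
    have h1 : ∑ v ∈ X, cnt v = ∑ i ∈ I, (X.filter (fun v => i = v ∨ G.Adj i v)).card := by
      simp only [cnt, Finset.card_filter]
      exact Finset.sum_comm
    rw [h1, ← hIcard, ← smul_eq_mul]
    refine Finset.sum_le_card_nsmul _ _ _ ?_
    intro i hi
    have h2 : X.filter (fun v => i = v ∨ G.Adj i v) ⊆ insert i (X.filter (G.Adj i)) := by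
      intro v hv
      rw [mem_filter] at hv
      rw [mem_insert, mem_filter]
      rcases hv.2 with h | h
      · exact Or.inl h.symm
      · exact Or.inr ⟨hv.1, h⟩
    refine (Finset.card_le_card h2).trans ((Finset.card_insert_le _ _).trans ?_)
    have := hIdeg i hi
    unfold dg at this
    omega
  let O := X.filter (fun v => 1 < cnt v)
  have hOcard : O.card ≤ O0 := by
    have h1 : X.card + O.card ≤ ∑ v ∈ X, cnt v := by
      have h2 : X.card + O.card = ∑ v ∈ X, (1 + if 1 < cnt v then 1 else 0) := by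
        rw [Finset.sum_add_distrib, Finset.sum_const, smul_eq_mul, mul_one, Finset.card_filter]
      rw [h2]
      refine Finset.sum_le_sum ?_
      intro v hv
      have := hcnt1 v hv
      split_ifs <;> omega
    have h3 : a * (k + C + 1) = k * a + a * (C + 1) := by ring
    omega
  -- private cliques
  let U : V → Finset V := fun i => X.filter (fun v => ¬ (1 < cnt v) ∧ (i = v ∨ G.Adj i v))
  have hUX : ∀ i, U i ⊆ X := fun i => Finset.filter_subset _ _
  have huniq : ∀ v ∈ X, ¬ (1 < cnt v) → ∀ i ∈ I, ∀ j ∈ I, (i = v ∨ G.Adj i v) →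
      (j = v ∨ G.Adj j v) → i = j := by
    intro v hv hc i hi j hj h1 h2
    have h3 : cnt v ≤ 1 := not_lt.1 hc
    exact Finset.card_le_one.1 h3 i (mem_filter.2 ⟨hi, h1⟩) j (mem_filter.2 ⟨hj, h2⟩)
  have hUdisj : ∀ i ∈ I, ∀ j ∈ I, i ≠ j → Disjoint (U i) (U j) := by
    intro i hi j hj hij
    rw [Finset.disjoint_left]
    intro v h1 h2
    rw [mem_filter] at h1 h2
    exact hij (huniq v h1.1 h1.2.1 i hi j hj h1.2.2 h2.2.2)
  have hclique : ∀ i ∈ I, ∀ u ∈ U i, ∀ v ∈ U i, u ≠ v → G.Adj u v := by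
    intro i hi u hu v hv huv
    by_contra hna
    rw [mem_filter] at hu hv
    have hnu : ∀ j ∈ I.erase i, ¬ (j = u ∨ G.Adj j u) := by
      intro j hj h
      rw [mem_erase] at hj
      exact hj.1 (huniq u hu.1 hu.2.1 j hj.2 i hi h hu.2.2)
    have hnv : ∀ j ∈ I.erase i, ¬ (j = v ∨ G.Adj j v) := by
      intro j hj h
      rw [mem_erase] at hj
      exact hj.1 (huniq v hv.1 hv.2.1 j hj.2 i hi h hv.2.2)
    have hins : G.IsIndepSet ((insert u (insert v (I.erase i)) : Finset V) : Set V) := by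
      intro p hp q hq hpq
      rw [Finset.mem_coe, mem_insert, mem_insert] at hp hq
      rcases hp with rfl | rfl | hp <;> rcases hq with rfl | rfl | hq
      · exact absurd rfl hpq
      · exact hna
      · exact fun h => hnu q hq (Or.inr h.symm)
      · exact fun h => hna h.symm
      · exact absurd rfl hpq
      · exact fun h => hnv q hq (Or.inr h.symm)
      · exact fun h => hnu p hp (Or.inr h)
      · exact fun h => hnv p hp (Or.inr h)
      · exact hind (mem_of_mem_erase hp) (mem_of_mem_erase hq) hpq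
    have h1 := hal _ (Finset.insert_subset hu.1 (Finset.insert_subset hv.1
      ((Finset.erase_subset _ _).trans hIX))) hins
    have h2 : v ∉ I.erase i := fun h => hnv v h (Or.inl rfl)
    have h3 : u ∉ insert v (I.erase i) := by
      rw [mem_insert]
      rintro (h | h)
      · exact huv h
      · exact hnu u h (Or.inl rfl)
    rw [Finset.card_insert_of_notMem h3, Finset.card_insert_of_notMem h2,
      Finset.card_erase_of_mem hi] at h1
    omega
  have hUlt : ∀ i ∈ I, (U i).card < k := by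
    intro i hi
    refine hS.clique_lt G hk (hUX i) ?_
    unfold m2
    rw [Finset.sum_eq_zero_iff]
    intro u hu
    rw [Finset.card_eq_zero, Finset.filter_eq_empty_iff]
    rintro v hv ⟨h1, h2⟩
    exact h2 (hclique i hi u hu v hv (Ne.symm h1))
  -- sum of the sizes
  have hpart : X.card = (∑ i ∈ I, (U i).card) + O.card := by
    have h1 : X.filter (fun v => ¬ (1 < cnt v)) = I.biUnion U := by
      ext v
      simp only [mem_biUnion, U, mem_filter]
      constructor
      · rintro ⟨h1, h2⟩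
        obtain ⟨i, hi, h⟩ := hdom v h1
        exact ⟨i, hi, h1, h2, h⟩
      · rintro ⟨i, hi, h1, h2, h3⟩
        exact ⟨h1, h2⟩
    have h2 : (I.biUnion U).card = ∑ i ∈ I, (U i).card := by
      refine Finset.card_biUnion ?_
      intro i hi j hj hij
      exact hUdisj i hi j hj hij
    rw [← h2, ← h1]
    have := Finset.card_filter_add_card_filter_not (s := X) (fun v => 1 < cnt v)
    simp only [O]
    omega
  have hUbig : ∀ i ∈ I, k ≤ (U i).card + t + O0 := by
    intro i hi
    have h1 : ∑ j ∈ I, (U j).card = (U i).card + ∑ j ∈ I.erase i, (U j).card :=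
      (Finset.add_sum_erase _ _ hi).symm
    have h2 : ∑ j ∈ I.erase i, (U j).card ≤ (a - 1) * k := by
      have : (I.erase i).card = a - 1 := by rw [Finset.card_erase_of_mem hi, hIcard]
      rw [← this, ← smul_eq_mul]
      exact Finset.sum_le_card_nsmul _ _ _ fun j hj => (hUlt j (mem_of_mem_erase hj)).le
    have h3 : (a - 1) * k + k = k * a := by
      obtain ⟨b, rfl⟩ : ∃ b, a = b + 1 := ⟨a - 1, by omega⟩
      simp; ring
    omega
  -- high vertices
  let H := X.filter (fun v => γ < x v)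
  have hHcard : H.card ≤ H0 := by
    have h1 := markov (X := X) x γ
    have h2 : H.card * k ≤ H0 * k := by
      calc H.card * k ≤ H.card * ((γ + 1) * N') := Nat.mul_le_mul_left _ hγ
        _ = (H.card * (γ + 1)) * N' := by ring
        _ ≤ ((t + 1) * (k * a)) * N' := Nat.mul_le_mul_right _ (h1.trans hxsum')
        _ = H0 * k := by rw [hH0]; ring
    exact Nat.le_of_mul_le_mul_right h2 (by omega)
  let U' : V → Finset V := fun i => (U i).filter (fun v => ¬ (γ < x v))
  have hU'U : ∀ i, U' i ⊆ U i := fun i => Finset.filter_subset _ _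
  have hU'big : ∀ i ∈ I, k ≤ (U' i).card + t + O0 + H0 := by
    intro i hi
    have h1 := hUbig i hi
    have h2 : (U i).card ≤ (U' i).card + H.card := by
      have h3 := Finset.card_filter_add_card_filter_not (s := U i) (fun v => γ < x v)
      have h4 : ((U i).filter (fun v => γ < x v)).card ≤ H.card :=
        Finset.card_le_card (Finset.filter_subset_filter _ (hUX i))
      simp only [U']
      omega
    omega
  have hout : ∀ i ∈ I, ∀ j ∈ I, i ≠ j → ∀ z ∈ U' i, ((U' j).filter (G.Adj z)).card ≤ δ := by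
    intro i hi j hj hij z hz
    have hz' := mem_filter.1 hz
    have hzX := hUX i hz'.1
    have h1 : ((U' j).filter (G.Adj z)).card + ((U' i).erase z).card ≤ dg G X z := by
      have h2 : Disjoint ((U' j).filter (G.Adj z)) ((U' i).erase z) := by
        rw [Finset.disjoint_left]
        intro u hu1 hu2
        exact Finset.disjoint_left.1 (hUdisj j hj i hi hij.symm)
          (hU'U j (mem_filter.1 hu1).1) (hU'U i (mem_of_mem_erase hu2))
      rw [← Finset.card_union_of_disjoint h2]
      refine Finset.card_le_card ?_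
      intro u hu
      rw [mem_union, mem_filter, mem_erase] at hu
      rw [mem_filter]
      rcases hu with ⟨h3, h4⟩ | ⟨h3, h4⟩
      · exact ⟨hUX j (hU'U j h3), h4⟩
      · exact ⟨hUX i (hU'U i h4), hclique i hi z hz'.1 u (hU'U i h4) (Ne.symm h3)⟩
    rw [Finset.card_erase_of_mem hz] at h1
    have h5 := hU'big i hi
    have h6 : x z ≤ γ := not_lt.1 hz'.2
    have h7 := hdeg z hzX
    have h8 : 1 ≤ (U' i).card := Finset.card_pos.2 ⟨z, hz⟩
    simp only [hx] at h6
    omega
  have hU'disj : ∀ i ∈ I, ∀ j ∈ I, i ≠ j → Disjoint (U' i) (U' j) := fun i hi j hj hij =>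
    Finset.disjoint_of_subset_left (hU'U i) (Finset.disjoint_of_subset_right (hU'U j)
      (hUdisj i hi j hj hij))
  have hU'X : ∀ i ∈ I, U' i ⊆ X := fun i _ => (hU'U i).trans (hUX i)
  -- home
  have hhome : ∀ v ∈ X, ∃ i ∈ I, ((U' i).filter (fun u => u ≠ v ∧ ¬ G.Adj v u)).card ≤ a * δ ∧
      (v ∉ O → v ∈ U i) := by
    intro v hv
    by_cases hvO : v ∈ O
    · obtain ⟨i, hi, h⟩ := covering G (a := a) (δ := δ) hal U' hU'X hU'disj hout
        (W := {v}) (J := I) (by simpa using hv) (by simp [SimpleGraph.IsIndepSet]) subset_rfl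
        (by simp [hIcard, add_comm])
      refine ⟨i, hi, ?_, fun h => absurd hvO h⟩
      rw [hIcard] at h
      simpa using h
    · obtain ⟨i, hi, h⟩ := hdom v hv
      have hvU : v ∈ U i := by
        rw [mem_filter]
        refine ⟨hv, ?_, h⟩
        intro hc
        exact hvO (mem_filter.2 ⟨hv, hc⟩)
      refine ⟨i, hi, ?_, fun _ => hvU⟩
      have : (U' i).filter (fun u => u ≠ v ∧ ¬ G.Adj v u) = ∅ := by
        rw [Finset.filter_eq_empty_iff]
        rintro u hu ⟨h1, h2⟩
        exact h2 (hclique i hi v hvU u (hU'U i hu) (Ne.symm h1))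
      rw [this]
      simp
  choose! h hhI hhmiss hhU using hhome
  have hcover : ∀ v ∈ X, v ∉ O → v ∉ H → v ∈ U' (h v) := by
    intro v hv hO hH
    refine mem_filter.2 ⟨hhU v hv hO, ?_⟩
    intro hc
    exact hH (mem_filter.2 ⟨hv, hc⟩)
  -- missing pairs at `w`
  let ms : V → ℕ := fun w => (X.filter (fun y => h y = h w ∧ y ≠ w ∧ ¬ G.Adj w y)).card
  have hms : ∀ w ∈ X, ms w ≤ a * δ + H0 + O0 := by
    intro w hw
    have h1 : X.filter (fun y => h y = h w ∧ y ≠ w ∧ ¬ G.Adj w y) ⊆
        ((U' (h w)).filter (fun u => u ≠ w ∧ ¬ G.Adj w u) ∪ H) ∪ O := by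
      intro y hy
      rw [mem_filter] at hy
      obtain ⟨hyX, h2, h3, h4⟩ := hy
      rw [mem_union, mem_union, mem_filter]
      by_cases hO : y ∈ O
      · exact Or.inr hO
      · by_cases hH : y ∈ H
        · exact Or.inl (Or.inr hH)
        · refine Or.inl (Or.inl ⟨?_, h3, h4⟩)
          rw [← h2]
          exact hcover y hyX hO hH
    have h2 := Finset.card_le_card h1
    have h3 := Finset.card_union_le ((U' (h w)).filter (fun u => u ≠ w ∧ ¬ G.Adj w u) ∪ H) O
    have h4 := Finset.card_union_le ((U' (h w)).filter (fun u => u ≠ w ∧ ¬ G.Adj w u)) H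
    have h5 := hhmiss w hw
    simp only [ms]
    omega
  have hmsO : ∑ w ∈ O, ms w ≤ O0 * (a * δ + H0 + O0) := by
    calc ∑ w ∈ O, ms w ≤ O.card • (a * δ + H0 + O0) :=
          Finset.sum_le_card_nsmul _ _ _ fun w hw => hms w (mem_filter.1 hw).1
      _ ≤ O0 * (a * δ + H0 + O0) := by
          rw [smul_eq_mul]; exact Nat.mul_le_mul_right _ hOcard
  have hmsX : ∑ w ∈ X, ms w ≤ 2 * (O0 * (a * δ + H0 + O0)) := by
    have h1 : ∑ w ∈ X, ms w = ∑ w ∈ O, ms w + ∑ w ∈ X \ O, ms w := by
      rw [add_comm, Finset.sum_sdiff (Finset.filter_subset _ _)]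
    have h2 : ∑ w ∈ X \ O, ms w ≤ ∑ y ∈ O, ms y := by
      have h3 : ∀ w ∈ X \ O, ms w ≤ (O.filter (fun y => h y = h w ∧ y ≠ w ∧ ¬ G.Adj w y)).card := by
        intro w hw
        rw [mem_sdiff] at hw
        refine Finset.card_le_card ?_
        intro y hy
        rw [mem_filter] at hy
        obtain ⟨hyX, h4, h5, h6⟩ := hy
        rw [mem_filter]
        refine ⟨?_, h4, h5, h6⟩
        by_contra hyO
        have h7 := hhU w hw.1 hw.2
        have h8 := hhU y hyX hyO
        rw [h4] at h8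
        exact h6 (hclique _ (hhI w hw.1) w h7 y h8 (Ne.symm h5))
      refine (Finset.sum_le_sum h3).trans ?_
      simp only [Finset.card_filter]
      rw [Finset.sum_comm]
      refine Finset.sum_le_sum ?_
      intro y hy
      simp only [ms]
      rw [← Finset.card_filter]
      refine Finset.card_le_card ?_
      intro w hw
      rw [mem_filter, mem_sdiff] at hw
      rw [mem_filter]
      exact ⟨hw.1.1, hw.2.1.symm, Ne.symm hw.2.2.1, fun h => hw.2.2.2 h.symm⟩
    omega
  refine ⟨I, h, hIcard, hIX, hhI, ?_, ?_⟩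
  · refine hmsX.trans ?_
    refine Nat.mul_le_mul_left _ ?_
    refine Nat.mul_le_mul (by omega) ?_
    rfl
  · intro W hWX hWi J hJI hWJ hcardWJ
    obtain ⟨j, hj, hj'⟩ := covering G (a := a) (δ := δ) hal U' hU'X hU'disj hout
      (W := W) (J := J) hWX hWi hJI hcardWJ
    refine ⟨j, hj, ?_⟩
    have h1 : X.filter (fun w => h w = j ∧ ∀ z ∈ W, ¬ G.Adj z w) ⊆
        ((U' j).filter (fun w => w ∉ W ∧ ∀ z ∈ W, ¬ G.Adj z w) ∪ H) ∪ O := by
      intro y hy
      rw [mem_filter] at hy
      obtain ⟨hyX, h2, h3⟩ := hy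
      rw [mem_union, mem_union, mem_filter]
      by_cases hO : y ∈ O
      · exact Or.inr hO
      · by_cases hH : y ∈ H
        · exact Or.inl (Or.inr hH)
        · refine Or.inl (Or.inl ⟨?_, ?_, h3⟩)
          · rw [← h2]
            exact hcover y hyX hO hH
          · intro hyW
            exact hWJ y hyW (by rw [h2]; exact hj)
    have h2 := Finset.card_le_card h1
    have h3 := Finset.card_union_le ((U' j).filter
      (fun w => w ∉ W ∧ ∀ z ∈ W, ¬ G.Adj z w) ∪ H) O
    have h4 := Finset.card_union_le ((U' j).filter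
      (fun w => w ∉ W ∧ ∀ z ∈ W, ¬ G.Adj z w)) H
    have h5 : J.card * δ ≤ a * δ := by
      refine Nat.mul_le_mul_right _ ?_
      rw [← hIcard]
      exact Finset.card_le_card hJI
    have h6 : a * δ + H0 + O0 ≤ (O0 + 1) * (a * δ + H0 + O0) :=
      Nat.le_mul_of_pos_left _ (by omega)
    refine le_trans ?_ h6
    omega

end

/-- The structure theorem: `X` splits into `a` groups that are almost cliques (at most `Λ` missing
pairs, `Λ ≤ k / N`); an independent set `W` and a set `J` of groups that do not meet `W`,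
`a + 1 ≤ |W| + |J|`: some group of `J` is dominated by `W` up to `Λ` vertices. -/
theorem struct_thm2 (a t N : ℕ) (ha : 2 ≤ a) : ∃ K, ∀ k, K ≤ k →
    ∀ {V : Type} [DecidableEq V] (G : SimpleGraph V) [DecidableRel G.Adj] (X : Finset V),
    Sk G k X → Al G a X → X.card + t = k * a → (∀ v ∈ X, k ≤ dg G X v + t) →
    ∃ (I : Finset V) (h : V → V) (Λ : ℕ), I.card = a ∧ (∀ v ∈ X, h v ∈ I) ∧ N * Λ ≤ k ∧
      (∑ x ∈ X, (X.filter (fun y => h y = h x ∧ y ≠ x ∧ ¬ G.Adj x y)).card ≤ 2 * Λ) ∧
      (∀ W ⊆ X, G.IsIndepSet (W : Set V) → ∀ J ⊆ I, (∀ w ∈ W, h w ∉ J) →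
        a + 1 ≤ W.card + J.card →
        ∃ j ∈ J, (X.filter (fun u => h u = j ∧ ∀ w ∈ W, ¬ G.Adj w u)).card ≤ Λ) := by
  set O0 := a * (2 * a * (t + 1) + 1) + t with hO0
  set N' := 2 * N * (O0 + 1) * a + 1 with hN'
  set H0 := (t + 1) * a * N' with hH0
  set B := N * ((O0 + 1) * (a * (O0 + H0 + 1) + H0 + O0)) with hB
  refine ⟨3 + 2 * ((a - 1) * (2 * a * (t + 1) + 1) + t) + 2 * B, ?_⟩
  intro k hk V _ G _ X hS hal hcard hdeg
  have hN'pos : 0 < N' := by omega
  set γ := k / N' with hγ
  have h1 : k ≤ (γ + 1) * N' := by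
    have := Nat.lt_div_mul_add (a := k) hN'pos
    rw [hγ, add_mul, one_mul]
    omega
  obtain ⟨I, h, hI, -, hh, hP1, hP2⟩ := struct_core2 G (a := a) (t := t) (k := k) (N' := N')
    (γ := γ) ha (by omega) hS hal hcard hdeg (by omega) h1
  rw [← hO0, ← hH0] at hP1
  simp only [← hO0, ← hH0] at hP2
  refine ⟨I, h, (O0 + 1) * (a * (γ + O0 + H0 + 1) + H0 + O0), hI, hh, ?_, hP1, hP2⟩
  have h2 : N * ((O0 + 1) * (a * (γ + O0 + H0 + 1) + H0 + O0)) = N * (O0 + 1) * a * γ + B := by
    rw [hB]; ring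
  have h3 : γ * N' ≤ k := Nat.div_mul_le_self k N'
  have h4 : 2 * (N * (O0 + 1) * a * γ) ≤ k := by
    have h5 : γ * N' = γ * (2 * N * (O0 + 1) * a + 1) := by rw [← hN']
    have h6 : γ * (2 * N * (O0 + 1) * a + 1) = 2 * (N * (O0 + 1) * a * γ) + γ := by ring
    have h7 : 0 ≤ γ := Nat.zero_le _
    linarith
  rw [h2]
  omega

end Pool.Agent.TwoDens
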