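import Pool.Agent.UHX.Defs

/-!
Exact counting on three groups (MP_303581_co, upper half of the residues). Lean: helper3.
-/

open Finset

namespace Pool.Agent.TwoDens

section

variable {V : Type*} [DecidableEq V] (G : SimpleGraph V) [DecidableRel G.Adj]

/-- number of edges between two disjoint sets -/
private def tcr (A B : Finset V) : ℕ := ∑ x ∈ A, (B.filter (G.Adj x)).card

omit [DecidableEq V] in
private theorem tcr_symm (A B : Finset V) : tcr G A B = tcr G B A := by
  unfold tcr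
  simp only [Finset.card_filter]
  rw [Finset.sum_comm]
  refine Finset.sum_congr rfl fun x _ => Finset.sum_congr rfl fun y _ => ?_
  simp only [G.adj_comm]

private theorem te2_union {A B : Finset V} (h : Disjoint A B) :
    e2 G (A ∪ B) = e2 G A + e2 G B + 2 * tcr G A B := by
  have h1 : ∀ x, ((A ∪ B).filter (G.Adj x)).card =
      (A.filter (G.Adj x)).card + (B.filter (G.Adj x)).card := by
    intro x
    rw [Finset.filter_union, Finset.card_union_of_disjoint (Finset.disjoint_filter_filter h)]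
  have h2 := tcr_symm G A B
  unfold e2
  unfold tcr at h2 ⊢
  rw [Finset.sum_union h]
  simp only [h1, Finset.sum_add_distrib]
  omega

omit [DecidableEq V] in
private theorem te2_single (c : V) : e2 G {c} = 0 := by
  unfold e2
  rw [Finset.sum_singleton, Finset.card_eq_zero, Finset.filter_eq_empty_iff]
  intro x hx
  rw [mem_singleton] at hx
  rw [hx]
  exact G.loopless.irrefl c

omit [DecidableEq V] in
private theorem tcr_single (B : Finset V) (c : V) :
    tcr G B {c} = (B.filter (G.Adj c)).card := by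
  rw [tcr_symm]
  unfold tcr
  rw [Finset.sum_singleton]

private theorem tcr_union_left {A B C : Finset V} (h : Disjoint A B) :
    tcr G (A ∪ B) C = tcr G A C + tcr G B C := by
  unfold tcr
  rw [Finset.sum_union h]

omit [DecidableEq V] in
private theorem tcr_two {C D : Finset V} {x y z w : V} (hx : x ∈ C) (hy : y ∈ D) (hz : z ∈ C)
    (hw : w ∈ D) (hne : ¬ (x = z ∧ y = w)) (h1 : G.Adj x y) (h2 : G.Adj z w) :
    2 ≤ tcr G C D := by
  have e1 : tcr G C D = ((C ×ˢ D).filter (fun p => G.Adj p.1 p.2)).card := by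
    unfold tcr
    simp only [Finset.card_filter]
    rw [Finset.sum_product]
  rw [e1]
  refine Finset.one_lt_card.2 ⟨(x, y), ?_, (z, w), ?_, ?_⟩
  · exact mem_filter.2 ⟨mem_product.2 ⟨hx, hy⟩, h1⟩
  · exact mem_filter.2 ⟨mem_product.2 ⟨hz, hw⟩, h2⟩
  · intro h
    exact hne ⟨congrArg Prod.fst h, congrArg Prod.snd h⟩

private theorem t_le {q e M r : ℤ} (hq : 0 < q) (h : q * e + r < q * (M + 1)) (hr : 0 ≤ r) :
    e ≤ M := by
  by_contra hcon
  push Not at hcon
  have h1 : M + 1 ≤ e := hcon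
  have h2 := mul_le_mul_of_nonneg_left h1 hq.le
  linarith

private theorem t_bounds {q : ℕ} (hq : 3 ≤ q) {X : Finset V} (hS : Hk G (q + 2) X) {F : Finset V}
    (hF : F ⊆ X) :
    (F.card = q + 2 → e2 G F + 1 ≤ q * q + 3 * q) ∧
    (F.card = q + 3 → e2 G F ≤ q * q + 4 * q + 2) ∧
    (F.card = 2 * q + 3 → e2 G F ≤ 2 * (q * q) + 7 * q) ∧
    (F.card = 3 * q + 5 → e2 G F ≤ 3 * (q * q) + 12 * q + 4) := by
  have hq0 : (0 : ℤ) < q := by exact_mod_cast (by omega : 0 < q)
  have key := fun h3 => hS F hF h3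
  push_cast at key
  refine ⟨fun h => ?_, fun h => ?_, fun h => ?_, fun h => ?_⟩
  · have h1 := key (by omega)
    rw [h] at h1
    push_cast at h1
    have h2 : ((e2 G F : ℕ) : ℤ) ≤ (q : ℤ) * q + 3 * q - 1 := by
      refine t_le (r := 0) hq0 ?_ le_rfl
      nlinarith
    have h3 : ((e2 G F + 1 : ℕ) : ℤ) ≤ ((q * q + 3 * q : ℕ) : ℤ) := by
      push_cast
      linarith
    exact_mod_cast h3
  · have h1 := key (by omega)
    rw [h] at h1
    push_cast at h1
    have h2 : ((e2 G F : ℕ) : ℤ) ≤ (q : ℤ) * q + 4 * q + 2 := by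
      refine t_le (r := 2) hq0 ?_ (by norm_num)
      nlinarith
    exact_mod_cast h2
  · have h1 := key (by omega)
    rw [h] at h1
    push_cast at h1
    have h2 : ((e2 G F : ℕ) : ℤ) ≤ 2 * ((q : ℤ) * q) + 7 * q := by
      refine t_le (r := 2) hq0 ?_ (by norm_num)
      nlinarith
    exact_mod_cast h2
  · have h1 := key (by omega)
    rw [h] at h1
    push_cast at h1
    have h2 : ((e2 G F : ℕ) : ℤ) ≤ 3 * ((q : ℤ) * q) + 12 * q + 4 := by
      refine t_le (r := 6) hq0 ?_ (by norm_num)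
      nlinarith
    exact_mod_cast h2

/-- the centre of a group and its leaves -/
private theorem t_centre {q : ℕ} {B C : Finset V} (hd : Disjoint B C)
    (hB : B.card = q + 1) (hC : C.card = q + 2) (eB : e2 G B = q * q + q)
    (hm : 2 * m2 G C < q + 2)
    (hdC : ∀ x ∈ C, ∀ y ∈ C, x ≠ y → ¬ G.Adj x y → ∀ u ∈ B, G.Adj x u ∨ G.Adj y u)
    (H3 : e2 G (B ∪ C) ≤ 2 * (q * q) + 7 * q) (H1 : e2 G C + 1 ≤ q * q + 3 * q) :
    ∃ c ∈ C, ∃ L ⊆ C, c ∉ L ∧ (∀ y ∈ L, ¬ G.Adj c y) ∧ 2 ≤ L.card ∧ m2 G C ≤ 2 * L.card ∧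
      ∀ J : ℕ, (B.filter (G.Adj c)).card + J = q + 1 →
        (B.filter (G.Adj c)).card + L.card * J ≤ tcr G C B := by
  have hCC : e2 G C + m2 G C = q * q + 3 * q + 2 := by
    have h1 := e2_add_m2 G C
    rw [hC] at h1
    have h2 : (q + 2) * (q + 2) = q * q + 4 * q + 4 := by ring
    omega
  -- the centre
  obtain ⟨c, hc, hcen⟩ : ∃ c ∈ C, ∀ x ∈ C, ∀ y ∈ C, x ≠ y → ¬ G.Adj x y → x = c ∨ y = c := by
    by_contra hcon
    push Not at hcon
    have h2 : ∀ u ∈ B, 2 ≤ (C.filter (G.Adj u)).card := by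
      intro u hu
      by_contra hlt
      obtain ⟨x0, hx0, hsub⟩ : ∃ x0 ∈ C, C.filter (G.Adj u) ⊆ {x0} := by
        rcases (C.filter (G.Adj u)).eq_empty_or_nonempty with h | ⟨x0, hx0⟩
        · obtain ⟨x0, hx0⟩ := Finset.card_pos.1 (by omega : 0 < C.card)
          exact ⟨x0, hx0, by rw [h]; exact Finset.empty_subset _⟩
        · refine ⟨x0, (mem_filter.1 hx0).1, fun z hz => ?_⟩
          rw [mem_singleton]
          exact Finset.card_le_one.1 (by omega) z hz x0 hx0
      obtain ⟨x, hx, y, hy, hxy, hna, hxc, hyc⟩ := hcon x0 hx0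
      rcases hdC x hx y hy hxy hna u hu with h | h
      · have h3 := hsub (mem_filter.2 ⟨hx, h.symm⟩)
        rw [mem_singleton] at h3
        exact hxc h3
      · have h3 := hsub (mem_filter.2 ⟨hy, h.symm⟩)
        rw [mem_singleton] at h3
        exact hyc h3
    have h3 : B.card * 2 ≤ tcr G B C := by
      unfold tcr
      rw [← smul_eq_mul]
      exact Finset.card_nsmul_le_sum _ _ _ h2
    have h4 := te2_union G hd
    rw [hB] at h3
    omega
  set L := C.filter (fun y => y ≠ c ∧ ¬ G.Adj c y) with hL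
  have hLC : L ⊆ C := Finset.filter_subset _ _
  have hcL : c ∉ L := by
    intro h
    exact (mem_filter.1 h).2.1 rfl
  have hLa : ∀ y ∈ L, ¬ G.Adj c y := fun y hy => (mem_filter.1 hy).2.2
  have hm2 : m2 G C ≤ 2 * L.card := by
    unfold m2
    have h1 : ∀ x ∈ C, (C.filter (fun y => y ≠ x ∧ ¬ G.Adj x y)).card ≤
        (if x = c then L.card else 0) + (if x ∈ L then 1 else 0) := by
      intro x hx
      by_cases hxc : x = c
      · rw [if_pos hxc, hxc]
        exact Nat.le_add_right _ _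
      · rw [if_neg hxc, zero_add]
        have h2 : C.filter (fun y => y ≠ x ∧ ¬ G.Adj x y) ⊆ {c} := by
          intro y hy
          obtain ⟨hyC, hyx, hna⟩ := mem_filter.1 hy
          rw [mem_singleton]
          exact (hcen x hx y hyC (Ne.symm hyx) hna).resolve_left hxc
        by_cases hxL : x ∈ L
        · rw [if_pos hxL]
          exact (Finset.card_le_card h2).trans (by rw [Finset.card_singleton])
        · rw [if_neg hxL]
          have h3 : C.filter (fun y => y ≠ x ∧ ¬ G.Adj x y) = ∅ := by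
            rw [Finset.filter_eq_empty_iff]
            rintro y hy ⟨h4, h5⟩
            have h6 := h2 (mem_filter.2 ⟨hy, h4, h5⟩)
            rw [mem_singleton] at h6
            rw [h6] at h5
            exact hxL (mem_filter.2 ⟨hx, hxc, fun h => h5 h.symm⟩)
          rw [h3, Finset.card_empty]
    refine (Finset.sum_le_sum h1).trans ?_
    rw [Finset.sum_add_distrib, Finset.sum_ite_eq' C c, if_pos hc, ← Finset.card_filter]
    have h2 : (C.filter (fun x => x ∈ L)).card ≤ L.card :=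
      Finset.card_le_card fun x hx => (mem_filter.1 hx).2
    omega
  refine ⟨c, hc, L, hLC, hcL, hLa, by omega, hm2, ?_⟩
  intro J hJ
  have h1 : ∀ y ∈ L, J ≤ (B.filter (G.Adj y)).card := by
    intro y hy
    obtain ⟨hyC, hyc, hna⟩ := mem_filter.1 hy
    have h2 : B.filter (fun u => ¬ G.Adj c u) ⊆ B.filter (G.Adj y) := by
      intro u hu
      obtain ⟨huB, hcu⟩ := mem_filter.1 hu
      exact mem_filter.2 ⟨huB, (hdC c hc y hyC (Ne.symm hyc) hna u huB).resolve_left hcu⟩
    have h3 := Finset.card_le_card h2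
    have h4 := Finset.card_filter_add_card_filter_not (s := B) (fun u => G.Adj c u)
    have h5 : (B.filter (fun u => G.Adj c u)).card = (B.filter (G.Adj c)).card := rfl
    omega
  have h2 : (∑ x ∈ insert c L, (B.filter (G.Adj x)).card) ≤ tcr G C B := by
    unfold tcr
    exact Finset.sum_le_sum_of_subset (Finset.insert_subset hc hLC)
  rw [Finset.sum_insert hcL] at h2
  have h3 : L.card * J ≤ ∑ x ∈ L, (B.filter (G.Adj x)).card := by
    rw [← smul_eq_mul]
    exact Finset.card_nsmul_le_sum _ _ _ h1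
  omega

end

/-- Exact counting on three groups: a clique `B` of `k - 1` vertices and two groups `C`, `D` of `k`
vertices with few missing pairs contradict the sparsity condition. -/
theorem three_groups {k : ℕ} {V : Type} [DecidableEq V] (G : SimpleGraph V) [DecidableRel G.Adj]
    (B C D : Finset V) (hk : 5 ≤ k) (hBC : Disjoint B C) (hBD : Disjoint B D) (hCD : Disjoint C D)
    (hB : B.card + 1 = k) (hC : C.card = k) (hD : D.card = k)
    (hBq : ∀ x ∈ B, ∀ y ∈ B, x ≠ y → G.Adj x y)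
    (hm : 2 * m2 G C + 2 * m2 G D < k)
    (hdC : ∀ x ∈ C, ∀ y ∈ C, x ≠ y → ¬ G.Adj x y → ∀ u ∈ B, G.Adj x u ∨ G.Adj y u)
    (hdD : ∀ x ∈ D, ∀ y ∈ D, x ≠ y → ¬ G.Adj x y → ∀ u ∈ B, G.Adj x u ∨ G.Adj y u)
    (hbl : ∀ x ∈ C, ∀ y ∈ C, x ≠ y → ¬ G.Adj x y → ∀ z ∈ D, ∀ w ∈ D, z ≠ w → ¬ G.Adj z w →
      G.Adj x z ∨ G.Adj x w ∨ G.Adj y z ∨ G.Adj y w)
    (hS : Hk G k (B ∪ C ∪ D)) : False := by
  obtain ⟨q, rfl⟩ : ∃ q, k = q + 2 := ⟨k - 2, by omega⟩
  have hq : 3 ≤ q := by omega
  have hB' : B.card = q + 1 := by omega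
  have hBX : B ⊆ B ∪ C ∪ D := Finset.subset_union_left.trans Finset.subset_union_left
  have hCX : C ⊆ B ∪ C ∪ D := Finset.subset_union_right.trans Finset.subset_union_left
  have hDX : D ⊆ B ∪ C ∪ D := Finset.subset_union_right
  have eB : e2 G B = q * q + q := by
    have h1 := e2_add_m2 G B
    have h2 : m2 G B = 0 := by
      unfold m2
      rw [Finset.sum_eq_zero_iff]
      intro x hx
      rw [Finset.card_eq_zero, Finset.filter_eq_empty_iff]
      rintro y hy ⟨h3, h4⟩
      exact h4 (hBq x hx y hy (Ne.symm h3))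
    rw [h2, hB'] at h1
    have h3 : (q + 1) * (q + 1) = q * q + 2 * q + 1 := by ring
    omega
  have eC : e2 G C + m2 G C = q * q + 3 * q + 2 := by
    have h1 := e2_add_m2 G C
    rw [hC] at h1
    have h2 : (q + 2) * (q + 2) = q * q + 4 * q + 4 := by ring
    omega
  have eD : e2 G D + m2 G D = q * q + 3 * q + 2 := by
    have h1 := e2_add_m2 G D
    rw [hD] at h1
    have h2 : (q + 2) * (q + 2) = q * q + 4 * q + 4 := by ring
    omega
  obtain ⟨c, hc, L, hLC, hcL, hLa, hL2, hmC, hXC⟩ := t_centre G hBC hB' hC eB (by omega) hdC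
    ((t_bounds G hq hS (Finset.union_subset hBX hCX)).2.2.1 (by
      rw [Finset.card_union_of_disjoint hBC]; omega))
    ((t_bounds G hq hS hCX).1 hC)
  obtain ⟨d, hd, L', hLD, hdL, hLa', hL2', hmD, hXD⟩ := t_centre G hBD hB' hD eB (by omega) hdD
    ((t_bounds G hq hS (Finset.union_subset hBX hDX)).2.2.1 (by
      rw [Finset.card_union_of_disjoint hBD]; omega))
    ((t_bounds G hq hS hDX).1 hD)
  have hcB : c ∉ B := fun h => Finset.disjoint_left.1 hBC h hc
  have hdB : d ∉ B := fun h => Finset.disjoint_left.1 hBD h hd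
  have hcd : c ≠ d := by
    rintro rfl
    exact Finset.disjoint_left.1 hCD hc hd
  have hwB : (B.filter (G.Adj c)).card ≤ q + 1 := by
    rw [← hB']
    exact Finset.card_le_card (Finset.filter_subset _ _)
  have hwB' : (B.filter (G.Adj d)).card ≤ q + 1 := by
    rw [← hB']
    exact Finset.card_le_card (Finset.filter_subset _ _)
  obtain ⟨J, hJ⟩ : ∃ J, (B.filter (G.Adj c)).card + J = q + 1 :=
    ⟨q + 1 - (B.filter (G.Adj c)).card, by omega⟩
  obtain ⟨J', hJ'⟩ : ∃ J', (B.filter (G.Adj d)).card + J' = q + 1 :=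
    ⟨q + 1 - (B.filter (G.Adj d)).card, by omega⟩
  have x1 := hXC J hJ
  have x2 := hXD J' hJ'
  -- one centre
  have hdisj1 : Disjoint B {c} := Finset.disjoint_singleton_right.2 hcB
  have hdisj2 : Disjoint B {d} := Finset.disjoint_singleton_right.2 hdB
  have hFc : B ∪ {c} ⊆ B ∪ C ∪ D :=
    Finset.union_subset hBX (Finset.singleton_subset_iff.2 (hCX hc))
  have hFd : B ∪ {d} ⊆ B ∪ C ∪ D :=
    Finset.union_subset hBX (Finset.singleton_subset_iff.2 (hDX hd))
  have y1 := (t_bounds G hq hS hFc).1 (by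
    rw [Finset.card_union_of_disjoint hdisj1, Finset.card_singleton]; omega)
  have y2 := (t_bounds G hq hS hFd).1 (by
    rw [Finset.card_union_of_disjoint hdisj2, Finset.card_singleton]; omega)
  rw [te2_union G hdisj1, te2_single, tcr_single] at y1
  rw [te2_union G hdisj2, te2_single, tcr_single] at y2
  have hJ2 : 2 ≤ J := by omega
  have hJ2' : 2 ≤ J' := by omega
  -- both centres
  have hdisj3 : Disjoint (B ∪ {c}) {d} := by
    rw [Finset.disjoint_singleton_right, mem_union, mem_singleton]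
    rintro (h | h)
    · exact hdB h
    · exact hcd h.symm
  have y3 := (t_bounds G hq hS (F := (B ∪ {c}) ∪ {d}) (Finset.union_subset hFc
    (Finset.singleton_subset_iff.2 (hDX hd)))).2.1 (by
    rw [Finset.card_union_of_disjoint hdisj3, Finset.card_union_of_disjoint hdisj1,
      Finset.card_singleton, Finset.card_singleton]
    omega)
  rw [te2_union G hdisj3, te2_union G hdisj1, te2_single, te2_single, tcr_single,
    tcr_union_left G hdisj1, tcr_single, tcr_single] at y3
  set ε := (({c} : Finset V).filter (G.Adj d)).card with hε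
  -- the cross edges between the groups
  have y4 : 2 ≤ tcr G C D + ε := by
    by_cases hadj : G.Adj c d
    · have h1 : 1 ≤ ε := by
        rw [hε]
        exact Finset.card_pos.2 ⟨c, mem_filter.2 ⟨mem_singleton_self _, hadj.symm⟩⟩
      have h2 : 1 ≤ tcr G C D := by
        unfold tcr
        have h3 : (D.filter (G.Adj c)).card ≤ ∑ x ∈ C, (D.filter (G.Adj x)).card :=
          Finset.single_le_sum (f := fun x => (D.filter (G.Adj x)).card)
            (fun _ _ => Nat.zero_le _) hc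
        have h4 : 0 < (D.filter (G.Adj c)).card :=
          Finset.card_pos.2 ⟨d, mem_filter.2 ⟨hd, hadj⟩⟩
        omega
      omega
    · obtain ⟨y₁, hy₁, y₂, hy₂, hyy⟩ := Finset.one_lt_card.1 hL2
      obtain ⟨z₁, hz₁, z₂, hz₂, hzz⟩ := Finset.one_lt_card.1 hL2'
      have hcy : ∀ y ∈ L, c ≠ y := fun y hy h => hcL (h ▸ hy)
      have hdz : ∀ z ∈ L', d ≠ z := fun z hz h => hdL (h ▸ hz)
      have key : ∀ y ∈ L, ∀ z ∈ L', ∃ p ∈ C, ∃ r ∈ D, G.Adj p r ∧
          ((p = c ∧ r = z) ∨ (p = y ∧ r = d) ∨ (p = y ∧ r = z)) := by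
        intro y hy z hz
        rcases hbl c hc y (hLC hy) (hcy y hy) (hLa y hy) d hd z (hLD hz) (hdz z hz) (hLa' z hz) with
          h | h | h | h
        · exact absurd h hadj
        · exact ⟨c, hc, z, hLD hz, h, Or.inl ⟨rfl, rfl⟩⟩
        · exact ⟨y, hLC hy, d, hd, h, Or.inr (Or.inl ⟨rfl, rfl⟩)⟩
        · exact ⟨y, hLC hy, z, hLD hz, h, Or.inr (Or.inr ⟨rfl, rfl⟩)⟩
      obtain ⟨p, hp, r, hr, hpr, hcase⟩ := key y₁ hy₁ z₁ hz₁
      obtain ⟨p', hp', r', hr', hpr', hcase'⟩ := key y₂ hy₂ z₂ hz₂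
      have h1 : 2 ≤ tcr G C D := by
        refine tcr_two G hp hr hp' hr' ?_ hpr hpr'
        rintro ⟨e1, e2⟩
        have a1 := hcy y₁ hy₁
        have a2 := hcy y₂ hy₂
        have a3 := hdz z₁ hz₁
        have a4 := hdz z₂ hz₂
        rcases hcase with ⟨b1, b2⟩ | ⟨b1, b2⟩ | ⟨b1, b2⟩ <;>
          rcases hcase' with ⟨b3, b4⟩ | ⟨b3, b4⟩ | ⟨b3, b4⟩ <;>
          rw [b1, b3] at e1 <;> rw [b2, b4] at e2
        · exact hzz e2
        · exact a2 e1
        · exact a2 e1
        · exact a1 e1.symm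
        · exact hyy e1
        · exact hyy e1
        · exact a1 e1.symm
        · exact hyy e1
        · exact hyy e1
      omega
  -- everything
  have hdisj4 : Disjoint (B ∪ C) D := by
    rw [Finset.disjoint_union_left]
    exact ⟨hBD, hCD⟩
  have y5 := (t_bounds G hq hS (F := B ∪ C ∪ D) subset_rfl).2.2.2 (by
    rw [Finset.card_union_of_disjoint hdisj4, Finset.card_union_of_disjoint hBC]
    omega)
  rw [te2_union G hdisj4, te2_union G hBC, tcr_union_left G hBC] at y5
  rw [tcr_symm] at x1 x2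
  have z1 : J + 2 * L.card ≤ (L.card - 1) * J + 4 := by
    obtain ⟨n, hn⟩ : ∃ n, L.card = n + 2 := ⟨L.card - 2, by omega⟩
    obtain ⟨j, hj⟩ : ∃ j, J = j + 2 := ⟨J - 2, by omega⟩
    rw [hn, hj]
    have e1 : n + 2 - 1 = n + 1 := by omega
    rw [e1]
    nlinarith [Nat.zero_le (n * j)]
  have z2 : J' + 2 * L'.card ≤ (L'.card - 1) * J' + 4 := by
    obtain ⟨n, hn⟩ : ∃ n, L'.card = n + 2 := ⟨L'.card - 2, by omega⟩
    obtain ⟨j, hj⟩ : ∃ j, J' = j + 2 := ⟨J' - 2, by omega⟩
    rw [hn, hj]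
    have e1 : n + 2 - 1 = n + 1 := by omega
    rw [e1]
    nlinarith [Nat.zero_le (n * j)]
  have z3 : L.card * J = (L.card - 1) * J + J := by
    obtain ⟨n, hn⟩ : ∃ n, L.card = n + 1 := ⟨L.card - 1, by omega⟩
    rw [hn, Nat.add_sub_cancel]
    ring
  have z4 : L'.card * J' = (L'.card - 1) * J' + J' := by
    obtain ⟨n, hn⟩ : ∃ n, L'.card = n + 1 := ⟨L'.card - 1, by omega⟩
    rw [hn, Nat.add_sub_cancel]
    ring
  rw [z3] at x1
  rw [z4] at x2
  generalize (L.card - 1) * J = m1 at *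
  generalize (L'.card - 1) * J' = m2' at *
  generalize q * q = qq at *
  omega

end Pool.Agent.TwoDens
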