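import Pool.Agent.UHX.DataA
import Pool.Agent.UHX.HD
import Pool.Agent.UHX.StructG
import Pool.Agent.UHX.Three

/-!
The abstract data in the case of one missing pair, with the improved budget.
-/

open Finset

namespace Pool.Agent.TwoDens

theorem Hk.mono {V : Type*} [DecidableEq V] {G : SimpleGraph V} [DecidableRel G.Adj] {k : ℕ}
    {X Y : Finset V} (h : Hk G k X) (hY : Y ⊆ X) : Hk G k Y :=
  fun F hF h3 => h F (hF.trans hY) h3

theorem Hk.sk {V : Type*} [DecidableEq V] {G : SimpleGraph V} [DecidableRel G.Adj] {k : ℕ}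
    {X : Finset V} (hk : 3 ≤ k) (h : Hk G k X) : Sk G k X := by
  intro F hF h3
  have h1 := h F hF h3
  have h2 : (1 : ℤ) ≤ (k : ℤ) - 2 := by
    have : (3 : ℤ) ≤ k := by exact_mod_cast hk
    linarith
  have h3' : (3 : ℤ) ≤ F.card := by exact_mod_cast h3
  have h4 : ((k : ℤ) - 2) * (e2 G F : ℤ) <
      ((k : ℤ) - 2) * (2 + ((k : ℤ) + 1) * ((F.card : ℤ) - 2)) := by linarith
  have h5 := lt_of_mul_lt_mul_left h4 (by linarith)
  have h6 : (e2 G F : ℤ) + 2 * k + 1 ≤ (k + 1) * F.card := by linarith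
  exact_mod_cast h6

theorem Hk.full {V : Type*} [DecidableEq V] {G : SimpleGraph V} [DecidableRel G.Adj] {k : ℕ}
    {X : Finset V} (hk : 3 ≤ k) (h : Hk G k X) {Z : Finset V} (hZ : Z ⊆ X) (hc : Z.card = k) :
    2 * 1 < m2 G Z := by
  have h1 := h Z hZ (by omega)
  rw [hc] at h1
  have h2 : (1 : ℤ) ≤ (k : ℤ) - 2 := by
    have : (3 : ℤ) ≤ k := by exact_mod_cast hk
    linarith
  have h4 : ((k : ℤ) - 2) * ((e2 G Z : ℤ) + 2) <
      ((k : ℤ) - 2) * (2 + ((k : ℤ) + 1) * ((k : ℤ) - 2)) := by linarith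
  have h5 := lt_of_mul_lt_mul_left h4 (by linarith)
  have h6 := e2_add_m2 G Z
  rw [hc] at h6
  have h7 : (e2 G Z : ℤ) + m2 G Z + k = k * k := by exact_mod_cast h6
  have h8 : (2 : ℤ) < m2 G Z := by nlinarith
  exact_mod_cast h8

/-- the extra load of a conflict -/
theorem conflict_extra {k a t Λ : ℕ} {V : Type} [DecidableEq V] (G : SimpleGraph V)
    [DecidableRel G.Adj] {Y I : Finset V} {h : V → V} (hk : 5 ≤ k) (hΛ8 : 8 * Λ < k)
    (hH : Hk G k Y) (hIc : I.card = a) (hI : ∀ v ∈ Y, h v ∈ I)
    (hP1 : ∑ x ∈ Y, ms G Y h x ≤ 2 * Λ)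
    (hP2 : ∀ W ⊆ Y, G.IsIndepSet (W : Set V) → ∀ J ⊆ I, (∀ w ∈ W, h w ∉ J) →
        a + 1 ≤ W.card + J.card →
        ∃ j ∈ J, (Y.filter (fun u => h u = j ∧ ∀ w ∈ W, ¬ G.Adj w u)).card ≤ Λ)
    (hgt : ∀ i ∈ I, k ≤ (grp Y h i).card + t)
    {i c d : V} (hi : i ∈ I) (hc : c ∈ I) (hd : d ∈ I) (hic : i ≠ c) (hid : i ≠ d) (hcd : c ≠ d)
    (hgi : (grp Y h i).card + 1 = k) (hgc : (grp Y h c).card = k) (hgd : (grp Y h d).card = k) :
    ∃ (X : Finset V) (l : V), X.card ≤ 4 ∧ X ⊆ Y ∧ (∀ v ∈ X, h v = i ∨ h v = c ∨ h v = d) ∧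
      l ∈ I ∧ l ≠ i ∧ (∀ v ∈ X, h v ≠ l) ∧ k ≤ ∑ v ∈ X, dj G Y h v l + (t + Λ) := by
  classical
  -- the common end of the argument
  have key : ∀ X : Finset V, X.card ≤ 4 → X ⊆ Y → G.IsIndepSet (X : Set V) →
      (∀ v ∈ X, h v = i ∨ h v = c ∨ h v = d) →
      ∀ T : Finset V, T ⊆ I → i ∈ T → (∀ v ∈ X, h v ∈ T) → T.card + 1 ≤ X.card →
      ∃ (X : Finset V) (l : V), X.card ≤ 4 ∧ X ⊆ Y ∧ (∀ v ∈ X, h v = i ∨ h v = c ∨ h v = d) ∧
        l ∈ I ∧ l ≠ i ∧ (∀ v ∈ X, h v ≠ l) ∧ k ≤ ∑ v ∈ X, dj G Y h v l + (t + Λ) := by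
    intro X hX4 hXY hXi hXg T hT hiT hXT hcard
    have h1 : (I \ T).card = a - T.card := by
      rw [Finset.card_sdiff_of_subset hT, hIc]
    have hTa : T.card ≤ a := by rw [← hIc]; exact Finset.card_le_card hT
    obtain ⟨l, hl, hlc⟩ := hP2 X hXY hXi (I \ T) Finset.sdiff_subset
      (fun w hw h2 => (mem_sdiff.1 h2).2 (hXT w hw)) (by omega)
    obtain ⟨hlI, hlT⟩ := mem_sdiff.1 hl
    refine ⟨X, l, hX4, hXY, hXg, hlI, ?_, ?_, ?_⟩
    · rintro rfl
      exact hlT hiT
    · intro v hv h2
      exact hlT (h2 ▸ hXT v hv)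
    · have h2 := hgt l hlI
      have h3 : (grp Y h l).card ≤
          (Y.filter (fun u => h u = l ∧ ∀ w ∈ X, ¬ G.Adj w u)).card + ∑ v ∈ X, dj G Y h v l := by
        have h4 : grp Y h l ⊆ (Y.filter (fun u => h u = l ∧ ∀ w ∈ X, ¬ G.Adj w u)) ∪
            X.biUnion (fun v => Y.filter (fun u => h u = l ∧ G.Adj v u)) := by
          intro u hu
          obtain ⟨hu1, hu2⟩ := mem_filter.1 hu
          rw [mem_union, mem_filter, mem_biUnion]
          by_cases h5 : ∀ w ∈ X, ¬ G.Adj w u
          · exact Or.inl ⟨hu1, hu2, h5⟩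
          · push Not at h5
            obtain ⟨w, hw, hwu⟩ := h5
            exact Or.inr ⟨w, hw, mem_filter.2 ⟨hu1, hu2, hwu⟩⟩
        refine (Finset.card_le_card h4).trans ((Finset.card_union_le _ _).trans ?_)
        have h5 := Finset.card_biUnion_le (s := X)
          (t := fun v => Y.filter (fun u => h u = l ∧ G.Adj v u))
        unfold dj
        omega
      omega
  have hmem : ∀ {j v : V}, v ∈ grp Y h j → v ∈ Y ∧ h v = j := fun hv => mem_filter.1 hv
  by_contra hno
  -- (i) the target is complete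
  have hB : ∀ x ∈ grp Y h i, ∀ y ∈ grp Y h i, x ≠ y → G.Adj x y := by
    intro x hx y hy hxy
    by_contra hna
    obtain ⟨hxY, hxh⟩ := hmem hx
    obtain ⟨hyY, hyh⟩ := hmem hy
    refine hno (key {x, y} (Finset.card_le_two.trans (by omega)) ?_ ?_ ?_ {i} ?_ ?_ ?_ ?_)
    · intro v hv
      rw [mem_insert, mem_singleton] at hv
      rcases hv with rfl | rfl <;> assumption
    · intro u hu v hv huv hadj
      simp only [Finset.coe_insert, Finset.coe_singleton, Set.mem_insert_iff,
        Set.mem_singleton_iff] at hu hv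
      rcases hu with rfl | rfl <;> rcases hv with rfl | rfl
      · exact huv rfl
      · exact hna hadj
      · exact hna hadj.symm
      · exact huv rfl
    · intro v hv
      rw [mem_insert, mem_singleton] at hv
      rcases hv with rfl | rfl
      · exact Or.inl hxh
      · exact Or.inl hyh
    · intro v hv
      rw [mem_singleton] at hv
      rw [hv]; exact hi
    · exact mem_singleton_self _
    · intro v hv
      rw [mem_insert, mem_singleton] at hv
      rw [mem_singleton]
      rcases hv with rfl | rfl <;> assumption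
    · rw [Finset.card_singleton, Finset.card_pair hxy]
  -- (ii) every missing pair of `c` or `d` dominates the target
  have hdom : ∀ g, (g = c ∨ g = d) → ∀ x ∈ grp Y h g, ∀ y ∈ grp Y h g, x ≠ y → ¬ G.Adj x y →
      ∀ u ∈ grp Y h i, G.Adj x u ∨ G.Adj y u := by
    intro g hg x hx y hy hxy hna u hu
    by_contra hcon
    push Not at hcon
    obtain ⟨hxY, hxh⟩ := hmem hx
    obtain ⟨hyY, hyh⟩ := hmem hy
    obtain ⟨huY, huh⟩ := hmem hu
    have hgI : g ∈ I := by rcases hg with rfl | rfl <;> assumption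
    have hig : i ≠ g := by rcases hg with rfl | rfl <;> assumption
    have hux : u ≠ x := by
      rintro rfl
      exact hig (huh.symm.trans hxh)
    have huy : u ≠ y := by
      rintro rfl
      exact hig (huh.symm.trans hyh)
    have hc3 : ({u, x, y} : Finset V).card = 3 := by
      rw [Finset.card_insert_of_notMem, Finset.card_pair hxy]
      rw [mem_insert, mem_singleton]
      rintro (h1 | h1)
      · exact hux h1
      · exact huy h1
    refine hno (key {u, x, y} (by omega) ?_ ?_ ?_ {i, g} ?_ ?_ ?_ ?_)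
    · intro v hv
      rw [mem_insert, mem_insert, mem_singleton] at hv
      rcases hv with rfl | rfl | rfl <;> assumption
    · intro p hp q hq hpq hadj
      simp only [Finset.coe_insert, Finset.coe_singleton, Set.mem_insert_iff,
        Set.mem_singleton_iff] at hp hq
      rcases hp with rfl | rfl | rfl <;> rcases hq with rfl | rfl | rfl
      · exact hpq rfl
      · exact hcon.1 hadj.symm
      · exact hcon.2 hadj.symm
      · exact hcon.1 hadj
      · exact hpq rfl
      · exact hna hadj
      · exact hcon.2 hadj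
      · exact hna hadj.symm
      · exact hpq rfl
    · intro v hv
      rw [mem_insert, mem_insert, mem_singleton] at hv
      rcases hv with rfl | rfl | rfl
      · exact Or.inl huh
      · rcases hg with rfl | rfl
        · exact Or.inr (Or.inl hxh)
        · exact Or.inr (Or.inr hxh)
      · rcases hg with rfl | rfl
        · exact Or.inr (Or.inl hyh)
        · exact Or.inr (Or.inr hyh)
    · intro v hv
      rw [mem_insert, mem_singleton] at hv
      rcases hv with rfl | rfl <;> assumption
    · exact mem_insert_self _ _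
    · intro v hv
      rw [mem_insert, mem_insert, mem_singleton] at hv
      rw [mem_insert, mem_singleton]
      rcases hv with rfl | rfl | rfl
      · exact Or.inl huh
      · exact Or.inr hxh
      · exact Or.inr hyh
    · rw [hc3, Finset.card_pair hig]
  -- (iii) missing pairs of `c` and `d` are joined
  have hbl : ∀ x ∈ grp Y h c, ∀ y ∈ grp Y h c, x ≠ y → ¬ G.Adj x y →
      ∀ z ∈ grp Y h d, ∀ w ∈ grp Y h d, z ≠ w → ¬ G.Adj z w →
      G.Adj x z ∨ G.Adj x w ∨ G.Adj y z ∨ G.Adj y w := by
    intro x hx y hy hxy hna z hz w hw hzw hna'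
    by_contra hcon
    push Not at hcon
    obtain ⟨hxY, hxh⟩ := hmem hx
    obtain ⟨hyY, hyh⟩ := hmem hy
    obtain ⟨hzY, hzh⟩ := hmem hz
    obtain ⟨hwY, hwh⟩ := hmem hw
    obtain ⟨h1, h2, h3, h4⟩ := hcon
    have hxz : x ≠ z := fun h5 => hcd (by rw [← hxh, h5, hzh])
    have hxw : x ≠ w := fun h5 => hcd (by rw [← hxh, h5, hwh])
    have hyz : y ≠ z := fun h5 => hcd (by rw [← hyh, h5, hzh])
    have hyw : y ≠ w := fun h5 => hcd (by rw [← hyh, h5, hwh])
    have hc4 : ({x, y, z, w} : Finset V).card = 4 := by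
      rw [Finset.card_insert_of_notMem, Finset.card_insert_of_notMem, Finset.card_pair hzw]
      · rw [mem_insert, mem_singleton]
        rintro (h5 | h5)
        · exact hyz h5
        · exact hyw h5
      · rw [mem_insert, mem_insert, mem_singleton]
        rintro (h5 | h5 | h5)
        · exact hxy h5
        · exact hxz h5
        · exact hxw h5
    have hc3 : ({i, c, d} : Finset V).card = 3 := by
      rw [Finset.card_insert_of_notMem, Finset.card_pair hcd]
      rw [mem_insert, mem_singleton]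
      rintro (h5 | h5)
      · exact hic h5
      · exact hid h5
    refine hno (key {x, y, z, w} (by omega) ?_ ?_ ?_ {i, c, d} ?_ ?_ ?_ ?_)
    · intro v hv
      rw [mem_insert, mem_insert, mem_insert, mem_singleton] at hv
      rcases hv with rfl | rfl | rfl | rfl <;> assumption
    · intro p hp q hq hpq hadj
      simp only [Finset.coe_insert, Finset.coe_singleton, Set.mem_insert_iff,
        Set.mem_singleton_iff] at hp hq
      rcases hp with rfl | rfl | rfl | rfl <;> rcases hq with rfl | rfl | rfl | rfl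
      · exact hpq rfl
      · exact hna hadj
      · exact h1 hadj
      · exact h2 hadj
      · exact hna hadj.symm
      · exact hpq rfl
      · exact h3 hadj
      · exact h4 hadj
      · exact h1 hadj.symm
      · exact h3 hadj.symm
      · exact hpq rfl
      · exact hna' hadj
      · exact h2 hadj.symm
      · exact h4 hadj.symm
      · exact hna' hadj.symm
      · exact hpq rfl
    · intro v hv
      rw [mem_insert, mem_insert, mem_insert, mem_singleton] at hv
      rcases hv with rfl | rfl | rfl | rfl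
      · exact Or.inr (Or.inl hxh)
      · exact Or.inr (Or.inl hyh)
      · exact Or.inr (Or.inr hzh)
      · exact Or.inr (Or.inr hwh)
    · intro v hv
      rw [mem_insert, mem_insert, mem_singleton] at hv
      rcases hv with rfl | rfl | rfl <;> assumption
    · exact mem_insert_self _ _
    · intro v hv
      rw [mem_insert, mem_insert, mem_insert, mem_singleton] at hv
      rw [mem_insert, mem_insert, mem_singleton]
      rcases hv with rfl | rfl | rfl | rfl
      · exact Or.inr (Or.inl hxh)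
      · exact Or.inr (Or.inl hyh)
      · exact Or.inr (Or.inr hzh)
      · exact Or.inr (Or.inr hwh)
    · rw [hc4, hc3]
  -- (iv)
  have hdisj : ∀ {p q : V}, p ≠ q → Disjoint (grp Y h p) (grp Y h q) := by
    intro p q hpq
    rw [Finset.disjoint_left]
    intro u hu hu'
    exact hpq ((hmem hu).2.symm.trans (hmem hu').2)
  have hm1 := (m2_grp_le G Y h c).trans hP1
  have hm2 := (m2_grp_le G Y h d).trans hP1
  refine three_groups G (grp Y h i) (grp Y h c) (grp Y h d) hk (hdisj hic) (hdisj hid) (hdisj hcd)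
    hgi hgc hgd hB (by omega) (hdom c (Or.inl rfl)) (hdom d (Or.inr rfl)) hbl (hH.mono ?_)
  refine Finset.union_subset (Finset.union_subset ?_ ?_) ?_ <;> exact Finset.filter_subset _ _

end Pool.Agent.TwoDens
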