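import Pool.Agent.UHX.DataA
import Pool.Agent.UHX.HD

/-!
The abstract data of a graph without good sets.
-/

open Finset

namespace Pool.Agent.TwoDens

/-- the data exist -/
theorem half_data (a t q M : ℕ) (ha : 2 ≤ a) : ∃ K, ∀ k, K ≤ k →
    ∀ {V : Type} [DecidableEq V] (G : SimpleGraph V) [DecidableRel G.Adj] (Y : Finset V),
    Sk G k Y → Al G a Y → Y.card + t = k * a → (∀ Z ⊆ Y, Z.card = k → 2 * q < m2 G Z) →
    ∃ (ε : ℤ) (I : Finset V) (d : V → ℤ) (J : V → Finset V) (x o E : V → V → ℤ)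
      (st : V → V → Prop),
      Pool.Agent.UHX.HD (a : ℤ) (t : ℤ) (q : ℤ) (k : ℤ) ε I d J x o E st ∧ 0 ≤ ε ∧
        (M : ℤ) * ε < k := by
  set c1 := 4 * (q + 1) * (q + 1) + 2 with hc1
  set c2 := 4 * (q + 1) * t + a + 2 * ((a * (2 * (q + 1))) * (a * (2 * (q + 1)))) with hc2
  set M1 := M + 1 with hM1
  obtain ⟨K1, hK1⟩ := T_thm (a - 1) (by omega)
  obtain ⟨K2, hK2⟩ := struct_thm a t (2 * (M1 * c1)) ha
  refine ⟨K1 + K2 + 2 * (M1 * c2) + t + 3, ?_⟩
  intro k hk V _ G _ Y hS hal hYc hcon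
  classical
  have ha1 : a - 1 + 1 = a := by omega
  have hdeg := deg_of_T G (t := t) (hK1 k (by omega) G) hS (by rw [ha1]; exact hal)
    (by rw [ha1]; exact hYc)
  obtain ⟨I, h, Λ, hIc, hI, hΛ, hP1, hP2⟩ := hK2 k (by omega) G Y hS hal hYc hdeg
  have hP1' : ∑ x ∈ Y, ms G Y h x ≤ 2 * Λ := hP1
  have hεk : M1 * (c1 * Λ + c2) < k := by
    have e1 : M1 * (c1 * Λ + c2) = M1 * c1 * Λ + M1 * c2 := by ring
    have e2 : 2 * (M1 * c1) * Λ = 2 * (M1 * c1 * Λ) := by ring
    omega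
  have hΛk : 2 * Λ < k := by
    have e1 : 2 * Λ ≤ c1 * Λ := Nat.mul_le_mul_right _ (by omega)
    have e2 : 1 * (c1 * Λ + c2) ≤ M1 * (c1 * Λ + c2) := Nat.mul_le_mul_right _ (by omega)
    omega
  have hle : ∀ j ∈ I, (grp Y h j).card ≤ k := fun j _ =>
    grp_le G (by omega) hS h hP1' hΛk j
  have hdef : ∑ i ∈ I, (k - (grp Y h i).card) = t := by
    have h8 : ∑ i ∈ I, ((k - (grp Y h i).card) + (grp Y h i).card) = ∑ i ∈ I, k :=
      Finset.sum_congr rfl fun i hi => by have := hle i hi; omega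
    rw [Finset.sum_add_distrib, sum_grp hI, Finset.sum_const, smul_eq_mul, hIc, mul_comm a k] at h8
    omega
  have hgt : ∀ i ∈ I, k ≤ (grp Y h i).card + t := by
    intro i hi
    have h1 : k - (grp Y h i).card ≤ ∑ i ∈ I, (k - (grp Y h i).card) :=
      Finset.single_le_sum (f := fun i => k - (grp Y h i).card) (fun _ _ => Nat.zero_le _) hi
    omega
  have hge : ∀ i ∈ I, 3 ≤ (grp Y h i).card := by
    intro i hi
    have := hgt i hi
    omega
  -- full groups
  set Full := I.filter (fun j => ((k - (grp Y h j).card : ℕ) : ℤ) = 0) with hFull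
  have hFullI : Full ⊆ I := Finset.filter_subset _ _
  have hFk : ∀ j ∈ Full, (grp Y h j).card = k := by
    intro j hj
    obtain ⟨h1, h2⟩ := mem_filter.1 hj
    have h3 := hle j h1
    have h4 : k - (grp Y h j).card = 0 := by exact_mod_cast h2
    omega
  -- the missing pairs
  have hpairs : ∀ j ∈ Full, ∃ P : Finset (Sym2 V), P.card = q + 1 ∧
      ∀ e ∈ P, ∃ x ∈ grp Y h j, ∃ y ∈ grp Y h j, x ≠ y ∧ ¬ G.Adj x y ∧ e = s(x, y) := by
    intro j hj
    exact exists_pairs G (hcon (grp Y h j) (Finset.filter_subset _ _) (hFk j hj))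
  choose! P hPc hPe using hpairs
  obtain ⟨i0, hi0⟩ : I.Nonempty := Finset.card_pos.1 (by omega)
  have hdom : ∀ j, ∀ e, j ∈ Full → e ∈ P j → ∃ x y τ : V, x ∈ grp Y h j ∧ y ∈ grp Y h j ∧
      e = s(x, y) ∧ τ ∈ I ∧ τ ≠ j ∧
      ((grp Y h τ).filter (fun u => ¬ G.Adj x u ∧ ¬ G.Adj y u)).card ≤ Λ := by
    intro j e hj he
    obtain ⟨x, hx, y, hy, hxy, hna, hexy⟩ := hPe j hj e he
    obtain ⟨hx1, hx2⟩ := mem_filter.1 hx
    obtain ⟨hy1, hy2⟩ := mem_filter.1 hy
    obtain ⟨τ, hτ, hτj, hc⟩ := hP2 x hx1 y hy1 hxy hna (by rw [hx2, hy2])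
    refine ⟨x, y, τ, hx, hy, hexy, hτ, by rw [← hx2]; exact hτj, ?_⟩
    unfold grp
    rw [Finset.filter_filter]
    exact hc
  haveI : Nonempty V := ⟨i0⟩
  choose! ex ey τ hex hey hexy hτI hτj hτc using hdom
  -- data
  set H : V → V → Finset (Sym2 V) := fun i j => (P j).filter (fun e => τ j e = i) with hH
  set J : V → Finset V := fun i => Full.filter (fun j => (H i j).Nonempty) with hJ
  set W' : V → Finset V := fun j => (P j).biUnion (fun e => {ex j e, ey j e}) with hW'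
  set W : V → V → Finset V := fun i j => (H i j).biUnion (fun e => {ex j e, ey j e}) with hW
  have hHP : ∀ i j, H i j ⊆ P j := fun i j => Finset.filter_subset _ _
  have hWW' : ∀ i j, W i j ⊆ W' j := fun i j => Finset.biUnion_subset_biUnion_of_subset_left _
    (hHP i j)
  have hW'g : ∀ j ∈ Full, W' j ⊆ grp Y h j := by
    intro j hj v hv
    obtain ⟨e, he, hv⟩ := mem_biUnion.1 hv
    rw [mem_insert, mem_singleton] at hv
    rcases hv with rfl | rfl
    · exact hex j e hj he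
    · exact hey j e hj he
  have hW'c : ∀ j ∈ Full, (W' j).card ≤ 2 * (q + 1) := by
    intro j hj
    have h1 : (W' j).card ≤ (P j).card * 2 :=
      Finset.card_biUnion_le_card_mul _ _ _ fun _ _ => Finset.card_le_two
    rw [hPc j hj] at h1
    omega
  have hJF : ∀ i, J i ⊆ Full := fun i => Finset.filter_subset _ _
  have hiJ : ∀ i, i ∉ J i := by
    intro i hi
    obtain ⟨h1, e, he⟩ := mem_filter.1 hi
    obtain ⟨h2, h3⟩ := mem_filter.1 he
    exact hτj i e h1 h2 h3
  -- load bounds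
  have hload : ∀ i ∈ I, ∀ j ∈ J i, _ := fun i hi j hj =>
    load_int2 G (k := k) (t := t) (q := q) (Λ := Λ) (Y := Y) (h := h) (i := i) (W := W i j)
      (H := H i j) (mem_filter.1 hj).2
      ((Finset.card_le_card (hHP i j)).trans (hPc j (hJF i hj)).le)
      (by
        intro e he v hv
        rw [hexy j e (hJF i hj) (hHP i j he), Sym2.mem_iff] at hv
        refine mem_biUnion.2 ⟨e, he, ?_⟩
        rw [mem_insert, mem_singleton]
        exact hv)
      (by
        intro e he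
        refine ⟨ex j e, ey j e, hexy j e (hJF i hj) (hHP i j he), ?_⟩
        have h1 := hτc j e (hJF i hj) (hHP i j he)
        rwa [(mem_filter.1 he).2] at h1)
      (hle i hi) (hgt i hi)
  set L : V → V → ℤ := fun i j => ((∑ v ∈ W i j, dj G Y h v i : ℕ) : ℤ) with hL
  set ε0 : ℤ := 4 * ((q : ℤ) + 1) * (t + (q + 1) * Λ) with hε0
  -- star predicate and centres
  set st : V → V → Prop := fun i j => ∃ c ∈ W i j,
    (((H i j).card : ℤ) - 1) * ((k : ℤ) - ((2 * dj G Y h c i - k : ℕ) : ℤ)) ≤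
      (2 * L i j - 2 * k) + ε0 ∧ ((2 * dj G Y h c i - k : ℕ) : ℤ) ≤ k with hst
  have hload' : ∀ i ∈ I, ∀ j ∈ J i, st i j ∨ 2 * (k : ℤ) ≤ (2 * L i j - 2 * k) + ε0 := hload
  have hcent : ∀ i j, ∃ c, st i j → c ∈ W i j ∧
      (((H i j).card : ℤ) - 1) * ((k : ℤ) - ((2 * dj G Y h c i - k : ℕ) : ℤ)) ≤
      (2 * L i j - 2 * k) + ε0 ∧ ((2 * dj G Y h c i - k : ℕ) : ℤ) ≤ k := by
    intro i j
    by_cases h1 : st i j
    · obtain ⟨c, hc1, hc2⟩ := h1
      exact ⟨c, fun _ => ⟨hc1, hc2⟩⟩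
    · exact ⟨i0, fun h2 => absurd h2 h1⟩
  choose cen hcen using hcent
  set x : V → V → ℤ := fun i j => ((H i j).card : ℤ) - 1 with hx
  set o : V → V → ℤ := fun i j => if st i j then ((2 * dj G Y h (cen i j) i - k : ℕ) : ℤ) else 0
    with ho
  set E : V → V → ℤ := fun i j => 2 * L i j - 2 * k with hE
  set ε : ℤ := ((c1 * Λ + c2 : ℕ) : ℤ) with hε
  have hε0ε : ε0 ≤ ε := by
    rw [hε, hε0, hc1, hc2]
    push_cast
    have e1 : (0 : ℤ) ≤ 2 * ((a * (2 * (q + 1))) * (a * (2 * (q + 1)))) := by positivity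
    have e2 : (0 : ℤ) ≤ (Λ : ℤ) := Int.natCast_nonneg _
    have e3 : (0 : ℤ) ≤ (a : ℤ) := Int.natCast_nonneg _
    nlinarith
  have hk0 : (0 : ℤ) ≤ k := Int.natCast_nonneg _
  have hx0 : ∀ i ∈ I, ∀ j ∈ J i, 0 ≤ x i j := by
    intro i _ j hj
    have h1 : 1 ≤ (H i j).card := Finset.card_pos.2 (mem_filter.1 hj).2
    have h2 : (1 : ℤ) ≤ (H i j).card := by exact_mod_cast h1
    simp only [hx]
    linarith
  have hxq : ∀ i ∈ I, ∀ j ∈ J i, x i j ≤ q := by
    intro i _ j hj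
    have h1 := (Finset.card_le_card (hHP i j)).trans (hPc j (hJF i hj)).le
    have h2 : ((H i j).card : ℤ) ≤ q + 1 := by exact_mod_cast h1
    simp only [hx]
    linarith
  have ho0 : ∀ i j, 0 ≤ o i j := by
    intro i j
    simp only [ho]
    split_ifs
    · exact Int.natCast_nonneg _
    · exact le_refl _
  have hok : ∀ i j, o i j ≤ k := by
    intro i j
    simp only [ho]
    split_ifs with h1
    · exact (hcen i j h1).2.2
    · exact hk0
  have hstar0 : ∀ i j, st i j → x i j * ((k : ℤ) - o i j) ≤ E i j + ε0 := by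
    intro i j h1
    have h2 := (hcen i j h1).2.1
    have h3 : o i j = ((2 * dj G Y h (cen i j) i - k : ℕ) : ℤ) := by
      simp only [ho]
      rw [if_pos h1]
    rw [h3]
    exact h2
  have hstar : ∀ i ∈ I, ∀ j ∈ J i, st i j → (k : ℤ) * x i j ≤ x i j * o i j + E i j + ε := by
    intro i _ j _ h1
    have h2 := hstar0 i j h1
    have h3 : x i j * ((k : ℤ) - o i j) = k * x i j - x i j * o i j := by ring
    linarith
  have hnst : ∀ i ∈ I, ∀ j ∈ J i, ¬ st i j → 2 * (k : ℤ) ≤ E i j + ε := by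
    intro i hi j hj h1
    rcases hload' i hi j hj with h2 | h2
    · exact absurd h2 h1
    · linarith
  have hE0 : ∀ i ∈ I, ∀ j ∈ J i, 0 ≤ E i j + ε := by
    intro i hi j hj
    by_cases h1 : st i j
    · have h2 := hstar0 i j h1
      have h3 : 0 ≤ x i j * ((k : ℤ) - o i j) :=
        mul_nonneg (hx0 i hi j hj) (by linarith [hok i j])
      linarith
    · have h2 := hnst i hi j hj h1
      linarith
  have hε00 : 0 ≤ ε := by rw [hε]; exact Int.natCast_nonneg _
  -- local bounds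
  have hloc : ∀ i ∈ I, ∀ A B : Finset V, A ⊆ J i → B ⊆ J i → Disjoint A B →
      ∑ j ∈ A, o i j + ∑ j ∈ B, E i j ≤ k * ((k - (grp Y h i).card : ℕ) : ℤ) + ε := by
    intro i hi A B hA hB hAB
    set A' := A.filter (fun j => st i j ∧ k ≤ 2 * dj G Y h (cen i j) i) with hA'
    have hAA : A' ⊆ A := Finset.filter_subset _ _
    have h1 : ∑ j ∈ A, o i j = ∑ j ∈ A', ((2 * dj G Y h (cen i j) i - k : ℕ) : ℤ) := by
      rw [hA', Finset.sum_filter (s := A)]
      refine Finset.sum_congr rfl fun j _ => ?_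
      simp only [ho]
      by_cases h2 : st i j
      · by_cases h3 : k ≤ 2 * dj G Y h (cen i j) i
        · rw [if_pos h2, if_pos ⟨h2, h3⟩]
        · rw [if_pos h2, if_neg (fun h4 => h3 h4.2)]
          have : 2 * dj G Y h (cen i j) i - k = 0 := by omega
          rw [this]
          rfl
      · rw [if_neg h2, if_neg (fun h4 => h2 h4.1)]
    have h2 := loc_bound G (k := k) (Λ := Λ) (Y := Y) (h := h) (i := i) hS A' B
      (Finset.disjoint_of_subset_left hAA hAB) (fun h3 => hiJ i (hA (hAA h3)))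
      (fun h3 => hiJ i (hB h3)) (fun j hj => hFk j (hJF i (hB hj))) (hle i hi) (hge i hi) hP1'
      (fun j => cen i j)
      (fun j hj => hW'g j (hJF i (hA (hAA hj))) (hWW' i j (hcen i j (mem_filter.1 hj).2.1).1))
      (fun j hj => (mem_filter.1 hj).2.2) (W i)
      (fun j hj => (hWW' i j).trans (hW'g j (hJF i (hB hj))))
    have h3 : A'.card ≤ a := by
      rw [← hIc]
      exact Finset.card_le_card (((hAA.trans hA).trans (hJF i)).trans hFullI)
    have h4 : ∑ j ∈ B, E i j = 2 * ((∑ j ∈ B, ∑ v ∈ W i j, dj G Y h v i : ℕ) : ℤ) -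
        2 * k * B.card := by
      simp only [hE, hL]
      rw [Finset.sum_sub_distrib, ← Finset.mul_sum, Finset.sum_const, nsmul_eq_mul]
      push_cast
      ring
    have h5 : ∑ j ∈ A', (2 * dj G Y h (cen i j) i - k) +
        2 * (∑ j ∈ B, ∑ v ∈ W i j, dj G Y h v i) ≤
        2 * k * B.card + k * (k - (grp Y h i).card) + (c1 * Λ + c2) := by
      have e1 : 2 * Λ ≤ c1 * Λ := Nat.mul_le_mul_right _ (by omega)
      have e2 : a ≤ c2 := by
        rw [hc2]
        omega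
      omega
    have h6 : ∑ j ∈ A', ((2 * dj G Y h (cen i j) i - k : ℕ) : ℤ) +
        2 * ((∑ j ∈ B, ∑ v ∈ W i j, dj G Y h v i : ℕ) : ℤ) ≤
        2 * k * B.card + k * ((k - (grp Y h i).card : ℕ) : ℤ) + ε := by
      rw [hε]
      exact_mod_cast h5
    rw [h1, h4]
    linarith
  -- budgets
  have hbud : ∀ S : Finset V, S ⊆ I → S.Nonempty →
      ∑ i ∈ S, ∑ j ∈ (J i).filter (fun j => j ∈ S), (2 * (k : ℤ) + E i j) ≤
      2 * k * ((S.card : ℤ) - 1) + k * ∑ i ∈ S, ((k - (grp Y h i).card : ℕ) : ℤ) + ε := by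
    intro S hSI hSne
    have h1 := bud_bound G (k := k) (Λ := Λ) (a := a) (w := 2 * (q + 1)) (Y := Y)
      (I := I) (Full := Full.filter (fun j => j ∈ S)) (L := S) (h := h) hS hIc.le hSI hSne
      (fun j hj => (mem_filter.1 hj).2) hle hge hP1' W'
      (fun j hj => hW'g j (mem_filter.1 hj).1) (fun j hj => hW'c j (mem_filter.1 hj).1)
    have h2 : ∑ i ∈ S, ∑ j ∈ (J i).filter (fun j => j ∈ S), (2 * (k : ℤ) + E i j) =
        2 * ((∑ i ∈ S, ∑ j ∈ (J i).filter (fun j => j ∈ S), ∑ v ∈ W i j, dj G Y h v i : ℕ) : ℤ)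
        := by
      simp only [hE, hL]
      push_cast
      rw [Finset.mul_sum]
      refine Finset.sum_congr rfl fun i _ => ?_
      rw [Finset.mul_sum]
      refine Finset.sum_congr rfl fun j _ => ?_
      ring
    have h3 : ∑ i ∈ S, ∑ j ∈ (J i).filter (fun j => j ∈ S), ∑ v ∈ W i j, dj G Y h v i ≤
        ∑ i ∈ S, ∑ j ∈ (Full.filter (fun j => j ∈ S)).filter (fun j => j ≠ i),
          ∑ v ∈ W' j, dj G Y h v i := by
      refine Finset.sum_le_sum fun i _ => ?_
      have h4 : (J i).filter (fun j => j ∈ S) ⊆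
          (Full.filter (fun j => j ∈ S)).filter (fun j => j ≠ i) := by
        intro j hj
        obtain ⟨h5, h6⟩ := mem_filter.1 hj
        refine mem_filter.2 ⟨mem_filter.2 ⟨hJF i h5, h6⟩, ?_⟩
        rintro rfl
        exact hiJ _ h5
      refine (Finset.sum_le_sum fun j _ => Finset.sum_le_sum_of_subset (hWW' i j)).trans ?_
      exact Finset.sum_le_sum_of_subset h4
    have h4 : 2 * (∑ i ∈ S, ∑ j ∈ (J i).filter (fun j => j ∈ S), ∑ v ∈ W i j, dj G Y h v i) +
        2 * k ≤ 2 * k * S.card + k * (∑ i ∈ S, (k - (grp Y h i).card)) + (c1 * Λ + c2) := by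
      have e1 : 2 * Λ ≤ c1 * Λ := Nat.mul_le_mul_right _ (by omega)
      have e2 : 2 * ((a * (2 * (q + 1))) * (a * (2 * (q + 1)))) ≤ c2 := by
        rw [hc2]
        omega
      omega
    have h5 : 2 * ((∑ i ∈ S, ∑ j ∈ (J i).filter (fun j => j ∈ S),
        ∑ v ∈ W i j, dj G Y h v i : ℕ) : ℤ) + 2 * k ≤
        2 * k * S.card + k * ((∑ i ∈ S, (k - (grp Y h i).card) : ℕ) : ℤ) + ε := by
      rw [hε]
      exact_mod_cast h4
    have h6 : ((∑ i ∈ S, (k - (grp Y h i).card) : ℕ) : ℤ) =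
        ∑ i ∈ S, ((k - (grp Y h i).card : ℕ) : ℤ) := Nat.cast_sum _ _
    rw [h6] at h5
    rw [h2]
    linarith
  -- counting
  have hcnt : ∀ j ∈ I, ((k - (grp Y h j).card : ℕ) : ℤ) = 0 →
      ∑ i ∈ I.filter (fun i => j ∈ J i), (x i j + 1) = (q : ℤ) + 1 := by
    intro j hj hj0
    have hjF : j ∈ Full := mem_filter.2 ⟨hj, hj0⟩
    have h1 : ∑ i ∈ I.filter (fun i => j ∈ J i), (x i j + 1) = ∑ i ∈ I, ((H i j).card : ℤ) := by
      simp only [hx, sub_add_cancel]
      rw [Finset.sum_filter]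
      refine Finset.sum_congr rfl fun i _ => ?_
      split_ifs with h2
      · rfl
      · have h3 : ¬ (H i j).Nonempty := fun h4 => h2 (mem_filter.2 ⟨hjF, h4⟩)
        rw [Finset.not_nonempty_iff_eq_empty] at h3
        rw [h3]
        rfl
    rw [h1]
    have h3 := Finset.card_eq_sum_card_fiberwise (s := P j) (t := I) (f := τ j)
      (fun e he => hτI j e hjF he)
    rw [hPc j hjF] at h3
    exact_mod_cast h3.symm
  have hdt : ∑ i ∈ I, ((k - (grp Y h i).card : ℕ) : ℤ) = t := by exact_mod_cast hdef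
  refine ⟨ε, I, fun i => ((k - (grp Y h i).card : ℕ) : ℤ), J, x, o, E, st, ?_, hε00, ?_⟩
  · exact
      { cI := by exact_mod_cast hIc
        d0 := fun i _ => Int.natCast_nonneg _
        dt := hdt
        JI := by
          intro i _ j hj
          refine ⟨hFullI (hJF i hj), (mem_filter.1 (hJF i hj)).2, ?_⟩
          rintro rfl
          exact hiJ _ hj
        x0 := hx0
        xq := hxq
        o0 := fun i _ j _ => ho0 i j
        ok := fun i _ j _ => hok i j
        E0 := hE0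
        star := hstar
        nst := hnst
        loc := hloc
        bud := hbud
        cnt := hcnt }
  · have h1 : ((M1 * (c1 * Λ + c2) : ℕ) : ℤ) < k := by exact_mod_cast hεk
    have h2 : ((M1 * (c1 * Λ + c2) : ℕ) : ℤ) = (M : ℤ) * ε + ε := by
      rw [hM1, hε]
      push_cast
      ring
    linarith

end Pool.Agent.TwoDens
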