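import Pool.Agent.UHX.Conf

/-!
The abstract data in the case of one missing pair, with the improved budget.
-/

open Finset

namespace Pool.Agent.TwoDens

/-- the data exist, with the improved budget -/
theorem half_data1 (a t q M : ℕ) (ha : 2 ≤ a) (hq : q = 1) : ∃ K, ∀ k, K ≤ k →
    ∀ {V : Type} [DecidableEq V] (G : SimpleGraph V) [DecidableRel G.Adj] (Y : Finset V),
    Hk G k Y → Al G a Y → Y.card + t = k * a →
    ∃ (ε : ℤ) (I : Finset V) (d : V → ℤ) (J : V → Finset V) (x o E : V → V → ℤ)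
      (st : V → V → Prop),
      Pool.Agent.UHX.HD (a : ℤ) (t : ℤ) (q : ℤ) (k : ℤ) ε I d J x o E st ∧ 0 ≤ ε ∧
        (M : ℤ) * ε < k ∧
      (∀ S : Finset V, S ⊆ I →
        (∀ i ∈ S, d i = 1 ∧ ∃ j ∈ J i, ∃ j' ∈ J i, j ≠ j' ∧ 1 ≤ x i j ∧ 1 ≤ x i j') →
        ∑ i ∈ I, ∑ j ∈ J i, (2 * (k : ℤ) + E i j) + 2 * k * S.card ≤
          2 * k * ((a : ℤ) - 1) + k * t + ε) := by
  set w := 2 * (q + 1) + 4 * a with hw
  set c1 := 4 * (q + 1) * (q + 1) + 2 * a + 8 with hc1
  set c2 := 4 * (q + 1) * t + a + 2 * (a * t) + 2 * ((a * w) * (a * w)) with hc2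
  have hcw : 2 * ((a * (2 * (q + 1))) * (a * (2 * (q + 1)))) ≤ c2 := by
    have e1 : a * (2 * (q + 1)) ≤ a * w := Nat.mul_le_mul_left _ (by omega)
    have e2 := Nat.mul_le_mul e1 e1
    omega
  set M1 := M + 1 with hM1
  obtain ⟨K1, hK1⟩ := T_thm (a - 1) (by omega)
  obtain ⟨K2, hK2⟩ := struct_thm2 a t (2 * (M1 * c1)) ha
  refine ⟨K1 + K2 + 2 * (M1 * c2) + t + 5, ?_⟩
  intro k hk V _ G _ Y hHk hal hYc
  classical
  have hS : Sk G k Y := hHk.sk (by omega)
  have hcon : ∀ Z ⊆ Y, Z.card = k → 2 * q < m2 G Z := by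
    intro Z hZ hZc
    rw [hq]
    exact hHk.full (by omega) hZ hZc
  have ha1 : a - 1 + 1 = a := by omega
  have hdeg := deg_of_T G (t := t) (hK1 k (by omega) G) hS (by rw [ha1]; exact hal)
    (by rw [ha1]; exact hYc)
  obtain ⟨I, h, Λ, hIc, hI, hΛ, hP1, hP2⟩ := hK2 k (by omega) G Y hS hal hYc hdeg
  have hP1' : ∑ x ∈ Y, ms G Y h x ≤ 2 * Λ := hP1
  have hεk : M1 * (c1 * Λ + c2) < k := by
    have e1 : M1 * (c1 * Λ + c2) = M1 * c1 * Λ + M1 * c2 := by ring
    have e2 : 2 * (M1 * c1) * Λ = 2 * (M1 * c1 * Λ) := by ring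
    omega
  have hΛ8 : 8 * Λ < k := by
    have e1 : 8 * Λ ≤ c1 * Λ := Nat.mul_le_mul_right _ (by omega)
    have e2 : 1 * (c1 * Λ + c2) ≤ M1 * (c1 * Λ + c2) := Nat.mul_le_mul_right _ (by omega)
    omega
  have hΛk : 2 * Λ < k := by omega
  have hle : ∀ j ∈ I, (grp Y h j).card ≤ k := fun j _ =>
    grp_le G (by omega) hS h hP1' hΛk j
  have hdef : ∑ i ∈ I, (k - (grp Y h i).card) = t := by
    have h8 : ∑ i ∈ I, ((k - (grp Y h i).card) + (grp Y h i).card) = ∑ i ∈ I, k :=
      Finset.sum_congr rfl fun i hi => by have := hle i hi; omega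
    rw [Finset.sum_add_distrib, sum_grp hI, Finset.sum_const, smul_eq_mul, hIc, mul_comm a k] at h8
    omega
  have hgt : ∀ i ∈ I, k ≤ (grp Y h i).card + t := by
    intro i hi
    have h1 : k - (grp Y h i).card ≤ ∑ i ∈ I, (k - (grp Y h i).card) :=
      Finset.single_le_sum (f := fun i => k - (grp Y h i).card) (fun _ _ => Nat.zero_le _) hi
    omega
  have hge : ∀ i ∈ I, 3 ≤ (grp Y h i).card := by
    intro i hi
    have := hgt i hi
    omega
  -- full groups
  set Full := I.filter (fun j => ((k - (grp Y h j).card : ℕ) : ℤ) = 0) with hFull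
  have hFullI : Full ⊆ I := Finset.filter_subset _ _
  have hFk : ∀ j ∈ Full, (grp Y h j).card = k := by
    intro j hj
    obtain ⟨h1, h2⟩ := mem_filter.1 hj
    have h3 := hle j h1
    have h4 : k - (grp Y h j).card = 0 := by exact_mod_cast h2
    omega
  -- the missing pairs
  obtain ⟨i0, hi0⟩ : I.Nonempty := Finset.card_pos.1 (by omega)
  haveI : Nonempty V := ⟨i0⟩
  set T : V → Sym2 V → V → Prop := fun j e i => ∃ x y : V, x ∈ grp Y h j ∧ y ∈ grp Y h j ∧
      x ≠ y ∧ ¬ G.Adj x y ∧ e = s(x, y) ∧ i ∈ I ∧ i ≠ j ∧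
      ((grp Y h i).filter (fun u => ¬ G.Adj x u ∧ ¬ G.Adj y u)).card ≤ Λ with hT
  have hmiss : ∀ j ∈ I, ∀ x ∈ grp Y h j, ∀ y ∈ grp Y h j, x ≠ y → ¬ G.Adj x y →
      ∃ i, T j s(x, y) i := by
    intro j hjI x hx y hy hxy hna
    obtain ⟨hx1, hx2⟩ := mem_filter.1 hx
    obtain ⟨hy1, hy2⟩ := mem_filter.1 hy
    obtain ⟨i, hi, hic⟩ := hP2 {x, y} (by
        intro v hv
        rw [mem_insert, mem_singleton] at hv
        rcases hv with rfl | rfl <;> assumption) (by
        intro u hu v hv huv hadj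
        simp only [Finset.coe_insert, Finset.coe_singleton, Set.mem_insert_iff,
          Set.mem_singleton_iff] at hu hv
        rcases hu with rfl | rfl <;> rcases hv with rfl | rfl
        · exact huv rfl
        · exact hna hadj
        · exact hna hadj.symm
        · exact huv rfl) (I.erase j) (Finset.erase_subset _ _) (by
        intro v hv
        rw [mem_insert, mem_singleton] at hv
        rcases hv with rfl | rfl
        · rw [hx2]; exact Finset.notMem_erase _ _
        · rw [hy2]; exact Finset.notMem_erase _ _) (by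
        rw [Finset.card_pair hxy, Finset.card_erase_of_mem hjI, hIc]
        omega)
    obtain ⟨hij, hiI⟩ := mem_erase.1 hi
    refine ⟨i, x, y, hx, hy, hxy, hna, rfl, hiI, hij, ?_⟩
    refine (Finset.card_le_card ?_).trans hic
    intro u hu
    obtain ⟨hu1, hu2, hu3⟩ := mem_filter.1 hu
    obtain ⟨hu4, hu5⟩ := mem_filter.1 hu1
    refine mem_filter.2 ⟨hu4, hu5, ?_⟩
    intro v hv
    rw [mem_insert, mem_singleton] at hv
    rcases hv with rfl | rfl
    · exact hu2
    · exact hu3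
  have hpairs : ∀ j ∈ Full, ∃ (P : Finset (Sym2 V)) (τ : Sym2 V → V), P.card = q + 1 ∧
      (∀ e ∈ P, T j e (τ e)) ∧
      (∀ i, (∀ e ∈ P, τ e = i) → ∀ e i', T j e i' → i' = i) := by
    intro j hj
    have hjI := hFullI hj
    obtain ⟨P0, hP0c, hP0⟩ := exists_pairs G
      (hcon (grp Y h j) (Finset.filter_subset _ _) (hFk j hj))
    have hP0T : ∀ e ∈ P0, ∃ i, T j e i := by
      intro e he
      obtain ⟨x, hx, y, hy, hxy, hna, hexy⟩ := hP0 e he
      rw [hexy]
      exact hmiss j hjI x hx y hy hxy hna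
    by_cases hA : ∃ e1 e2 i1 i2, e1 ≠ e2 ∧ i1 ≠ i2 ∧ T j e1 i1 ∧ T j e2 i2
    · obtain ⟨e1, e2, i1, i2, he, hi, hT1, hT2⟩ := hA
      refine ⟨{e1, e2}, fun e => if e = e1 then i1 else i2, ?_, ?_, ?_⟩
      · rw [Finset.card_pair he, hq]
      · intro e hmem
        rw [mem_insert, mem_singleton] at hmem
        rcases hmem with rfl | rfl
        · show T j e (if e = e then i1 else i2)
          rw [if_pos rfl]; exact hT1
        · show T j e (if e = e1 then i1 else i2)
          rw [if_neg (Ne.symm he)]; exact hT2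
      · intro i hi' e i' _
        have h1 : (if e1 = e1 then i1 else i2) = i := hi' e1 (mem_insert_self _ _)
        have h2 : (if e2 = e1 then i1 else i2) = i :=
          hi' e2 (mem_insert_of_mem (mem_singleton_self _))
        rw [if_pos rfl] at h1
        rw [if_neg (Ne.symm he)] at h2
        exact absurd (h1.trans h2.symm) hi
    · push Not at hA
      choose! τ hτ using hP0T
      refine ⟨P0, τ, hP0c, hτ, ?_⟩
      intro i hi e i' hT'
      -- a pair of `P0` different from `e`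
      have h2 : 1 < P0.card := by rw [hP0c, hq]; omega
      obtain ⟨e', he', hne⟩ := Finset.exists_mem_ne h2 e
      by_contra hcontra
      have h3 := hτ e' he'
      rw [hi e' he'] at h3
      exact hA e' e i i' hne (fun h4 => hcontra h4.symm) h3 hT'
  choose! P τ hPc hPT hPS using hpairs
  have hdom : ∀ j, ∀ e, j ∈ Full → e ∈ P j → ∃ x y : V, x ∈ grp Y h j ∧ y ∈ grp Y h j ∧
      e = s(x, y) ∧ τ j e ∈ I ∧ τ j e ≠ j ∧
      ((grp Y h (τ j e)).filter (fun u => ¬ G.Adj x u ∧ ¬ G.Adj y u)).card ≤ Λ := by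
    intro j e hj he
    obtain ⟨x, y, h1, h2, _, _, h3, h4, h5, h6⟩ := hPT j hj e he
    exact ⟨x, y, h1, h2, h3, h4, h5, h6⟩
  choose! ex ey hex hey hexy hτI hτj hτc using hdom
  -- data
  set H : V → V → Finset (Sym2 V) := fun i j => (P j).filter (fun e => τ j e = i) with hH
  set J : V → Finset V := fun i => Full.filter (fun j => (H i j).Nonempty) with hJ
  set W' : V → Finset V := fun j => (P j).biUnion (fun e => {ex j e, ey j e}) with hW'
  set W : V → V → Finset V := fun i j => (H i j).biUnion (fun e => {ex j e, ey j e}) with hW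
  have hHP : ∀ i j, H i j ⊆ P j := fun i j => Finset.filter_subset _ _
  have hWW' : ∀ i j, W i j ⊆ W' j := fun i j => Finset.biUnion_subset_biUnion_of_subset_left _
    (hHP i j)
  have hW'g : ∀ j ∈ Full, W' j ⊆ grp Y h j := by
    intro j hj v hv
    obtain ⟨e, he, hv⟩ := mem_biUnion.1 hv
    rw [mem_insert, mem_singleton] at hv
    rcases hv with rfl | rfl
    · exact hex j e hj he
    · exact hey j e hj he
  have hW'c : ∀ j ∈ Full, (W' j).card ≤ 2 * (q + 1) := by
    intro j hj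
    have h1 : (W' j).card ≤ (P j).card * 2 :=
      Finset.card_biUnion_le_card_mul _ _ _ fun _ _ => Finset.card_le_two
    rw [hPc j hj] at h1
    omega
  have hJF : ∀ i, J i ⊆ Full := fun i => Finset.filter_subset _ _
  have hiJ : ∀ i, i ∉ J i := by
    intro i hi
    obtain ⟨h1, e, he⟩ := mem_filter.1 hi
    obtain ⟨h2, h3⟩ := mem_filter.1 he
    exact hτj i e h1 h2 h3
  -- load bounds
  have hload : ∀ i ∈ I, ∀ j ∈ J i, _ := fun i hi j hj =>
    load_int2 G (k := k) (t := t) (q := q) (Λ := Λ) (Y := Y) (h := h) (i := i) (W := W i j)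
      (H := H i j) (mem_filter.1 hj).2
      ((Finset.card_le_card (hHP i j)).trans (hPc j (hJF i hj)).le)
      (by
        intro e he v hv
        rw [hexy j e (hJF i hj) (hHP i j he), Sym2.mem_iff] at hv
        refine mem_biUnion.2 ⟨e, he, ?_⟩
        rw [mem_insert, mem_singleton]
        exact hv)
      (by
        intro e he
        refine ⟨ex j e, ey j e, hexy j e (hJF i hj) (hHP i j he), ?_⟩
        have h1 := hτc j e (hJF i hj) (hHP i j he)
        rwa [(mem_filter.1 he).2] at h1)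
      (hle i hi) (hgt i hi)
  set L : V → V → ℤ := fun i j => ((∑ v ∈ W i j, dj G Y h v i : ℕ) : ℤ) with hL
  set ε0 : ℤ := 4 * ((q : ℤ) + 1) * (t + (q + 1) * Λ) with hε0
  -- star predicate and centres
  set st : V → V → Prop := fun i j => ∃ c ∈ W i j,
    (((H i j).card : ℤ) - 1) * ((k : ℤ) - ((2 * dj G Y h c i - k : ℕ) : ℤ)) ≤
      (2 * L i j - 2 * k) + ε0 ∧ ((2 * dj G Y h c i - k : ℕ) : ℤ) ≤ k with hst
  have hload' : ∀ i ∈ I, ∀ j ∈ J i, st i j ∨ 2 * (k : ℤ) ≤ (2 * L i j - 2 * k) + ε0 := hload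
  have hcent : ∀ i j, ∃ c, st i j → c ∈ W i j ∧
      (((H i j).card : ℤ) - 1) * ((k : ℤ) - ((2 * dj G Y h c i - k : ℕ) : ℤ)) ≤
      (2 * L i j - 2 * k) + ε0 ∧ ((2 * dj G Y h c i - k : ℕ) : ℤ) ≤ k := by
    intro i j
    by_cases h1 : st i j
    · obtain ⟨c, hc1, hc2⟩ := h1
      exact ⟨c, fun _ => ⟨hc1, hc2⟩⟩
    · exact ⟨i0, fun h2 => absurd h2 h1⟩
  choose cen hcen using hcent
  set x : V → V → ℤ := fun i j => ((H i j).card : ℤ) - 1 with hx
  set o : V → V → ℤ := fun i j => if st i j then ((2 * dj G Y h (cen i j) i - k : ℕ) : ℤ) else 0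
    with ho
  set E : V → V → ℤ := fun i j => 2 * L i j - 2 * k with hE
  set ε : ℤ := ((c1 * Λ + c2 : ℕ) : ℤ) with hε
  have hε0ε : ε0 ≤ ε := by
    rw [hε, hε0, hc1, hc2]
    push_cast
    have e1 : (0 : ℤ) ≤ 2 * ((a * w) * (a * w)) := by positivity
    have e4 : (0 : ℤ) ≤ (t : ℤ) := Int.natCast_nonneg _
    have e5 : (0 : ℤ) ≤ (a : ℤ) * t := by positivity
    have e6 : (0 : ℤ) ≤ (a : ℤ) * Λ := by positivity
    have e2 : (0 : ℤ) ≤ (Λ : ℤ) := Int.natCast_nonneg _
    have e3 : (0 : ℤ) ≤ (a : ℤ) := Int.natCast_nonneg _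
    nlinarith
  have hk0 : (0 : ℤ) ≤ k := Int.natCast_nonneg _
  have hx0 : ∀ i ∈ I, ∀ j ∈ J i, 0 ≤ x i j := by
    intro i _ j hj
    have h1 : 1 ≤ (H i j).card := Finset.card_pos.2 (mem_filter.1 hj).2
    have h2 : (1 : ℤ) ≤ (H i j).card := by exact_mod_cast h1
    simp only [hx]
    linarith
  have hxq : ∀ i ∈ I, ∀ j ∈ J i, x i j ≤ q := by
    intro i _ j hj
    have h1 := (Finset.card_le_card (hHP i j)).trans (hPc j (hJF i hj)).le
    have h2 : ((H i j).card : ℤ) ≤ q + 1 := by exact_mod_cast h1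
    simp only [hx]
    linarith
  have ho0 : ∀ i j, 0 ≤ o i j := by
    intro i j
    simp only [ho]
    split_ifs
    · exact Int.natCast_nonneg _
    · exact le_refl _
  have hok : ∀ i j, o i j ≤ k := by
    intro i j
    simp only [ho]
    split_ifs with h1
    · exact (hcen i j h1).2.2
    · exact hk0
  have hstar0 : ∀ i j, st i j → x i j * ((k : ℤ) - o i j) ≤ E i j + ε0 := by
    intro i j h1
    have h2 := (hcen i j h1).2.1
    have h3 : o i j = ((2 * dj G Y h (cen i j) i - k : ℕ) : ℤ) := by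
      simp only [ho]
      rw [if_pos h1]
    rw [h3]
    exact h2
  have hstar : ∀ i ∈ I, ∀ j ∈ J i, st i j → (k : ℤ) * x i j ≤ x i j * o i j + E i j + ε := by
    intro i _ j _ h1
    have h2 := hstar0 i j h1
    have h3 : x i j * ((k : ℤ) - o i j) = k * x i j - x i j * o i j := by ring
    linarith
  have hnst : ∀ i ∈ I, ∀ j ∈ J i, ¬ st i j → 2 * (k : ℤ) ≤ E i j + ε := by
    intro i hi j hj h1
    rcases hload' i hi j hj with h2 | h2
    · exact absurd h2 h1
    · linarith
  have hE0 : ∀ i ∈ I, ∀ j ∈ J i, 0 ≤ E i j + ε := by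
    intro i hi j hj
    by_cases h1 : st i j
    · have h2 := hstar0 i j h1
      have h3 : 0 ≤ x i j * ((k : ℤ) - o i j) :=
        mul_nonneg (hx0 i hi j hj) (by linarith [hok i j])
      linarith
    · have h2 := hnst i hi j hj h1
      linarith
  have hε00 : 0 ≤ ε := by rw [hε]; exact Int.natCast_nonneg _
  -- local bounds
  have hloc : ∀ i ∈ I, ∀ A B : Finset V, A ⊆ J i → B ⊆ J i → Disjoint A B →
      ∑ j ∈ A, o i j + ∑ j ∈ B, E i j ≤ k * ((k - (grp Y h i).card : ℕ) : ℤ) + ε := by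
    intro i hi A B hA hB hAB
    set A' := A.filter (fun j => st i j ∧ k ≤ 2 * dj G Y h (cen i j) i) with hA'
    have hAA : A' ⊆ A := Finset.filter_subset _ _
    have h1 : ∑ j ∈ A, o i j = ∑ j ∈ A', ((2 * dj G Y h (cen i j) i - k : ℕ) : ℤ) := by
      rw [hA', Finset.sum_filter (s := A)]
      refine Finset.sum_congr rfl fun j _ => ?_
      simp only [ho]
      by_cases h2 : st i j
      · by_cases h3 : k ≤ 2 * dj G Y h (cen i j) i
        · rw [if_pos h2, if_pos ⟨h2, h3⟩]
        · rw [if_pos h2, if_neg (fun h4 => h3 h4.2)]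
          have : 2 * dj G Y h (cen i j) i - k = 0 := by omega
          rw [this]
          rfl
      · rw [if_neg h2, if_neg (fun h4 => h2 h4.1)]
    have h2 := loc_bound G (k := k) (Λ := Λ) (Y := Y) (h := h) (i := i) hS A' B
      (Finset.disjoint_of_subset_left hAA hAB) (fun h3 => hiJ i (hA (hAA h3)))
      (fun h3 => hiJ i (hB h3)) (fun j hj => hFk j (hJF i (hB hj))) (hle i hi) (hge i hi) hP1'
      (fun j => cen i j)
      (fun j hj => hW'g j (hJF i (hA (hAA hj))) (hWW' i j (hcen i j (mem_filter.1 hj).2.1).1))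
      (fun j hj => (mem_filter.1 hj).2.2) (W i)
      (fun j hj => (hWW' i j).trans (hW'g j (hJF i (hB hj))))
    have h3 : A'.card ≤ a := by
      rw [← hIc]
      exact Finset.card_le_card (((hAA.trans hA).trans (hJF i)).trans hFullI)
    have h4 : ∑ j ∈ B, E i j = 2 * ((∑ j ∈ B, ∑ v ∈ W i j, dj G Y h v i : ℕ) : ℤ) -
        2 * k * B.card := by
      simp only [hE, hL]
      rw [Finset.sum_sub_distrib, ← Finset.mul_sum, Finset.sum_const, nsmul_eq_mul]
      push_cast
      ring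
    have h5 : ∑ j ∈ A', (2 * dj G Y h (cen i j) i - k) +
        2 * (∑ j ∈ B, ∑ v ∈ W i j, dj G Y h v i) ≤
        2 * k * B.card + k * (k - (grp Y h i).card) + (c1 * Λ + c2) := by
      have e1 : 2 * Λ ≤ c1 * Λ := Nat.mul_le_mul_right _ (by omega)
      have e2 : a ≤ c2 := by
        rw [hc2]
        omega
      omega
    have h6 : ∑ j ∈ A', ((2 * dj G Y h (cen i j) i - k : ℕ) : ℤ) +
        2 * ((∑ j ∈ B, ∑ v ∈ W i j, dj G Y h v i : ℕ) : ℤ) ≤
        2 * k * B.card + k * ((k - (grp Y h i).card : ℕ) : ℤ) + ε := by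
      rw [hε]
      exact_mod_cast h5
    rw [h1, h4]
    linarith
  -- budgets
  have hbud : ∀ S : Finset V, S ⊆ I → S.Nonempty →
      ∑ i ∈ S, ∑ j ∈ (J i).filter (fun j => j ∈ S), (2 * (k : ℤ) + E i j) ≤
      2 * k * ((S.card : ℤ) - 1) + k * ∑ i ∈ S, ((k - (grp Y h i).card : ℕ) : ℤ) + ε := by
    intro S hSI hSne
    have h1 := bud_bound G (k := k) (Λ := Λ) (a := a) (w := 2 * (q + 1)) (Y := Y)
      (I := I) (Full := Full.filter (fun j => j ∈ S)) (L := S) (h := h) hS hIc.le hSI hSne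
      (fun j hj => (mem_filter.1 hj).2) hle hge hP1' W'
      (fun j hj => hW'g j (mem_filter.1 hj).1) (fun j hj => hW'c j (mem_filter.1 hj).1)
    have h2 : ∑ i ∈ S, ∑ j ∈ (J i).filter (fun j => j ∈ S), (2 * (k : ℤ) + E i j) =
        2 * ((∑ i ∈ S, ∑ j ∈ (J i).filter (fun j => j ∈ S), ∑ v ∈ W i j, dj G Y h v i : ℕ) : ℤ)
        := by
      simp only [hE, hL]
      push_cast
      rw [Finset.mul_sum]
      refine Finset.sum_congr rfl fun i _ => ?_
      rw [Finset.mul_sum]
      refine Finset.sum_congr rfl fun j _ => ?_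
      ring
    have h3 : ∑ i ∈ S, ∑ j ∈ (J i).filter (fun j => j ∈ S), ∑ v ∈ W i j, dj G Y h v i ≤
        ∑ i ∈ S, ∑ j ∈ (Full.filter (fun j => j ∈ S)).filter (fun j => j ≠ i),
          ∑ v ∈ W' j, dj G Y h v i := by
      refine Finset.sum_le_sum fun i _ => ?_
      have h4 : (J i).filter (fun j => j ∈ S) ⊆
          (Full.filter (fun j => j ∈ S)).filter (fun j => j ≠ i) := by
        intro j hj
        obtain ⟨h5, h6⟩ := mem_filter.1 hj
        refine mem_filter.2 ⟨mem_filter.2 ⟨hJF i h5, h6⟩, ?_⟩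
        rintro rfl
        exact hiJ _ h5
      refine (Finset.sum_le_sum fun j _ => Finset.sum_le_sum_of_subset (hWW' i j)).trans ?_
      exact Finset.sum_le_sum_of_subset h4
    have h4 : 2 * (∑ i ∈ S, ∑ j ∈ (J i).filter (fun j => j ∈ S), ∑ v ∈ W i j, dj G Y h v i) +
        2 * k ≤ 2 * k * S.card + k * (∑ i ∈ S, (k - (grp Y h i).card)) + (c1 * Λ + c2) := by
      have e1 : 2 * Λ ≤ c1 * Λ := Nat.mul_le_mul_right _ (by omega)
      have e2 := hcw
      omega
    have h5 : 2 * ((∑ i ∈ S, ∑ j ∈ (J i).filter (fun j => j ∈ S),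
        ∑ v ∈ W i j, dj G Y h v i : ℕ) : ℤ) + 2 * k ≤
        2 * k * S.card + k * ((∑ i ∈ S, (k - (grp Y h i).card) : ℕ) : ℤ) + ε := by
      rw [hε]
      exact_mod_cast h4
    have h6 : ((∑ i ∈ S, (k - (grp Y h i).card) : ℕ) : ℤ) =
        ∑ i ∈ S, ((k - (grp Y h i).card : ℕ) : ℤ) := Nat.cast_sum _ _
    rw [h6] at h5
    rw [h2]
    linarith
  -- counting
  have hcnt : ∀ j ∈ I, ((k - (grp Y h j).card : ℕ) : ℤ) = 0 →
      ∑ i ∈ I.filter (fun i => j ∈ J i), (x i j + 1) = (q : ℤ) + 1 := by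
    intro j hj hj0
    have hjF : j ∈ Full := mem_filter.2 ⟨hj, hj0⟩
    have h1 : ∑ i ∈ I.filter (fun i => j ∈ J i), (x i j + 1) = ∑ i ∈ I, ((H i j).card : ℤ) := by
      simp only [hx, sub_add_cancel]
      rw [Finset.sum_filter]
      refine Finset.sum_congr rfl fun i _ => ?_
      split_ifs with h2
      · rfl
      · have h3 : ¬ (H i j).Nonempty := fun h4 => h2 (mem_filter.2 ⟨hjF, h4⟩)
        rw [Finset.not_nonempty_iff_eq_empty] at h3
        rw [h3]
        rfl
    rw [h1]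
    have h3 := Finset.card_eq_sum_card_fiberwise (s := P j) (t := I) (f := τ j)
      (fun e he => hτI j e hjF he)
    rw [hPc j hjF] at h3
    exact_mod_cast h3.symm
  have hdt : ∑ i ∈ I, ((k - (grp Y h i).card : ℕ) : ℤ) = t := by exact_mod_cast hdef
  refine ⟨ε, I, fun i => ((k - (grp Y h i).card : ℕ) : ℤ), J, x, o, E, st, ?_, hε00, ?_, ?_⟩
  · exact
      { cI := by exact_mod_cast hIc
        d0 := fun i _ => Int.natCast_nonneg _
        dt := hdt
        JI := by
          intro i _ j hj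
          refine ⟨hFullI (hJF i hj), (mem_filter.1 (hJF i hj)).2, ?_⟩
          rintro rfl
          exact hiJ _ hj
        x0 := hx0
        xq := hxq
        o0 := fun i _ j _ => ho0 i j
        ok := fun i _ j _ => hok i j
        E0 := hE0
        star := hstar
        nst := hnst
        loc := hloc
        bud := hbud
        cnt := hcnt }
  · have h1 : ((M1 * (c1 * Λ + c2) : ℕ) : ℤ) < k := by exact_mod_cast hεk
    have h2 : ((M1 * (c1 * Λ + c2) : ℕ) : ℤ) = (M : ℤ) * ε + ε := by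
      rw [hM1, hε]
      push_cast
      ring
    linarith
  -- the improved budget
  · intro S hSI hSc
    have hSc' : ∀ i ∈ S, ∃ (c d l : V) (X : Finset V), (i ∉ Full) ∧ c ∈ Full ∧ d ∈ Full ∧
        (∀ i', c ∈ J i' → i' = i) ∧ (∀ i', d ∈ J i' → i' = i) ∧ c ∈ J i ∧ d ∈ J i ∧
        X.card ≤ 4 ∧ X ⊆ Y ∧ (∀ v ∈ X, h v = i ∨ h v = c ∨ h v = d) ∧
        l ∈ I ∧ l ≠ i ∧ (∀ v ∈ X, h v ≠ l) ∧ k ≤ ∑ v ∈ X, dj G Y h v l + (t + Λ) := by
      intro i hi
      obtain ⟨hdi, c, hc, d, hd, hcd, hxc, hxd⟩ := hSc i hi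
      have hiI := hSI hi
      have hsing : ∀ j, j ∈ J i → 1 ≤ x i j → ∀ i', j ∈ J i' → i' = i := by
        intro j hj hxj i' hj'
        have hjF := hJF i hj
        have h1 : P j ⊆ H i j := by
          have h2 : (P j).card ≤ (H i j).card := by
            rw [hPc j hjF, hq]
            simp only [hx] at hxj
            have : (2 : ℤ) ≤ (H i j).card := by linarith
            exact_mod_cast this
          exact (Finset.eq_of_subset_of_card_le (hHP i j) h2).symm.subset
        obtain ⟨_, e, he⟩ := mem_filter.1 hj'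
        obtain ⟨he1, he2⟩ := mem_filter.1 he
        have h3 := (mem_filter.1 (h1 he1)).2
        rw [← he2, ← h3]
      have hdi0 : ((k - (grp Y h i).card : ℕ) : ℤ) = 1 := hdi
      have hdi' : k - (grp Y h i).card = 1 := by exact_mod_cast hdi0
      have hni : i ∉ Full := by
        intro h1
        have h2 := (mem_filter.1 h1).2
        rw [hdi'] at h2
        norm_num at h2
      have hgi : (grp Y h i).card + 1 = k := by omega
      obtain ⟨X, l, h1, h2, h3, h4, h5, h6, h7⟩ := conflict_extra G (k := k) (a := a) (t := t)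
        (Λ := Λ) (Y := Y) (I := I) (h := h) (by omega) hΛ8 hHk hIc hI hP1' hP2 hgt
        (i := i) (c := c) (d := d) hiI (hFullI (hJF i hc)) (hFullI (hJF i hd))
        (fun h8 => hni (h8 ▸ hJF i hc)) (fun h8 => hni (h8 ▸ hJF i hd)) hcd hgi
        (hFk c (hJF i hc)) (hFk d (hJF i hd))
      exact ⟨c, d, l, X, hni, hJF i hc, hJF i hd, hsing c hc hxc, hsing d hd hxd, hc, hd,
        h1, h2, h3, h4, h5, h6, h7⟩
    choose! cc dd ll X hni hccF hddF hcs hds hccJ hddJ hX4 hXY hXg hlI hli hXl hXk using hSc'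
    -- the enlarged sets
    set W1 : V → Finset V := fun j => (if j ∈ Full then W' j else ∅) ∪
      (S.biUnion X).filter (fun v => h v = j) with hW1
    have hW1g : ∀ j ∈ I, W1 j ⊆ grp Y h j := by
      intro j hj v hv
      rw [hW1] at hv
      rcases mem_union.1 hv with h1 | h1
      · by_cases h2 : j ∈ Full
        · rw [if_pos h2] at h1
          exact hW'g j h2 h1
        · rw [if_neg h2] at h1
          exact absurd h1 (Finset.notMem_empty _)
      · obtain ⟨h2, h3⟩ := mem_filter.1 h1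
        obtain ⟨i, hi, hv2⟩ := mem_biUnion.1 h2
        exact mem_filter.2 ⟨hXY i hi hv2, h3⟩
    have hSa : S.card ≤ a := by rw [← hIc]; exact Finset.card_le_card hSI
    have hW1c : ∀ j ∈ I, (W1 j).card ≤ w := by
      intro j hj
      have h1 : ((S.biUnion X).filter (fun v => h v = j)).card ≤ S.card * 4 :=
        (Finset.card_filter_le _ _).trans (Finset.card_biUnion_le_card_mul _ _ _ hX4)
      have h2 : (if j ∈ Full then W' j else ∅).card ≤ 2 * (q + 1) := by
        split_ifs with h3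
        · exact hW'c j h3
        · rw [Finset.card_empty]; omega
      have h3 := Finset.card_union_le (if j ∈ Full then W' j else ∅)
        ((S.biUnion X).filter (fun v => h v = j))
      have h4 : (W1 j).card ≤ (if j ∈ Full then W' j else ∅).card +
        ((S.biUnion X).filter (fun v => h v = j)).card := h3
      omega
    have h1 := bud_bound G (k := k) (Λ := Λ) (a := a) (w := w) (Y := Y)
      (I := I) (Full := I) (L := I) (h := h) hS hIc.le (Finset.Subset.refl _) ⟨i0, hi0⟩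
      (Finset.Subset.refl _) hle hge hP1' W1 hW1g hW1c
    rw [hIc, hdef] at h1
    -- sums over pairs
    set F : V × V → ℕ := fun p => ∑ v ∈ W1 p.2, dj G Y h v p.1 with hF
    set P0 : Finset (V × V) := (I ×ˢ I).filter (fun p => p.2 ≠ p.1) with hP0
    have hLHS : ∑ i ∈ I, ∑ j ∈ I.filter (fun j => j ≠ i), ∑ v ∈ W1 j, dj G Y h v i =
        ∑ p ∈ P0, F p := by
      rw [hP0, Finset.sum_filter, Finset.sum_product]
      refine Finset.sum_congr rfl fun i _ => ?_
      rw [Finset.sum_filter]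
    rw [hLHS] at h1
    set A1 : Finset (V × V) := (I ×ˢ I).filter (fun p => p.2 ∈ J p.1) with hA1
    set B2 : V → Finset (V × V) := fun i =>
      (({i, cc i, dd i} : Finset V).filter (fun g => g ≠ ll i)).image (fun g => (ll i, g)) with hB2
    set A2 : Finset (V × V) := S.biUnion B2 with hA2
    have hgrp : ∀ i ∈ S, ∀ g ∈ ({i, cc i, dd i} : Finset V), g ∈ I := by
      intro i hi g hg
      rw [mem_insert, mem_insert, mem_singleton] at hg
      rcases hg with rfl | rfl | rfl
      · exact hSI hi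
      · exact hFullI (hccF i hi)
      · exact hFullI (hddF i hi)
    have hown : ∀ i ∈ S, ∀ i' ∈ S, ∀ g, g ∈ ({i, cc i, dd i} : Finset V) →
        g ∈ ({i', cc i', dd i'} : Finset V) → i = i' := by
      intro i hi i' hi' g hg hg'
      rw [mem_insert, mem_insert, mem_singleton] at hg hg'
      rcases hg with rfl | rfl | rfl <;> rcases hg' with h2 | h2 | h2
      · exact h2
      · exact absurd (h2 ▸ hccF i' hi') (hni _ hi)
      · exact absurd (h2 ▸ hddF i' hi') (hni _ hi)
      · exact absurd (h2 ▸ hccF i hi) (hni _ hi')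
      · exact hcs i' hi' i (h2 ▸ hccJ i hi)
      · exact hds i' hi' i (h2 ▸ hccJ i hi)
      · exact absurd (h2 ▸ hddF i hi) (hni _ hi')
      · exact hcs i' hi' i (h2 ▸ hddJ i hi)
      · exact hds i' hi' i (h2 ▸ hddJ i hi)
    have hA12 : Disjoint A1 A2 := by
      rw [Finset.disjoint_left]
      intro p hp1 hp2
      obtain ⟨_, hp3⟩ := mem_filter.1 hp1
      obtain ⟨i, hi, hp4⟩ := mem_biUnion.1 hp2
      obtain ⟨g, hg, rfl⟩ := mem_image.1 hp4
      obtain ⟨hg1, hg2⟩ := mem_filter.1 hg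
      rw [mem_insert, mem_insert, mem_singleton] at hg1
      rcases hg1 with rfl | rfl | rfl
      · exact hni _ hi (hJF _ hp3)
      · exact hli i hi (hcs i hi _ hp3)
      · exact hli i hi (hds i hi _ hp3)
    have hA1P : A1 ⊆ P0 := by
      intro p hp
      obtain ⟨hp1, hp2⟩ := mem_filter.1 hp
      refine mem_filter.2 ⟨hp1, ?_⟩
      intro h2
      rw [h2] at hp2
      exact hiJ _ hp2
    have hA2P : A2 ⊆ P0 := by
      intro p hp
      obtain ⟨i, hi, hp4⟩ := mem_biUnion.1 hp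
      obtain ⟨g, hg, rfl⟩ := mem_image.1 hp4
      obtain ⟨hg1, hg2⟩ := mem_filter.1 hg
      exact mem_filter.2 ⟨mem_product.2 ⟨hlI i hi, hgrp i hi g hg1⟩, hg2⟩
    have h2 : ∑ p ∈ A1, F p + ∑ p ∈ A2, F p ≤ ∑ p ∈ P0, F p := by
      rw [← Finset.sum_union hA12]
      exact Finset.sum_le_sum_of_subset (Finset.union_subset hA1P hA2P)
    have h3 : ∑ i ∈ I, ∑ j ∈ J i, ∑ v ∈ W i j, dj G Y h v i ≤ ∑ p ∈ A1, F p := by
      rw [hA1, Finset.sum_filter, Finset.sum_product]
      refine Finset.sum_le_sum fun i _ => ?_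
      rw [← Finset.sum_filter]
      have h4 : I.filter (fun j => j ∈ J i) = J i := by
        ext j
        rw [mem_filter]
        exact ⟨fun h5 => h5.2, fun h5 => ⟨hFullI (hJF i h5), h5⟩⟩
      rw [h4]
      refine Finset.sum_le_sum fun j hj => ?_
      simp only [hF]
      refine Finset.sum_le_sum_of_subset ?_
      intro v hv
      rw [hW1]
      refine mem_union_left _ ?_
      rw [if_pos (hJF i hj)]
      exact hWW' i j hv
    have h4 : ∑ i ∈ S, k ≤ ∑ p ∈ A2, F p + S.card * (t + Λ) := by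
      rw [hA2, Finset.sum_biUnion]
      · rw [← smul_eq_mul, ← Finset.sum_const, ← Finset.sum_add_distrib]
        refine Finset.sum_le_sum fun i hi => ?_
        refine (hXk i hi).trans (Nat.add_le_add_right ?_ _)
        rw [hB2, Finset.sum_image (by
          intro g _ g' _ hgg
          exact (Prod.mk.inj hgg).2)]
        simp only [hF]
        have h5 : ∑ v ∈ X i, dj G Y h v (ll i) =
            ∑ g ∈ ({i, cc i, dd i} : Finset V).filter (fun g => g ≠ ll i),
              ∑ v ∈ (X i).filter (fun v => h v = g), dj G Y h v (ll i) := by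
          refine (Finset.sum_fiberwise_of_maps_to ?_ _).symm
          intro v hv
          refine mem_filter.2 ⟨?_, hXl i hi v hv⟩
          rw [mem_insert, mem_insert, mem_singleton]
          exact hXg i hi v hv
        rw [h5]
        refine Finset.sum_le_sum fun g hg => ?_
        refine Finset.sum_le_sum_of_subset ?_
        intro v hv
        obtain ⟨hv1, hv2⟩ := mem_filter.1 hv
        rw [hW1]
        exact mem_union_right _ (mem_filter.2 ⟨mem_biUnion.2 ⟨i, hi, hv1⟩, hv2⟩)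
      · intro i hi i' hi' hne
        rw [Function.onFun, Finset.disjoint_left]
        intro p hp hp'
        obtain ⟨g, hg, rfl⟩ := mem_image.1 hp
        obtain ⟨g', hg', hgg⟩ := mem_image.1 hp'
        have h5 : g' = g := (Prod.mk.inj hgg).2
        rw [h5] at hg'
        exact hne (hown i hi i' hi' g (mem_filter.1 hg).1 (mem_filter.1 hg').1)
    rw [Finset.sum_const, smul_eq_mul] at h4
    have h5 : S.card * (t + Λ) ≤ a * t + a * Λ :=
      (Nat.mul_le_mul_right (t + Λ) hSa).trans (Nat.mul_add a t Λ).le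
    have h6 : 2 * (∑ i ∈ I, ∑ j ∈ J i, ∑ v ∈ W i j, dj G Y h v i) + 2 * (S.card * k) + 2 * k ≤
        2 * k * a + k * t + (c1 * Λ + c2) := by
      have e1 : c1 * Λ = 4 * (q + 1) * (q + 1) * Λ + 2 * (a * Λ) + 8 * Λ := by
        rw [hc1]; ring
      have e3 : 0 ≤ 4 * (q + 1) * (q + 1) * Λ := Nat.zero_le _
      omega
    have h7 : ∑ i ∈ I, ∑ j ∈ J i, (2 * (k : ℤ) + E i j) =
        2 * ((∑ i ∈ I, ∑ j ∈ J i, ∑ v ∈ W i j, dj G Y h v i : ℕ) : ℤ) := by
      simp only [hE, hL]
      push_cast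
      rw [Finset.mul_sum]
      refine Finset.sum_congr rfl fun i _ => ?_
      rw [Finset.mul_sum]
      refine Finset.sum_congr rfl fun j _ => ?_
      ring
    have h8 : 2 * ((∑ i ∈ I, ∑ j ∈ J i, ∑ v ∈ W i j, dj G Y h v i : ℕ) : ℤ) +
        2 * (S.card * k) + 2 * k ≤ 2 * k * a + k * t + ε := by
      rw [hε]
      exact_mod_cast h6
    rw [h7]
    linarith

end Pool.Agent.TwoDens
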