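import Pool.Agent.TwoDens.HalfC

/-!
The sparsity condition used in the exact part of the upper half of the residues.
-/

open Finset

namespace Pool.Agent.TwoDens

/-- the sparsity condition equivalent to `m_2 < (k+1)/2 - 1/(k-2)` -/
def Hk {V : Type*} [DecidableEq V] (G : SimpleGraph V) [DecidableRel G.Adj] (k : ℕ)
    (X : Finset V) : Prop :=
  ∀ F ⊆ X, 3 ≤ F.card → ((k : ℤ) - 2) * (e2 G F : ℤ) + 2 * ((F.card : ℤ) - 2) <
    ((k : ℤ) - 2) * (2 + ((k : ℤ) + 1) * ((F.card : ℤ) - 2))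

end Pool.Agent.TwoDens
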