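import Pool.Agent.UHX.HD

/-!
# Campaign UHX (MP_303581_co): the case of one missing pair
-/

set_option autoImplicit false

open Finset

namespace Pool.Agent.UHX

/-- (L2) `q = 1` with an improved global budget: every set `S` of targets `i` with `d i = 1` having two groups `j` with `x i j ≥ 1` adds `2 k |S|` to the budget of `I`. Then `7 t ≤ 2 a + 1` is impossible. Uses LC. PROOF. Let `gain i = ∑ j ∈ J i, (2 k x i j - E i j)`, `ε' = ` a multiple of `ε`.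
Let `S` be the set of the `i ∈ I` with `d i = 1` and two different `j, j' ∈ J i` with `x ≥ 1`, `s = |S|`. `d i = 0`: `x = 0` (LC), `gain i ≤ a ε`. `d i = 1`, `i ∉ S`: at most one `j` has `x ≥ 1` (then `x = 1`, as `x ≤ q = 1`), the others have `x = 0`, `E ≥ - ε`: `gain i ≤ 2 k + a ε`. `i ∈ S`: exactly two `j` have `x = 1` (LC), `E j + E j' ≥ k - 3 ε`:
`gain i ≤ 4 k - (k - 3 ε) + a ε = 3 k + (a + 3) ε`. Any `d i ≥ 2`: star with `x = 1`: `k ≤ o + E + ε`, `2 k - E ≤ 2 o + E + 2 ε`; `x = 0`: `- E ≤ ε ≤ 2 o + E + 2 ε` (`o ≥ 0`, `E ≥ - ε`); not star: `2 k - E ≤ ε ≤ E + 2 ε`. Sum and `loc` with `A = {j : st i j}`, `B = ∅` and with `A = ∅`, `B = J i`: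
`gain i ≤ 2 (k d i + ε) + (k d i + ε) + 2 a ε = 3 k d i + ε'`. By `cnt` (swap the sums) `∑_i ∑_{j ∈ J i} (x i j + 1) = 2 F`, `F` the number of full groups (`d i = 0`), and the hypothesis: `∑_i ∑_{j ∈ J i} (2 k + E i j) ≤ 2 k (a - 1) + k t + ε - 2 k s`. So `4 k F - 2 k (a - 1) - k t - ε + 2 k s ≤ ∑ gain ≤ k (2 n1 + s + 3 (t - n1)) + ε'`,
`n1` the number of `i` with `d i = 1`, `n2` the number with `d i ≥ 2`, `F = a - n1 - n2`, `2 n2 ≤ t - n1`, `n1 ≤ t`. The difference in units of `k`: `4 (a - n1 - n2) - 2 a + 2 - t + 2 s - 2 n1 - s - 3 (t - n1) ≥ 2 a + 2 - t - 6 n1 - 5 (t - n1) + s ≥ 2 a + 2 - 7 t ≥ 1`. -/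
def St_L2 : Prop := ∀ a t : ℕ, 1 ≤ a → 7 * t ≤ 2 * a + 1 → ∃ M : ℕ,
  ∀ (ι : Type) [DecidableEq ι] (k ε : ℤ) (I : Finset ι) (d : ι → ℤ) (J : ι → Finset ι)
    (x o E : ι → ι → ℤ) (st : ι → ι → Prop),
    HD (a : ℤ) (t : ℤ) (1 : ℤ) k ε I d J x o E st → 0 ≤ ε → (M : ℤ) * ε < k →
    (∀ S : Finset ι, S ⊆ I → (∀ i ∈ S, d i = 1 ∧ ∃ j ∈ J i, ∃ j' ∈ J i, j ≠ j' ∧ 1 ≤ x i j ∧ 1 ≤ x i j') →
      ∑ i ∈ I, ∑ j ∈ J i, (2 * k + E i j) + 2 * k * S.card ≤ 2 * k * ((a : ℤ) - 1) + k * t + ε) → False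

end Pool.Agent.UHX
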