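import Pool.Agent.UHX.HD

/-! Module L1 of the campaign UHX. -/

set_option autoImplicit false

open Finset

namespace Pool.Agent.UHX

theorem l1_zero {ι : Type} [DecidableEq ι] {a t q k ε : ℤ} {I : Finset ι} {d : ι → ℤ}
    {J : ι → Finset ι} {x o E : ι → ι → ℤ} {st : ι → ι → Prop}
    (h : HD a t q k ε I d J x o E st) (hε : 0 ≤ ε) {i : ι} (hi : i ∈ I) (S : Finset ι)
    (hS : S ⊆ J i) (hx : ∀ j ∈ S, x i j = 0) :
    ∑ j ∈ S, (2 * k * x i j - E i j) ≤ a * ε := by
  have h1 : ∑ j ∈ S, (2 * k * x i j - E i j) ≤ ∑ _j ∈ S, ε := by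
    apply sum_le_sum
    intro j hj
    have h2 := h.E0 i hi j (hS hj)
    rw [hx j hj]; linarith
  have h3 : (S.card : ℤ) ≤ a := by
    rw [← h.cI]
    have : S.card ≤ I.card := card_le_card (fun j hj => (h.JI i hi j (hS hj)).1)
    exact_mod_cast this
  rw [sum_const, nsmul_eq_mul] at h1
  nlinarith

theorem l1_any {ι : Type} [DecidableEq ι] {a t q k ε : ℤ} {I : Finset ι} {d : ι → ℤ}
    {J : ι → Finset ι} {x o E : ι → ι → ℤ} {st : ι → ι → Prop}
    (h : HD a t q k ε I d J x o E st) (hε : 0 ≤ ε) (hk : 0 < k) (hq : 1 ≤ q) {i : ι} (hi : i ∈ I) :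
    ∑ j ∈ J i, (2 * k * x i j - E i j) ≤ 3 * q * k * d i + (3 * q + (q + 1) * a) * ε := by
  classical
  have hc : ((J i).card : ℤ) ≤ a := by
    rw [← h.cI]
    have : (J i).card ≤ I.card := card_le_card (fun j hj => (h.JI i hi j hj).1)
    exact_mod_cast this
  have h1 : ∑ j ∈ J i, (2 * k * x i j - E i j) ≤
      ∑ j ∈ J i, ((if st i j then 2 * q * o i j else 0) + q * (E i j + ε) + ε) := by
    apply sum_le_sum
    intro j hj
    have e0 := h.E0 i hi j hj
    have x0 := h.x0 i hi j hj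
    have xq := h.xq i hi j hj
    have o0 := h.o0 i hi j hj
    by_cases hs : st i j
    · rw [if_pos hs]
      have h2 := h.star i hi j hj hs
      have h3 : x i j * o i j ≤ q * o i j := mul_le_mul_of_nonneg_right xq o0
      have h4 : E i j + ε ≤ q * (E i j + ε) := by nlinarith
      linarith
    · rw [if_neg hs]
      have h2 := h.nst i hi j hj hs
      have h3 : 2 * k * x i j ≤ 2 * k * q := mul_le_mul_of_nonneg_left xq (by linarith)
      have h4 : q * (2 * k) ≤ q * (E i j + ε) := mul_le_mul_of_nonneg_left h2 (by linarith)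
      linarith
  have h2 : ∑ j ∈ J i, ((if st i j then 2 * q * o i j else 0) + q * (E i j + ε) + ε) =
      2 * q * (∑ j ∈ (J i).filter (fun j => st i j), o i j) + q * (∑ j ∈ J i, E i j) +
        (q + 1) * ((J i).card * ε) := by
    have e1 : ∑ j ∈ J i, q * (E i j + ε) = q * (∑ j ∈ J i, E i j) + q * ((J i).card * ε) := by
      rw [← mul_sum, sum_add_distrib, sum_const, nsmul_eq_mul, mul_add]
    have e2 : ∑ _j ∈ J i, ε = (J i).card * ε := by rw [sum_const, nsmul_eq_mul]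
    have e3 : ∑ j ∈ (J i).filter (fun j => st i j), 2 * q * o i j =
        2 * q * ∑ j ∈ (J i).filter (fun j => st i j), o i j := by rw [mul_sum]
    rw [sum_add_distrib, sum_add_distrib, e1, e2, ← sum_filter, e3]
    ring
  have h3 := h.loc i hi ((J i).filter (fun j => st i j)) ∅ (filter_subset _ _) (empty_subset _)
    (disjoint_empty_right _)
  have h4 := h.loc i hi ∅ (J i) (empty_subset _) (Subset.refl _) (disjoint_empty_left _)
  rw [sum_empty, add_zero] at h3
  rw [sum_empty, zero_add] at h4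
  have h5 : ((J i).card : ℤ) * ε ≤ a * ε := mul_le_mul_of_nonneg_right hc hε
  have h6 := mul_le_mul_of_nonneg_left h3 (show (0 : ℤ) ≤ 2 * q by linarith)
  have h7 := mul_le_mul_of_nonneg_left h4 (show (0 : ℤ) ≤ q by linarith)
  have h8 := mul_le_mul_of_nonneg_left h5 (show (0 : ℤ) ≤ q + 1 by linarith)
  rw [h2] at h1
  linarith

theorem l1_one {ι : Type} [DecidableEq ι] {a t q k ε : ℤ} {I : Finset ι} {d : ι → ℤ}
    {J : ι → Finset ι} {x o E : ι → ι → ℤ} {st : ι → ι → Prop}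
    (h : HD a t q k ε I d J x o E st) (hε : 0 ≤ ε) (hk : 0 < k) (hq : 2 ≤ q) {i : ι} (hi : i ∈ I)
    (h2 : ∀ j ∈ J i, ∀ j' ∈ J i, j ≠ j' → 1 ≤ x i j → 1 ≤ x i j' →
      x i j = 1 ∧ x i j' = 1 ∧ k - 3 * ε ≤ E i j + E i j')
    (h3 : ∀ j ∈ J i, ∀ j' ∈ J i, ∀ j'' ∈ J i, j ≠ j' → j ≠ j'' → j' ≠ j'' → 1 ≤ x i j →
      1 ≤ x i j' → 1 ≤ x i j'' → False) :
    ∑ j ∈ J i, (2 * k * x i j - E i j) ≤ 2 * q * k + (a + 3) * ε := by
  have hqk : 0 ≤ 2 * q * k := by positivity
  by_cases hP : ∃ j ∈ J i, 1 ≤ x i j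
  · obtain ⟨j, hj, hxj⟩ := hP
    rw [← add_sum_erase _ _ hj]
    by_cases hP' : ∃ j' ∈ (J i).erase j, 1 ≤ x i j'
    · obtain ⟨j', hj', hxj'⟩ := hP'
      obtain ⟨hne, hj'J⟩ := mem_erase.mp hj'
      rw [← add_sum_erase _ _ hj']
      obtain ⟨e1, e2, e3⟩ := h2 j hj j' hj'J hne.symm hxj hxj'
      have h4 := l1_zero h hε hi (((J i).erase j).erase j')
        ((erase_subset _ _).trans (erase_subset _ _)) (by
          intro j'' hj''
          obtain ⟨n1, h5⟩ := mem_erase.mp hj''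
          obtain ⟨n2, h6⟩ := mem_erase.mp h5
          by_contra hx
          have h7 := h.x0 i hi j'' h6
          exact h3 j hj j' hj'J j'' h6 hne.symm n2.symm n1.symm hxj hxj' (by omega))
      rw [e1, e2]
      have h8 : 2 * 2 * k ≤ 2 * q * k := mul_le_mul_of_nonneg_right (by linarith) hk.le
      linarith
    · push Not at hP'
      have h4 := l1_zero h hε hi ((J i).erase j) (erase_subset _ _) (by
        intro j'' hj''
        have h5 := hP' j'' hj''
        have h6 := h.x0 i hi j'' (mem_of_mem_erase hj'')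
        omega)
      have h5 := h.xq i hi j hj
      have h6 := h.E0 i hi j hj
      have h7 : 2 * k * x i j ≤ 2 * k * q := mul_le_mul_of_nonneg_left h5 (by linarith)
      linarith
  · push Not at hP
    have h4 := l1_zero h hε hi (J i) (Subset.refl _) (by
      intro j'' hj''
      have h5 := hP j'' hj''
      have h6 := h.x0 i hi j'' hj''
      omega)
    linarith

theorem l1_sum {ι : Type} [DecidableEq ι] {a t q k ε : ℤ} {I : Finset ι} {d : ι → ℤ}
    {J : ι → Finset ι} {x o E : ι → ι → ℤ} {st : ι → ι → Prop}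
    (h : HD a t q k ε I d J x o E st) :
    ∑ i ∈ I, ∑ j ∈ J i, (x i j + 1) = ∑ i ∈ I, (if d i = 0 then q + 1 else 0) := by
  have h1 : ∀ i ∈ I, ∑ j ∈ J i, (x i j + 1) =
      ∑ j ∈ I, (if j ∈ J i then (x i j + 1) else 0) := by
    intro i hi
    rw [← sum_filter]
    apply sum_congr _ (fun _ _ => rfl)
    ext j
    rw [mem_filter]
    exact ⟨fun hj => ⟨(h.JI i hi j hj).1, hj⟩, fun hj => hj.2⟩
  rw [sum_congr rfl h1, sum_comm]
  apply sum_congr rfl
  intro j hj
  rw [← sum_filter]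
  by_cases hd : d j = 0
  · rw [if_pos hd]; exact h.cnt j hj hd
  · rw [if_neg hd]
    apply sum_eq_zero
    intro i hi
    rw [mem_filter] at hi
    exact absurd (h.JI i hi.1 j hi.2).2.1 hd

theorem thm_L1 (hLC : St_LC) : St_L1 := by
  intro a t q ha hq hc
  refine ⟨a * (3 * q + (q + 1) * a + 3) + 1 + (q + 20), ?_⟩
  intro ι _ k ε I d J x o E st h hε hM
  push_cast at hM
  have hcz : (4 * (q : ℤ) + 3) * t ≤ 2 * q * a + 1 := by exact_mod_cast hc
  have haz : (1 : ℤ) ≤ a := by exact_mod_cast ha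
  have hqz : (2 : ℤ) ≤ q := by exact_mod_cast hq
  have hA : 0 ≤ (a : ℤ) * (3 * q + (q + 1) * a + 3) := by positivity
  have hAε : 0 ≤ (a : ℤ) * (3 * q + (q + 1) * a + 3) * ε := mul_nonneg hA hε
  have hqε : 0 ≤ ((q : ℤ) + 20) * ε := mul_nonneg (by linarith) hε
  have hk : 0 < k := by nlinarith
  have hLCi := hLC ι a t q k ε I d J x o E st h hε (by linarith) (by nlinarith)
  have hgain : ∀ i ∈ I, ∑ j ∈ J i, (2 * k * x i j - E i j) ≤
      2 * k * (if d i = 0 then (q : ℤ) + 1 else 0) - 2 * k * (q + 1) + (4 * q + 2) * k * d i +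
        (3 * q + (q + 1) * a + 3) * ε := by
    intro i hi
    obtain ⟨l0, l1⟩ := hLCi i hi
    have hd0 := h.d0 i hi
    have hqa : 0 ≤ ((q : ℤ) + 1) * a * ε := by positivity
    have hqa' : (a : ℤ) * ε ≤ ((q : ℤ) + 1) * a * ε := by
      have : 0 ≤ (a : ℤ) * ε := by positivity
      nlinarith
    have hq3 : 0 ≤ (q : ℤ) * ε := by positivity
    rcases lt_trichotomy (d i) 1 with hlt | heq | hgt
    · have hdz : d i = 0 := by omega
      have h1 := l1_zero h hε hi (J i) (Subset.refl _) (l0 hdz)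
      rw [if_pos hdz, hdz]
      linarith
    · have h1 := l1_one h hε hk hqz hi (l1 heq).2.1 (l1 heq).2.2
      rw [if_neg (by omega), heq]
      linarith
    · have h1 := l1_any h hε hk (by linarith) hi
      rw [if_neg (by omega)]
      have h2 : 2 * ((q : ℤ) + 1) ≤ (q + 2) * d i := by nlinarith
      have h3 := mul_le_mul_of_nonneg_left h2 hk.le
      linarith
  have hS := sum_le_sum hgain
  have hbud := h.bud I (Subset.refl _) (by
    rw [← card_pos]
    have := h.cI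
    omega)
  have hfil : ∀ i ∈ I, (J i).filter (fun j => j ∈ I) = J i := by
    intro i hi
    apply filter_true_of_mem
    intro j hj
    exact (h.JI i hi j hj).1
  have hbud' : ∑ i ∈ I, ∑ j ∈ J i, (2 * k + E i j) ≤ 2 * k * ((a : ℤ) - 1) + k * t + ε := by
    rw [← h.dt, ← h.cI]
    refine le_trans (le_of_eq ?_) hbud
    apply sum_congr rfl
    intro i hi
    rw [hfil i hi]
  have hL : ∑ i ∈ I, ∑ j ∈ J i, (2 * k * x i j - E i j) =
      2 * k * (∑ i ∈ I, ∑ j ∈ J i, (x i j + 1)) - ∑ i ∈ I, ∑ j ∈ J i, (2 * k + E i j) := by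
    rw [mul_sum, ← sum_sub_distrib]
    apply sum_congr rfl
    intro i _
    rw [mul_sum, ← sum_sub_distrib]
    apply sum_congr rfl
    intro j _
    ring
  have hR : ∑ i ∈ I, (2 * k * (if d i = 0 then (q : ℤ) + 1 else 0) - 2 * k * (q + 1) +
      (4 * q + 2) * k * d i + (3 * q + (q + 1) * a + 3) * ε) =
      2 * k * (∑ i ∈ I, (if d i = 0 then (q : ℤ) + 1 else 0)) - a * (2 * k * (q + 1)) +
        (4 * q + 2) * k * t + a * ((3 * q + (q + 1) * a + 3) * ε) := by
    have e1 : ∑ i ∈ I, (4 * (q : ℤ) + 2) * k * d i = (4 * q + 2) * k * t := by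
      rw [← mul_sum, h.dt]
    have e2 : ∑ _i ∈ I, 2 * k * ((q : ℤ) + 1) = a * (2 * k * (q + 1)) := by
      rw [sum_const, nsmul_eq_mul, h.cI]
    have e3 : ∑ _i ∈ I, (3 * (q : ℤ) + (q + 1) * a + 3) * ε =
        a * ((3 * q + (q + 1) * a + 3) * ε) := by
      rw [sum_const, nsmul_eq_mul, h.cI]
    rw [sum_add_distrib, sum_add_distrib, sum_sub_distrib, e1, e2, e3, mul_sum]
  rw [hR, hL, l1_sum h] at hS
  have hfin : k * (2 * (q : ℤ) * a + 2 - (4 * q + 3) * t) ≤
      (a * (3 * (q : ℤ) + (q + 1) * a + 3) + 1) * ε := by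
    linarith
  have h1 : k * 1 ≤ k * (2 * (q : ℤ) * a + 2 - (4 * q + 3) * t) :=
    mul_le_mul_of_nonneg_left (by linarith) hk.le
  nlinarith

end Pool.Agent.UHX
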