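import Pool.Agent.UHX.HD2
import Pool.Agent.UHX.L1

/-! Module L2 of the campaign UHX. -/

set_option autoImplicit false

open Finset

namespace Pool.Agent.UHX

theorem l2_two {ι : Type} [DecidableEq ι] {a t q k ε : ℤ} {I : Finset ι} {d : ι → ℤ}
    {J : ι → Finset ι} {x o E : ι → ι → ℤ} {st : ι → ι → Prop}
    (h : HD a t q k ε I d J x o E st) (hε : 0 ≤ ε) {i : ι} (hi : i ∈ I)
    (h2 : ∀ j ∈ J i, ∀ j' ∈ J i, j ≠ j' → 1 ≤ x i j → 1 ≤ x i j' →
      x i j = 1 ∧ x i j' = 1 ∧ k - 3 * ε ≤ E i j + E i j')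
    (h3 : ∀ j ∈ J i, ∀ j' ∈ J i, ∀ j'' ∈ J i, j ≠ j' → j ≠ j'' → j' ≠ j'' → 1 ≤ x i j →
      1 ≤ x i j' → 1 ≤ x i j'' → False)
    (hS : ∃ j ∈ J i, ∃ j' ∈ J i, j ≠ j' ∧ 1 ≤ x i j ∧ 1 ≤ x i j') :
    ∑ j ∈ J i, (2 * k * x i j - E i j) ≤ 3 * k + (a + 3) * ε := by
  obtain ⟨j, hj, j', hj'J, hne, hxj, hxj'⟩ := hS
  have hj' : j' ∈ (J i).erase j := mem_erase.mpr ⟨hne.symm, hj'J⟩
  rw [← add_sum_erase _ _ hj, ← add_sum_erase _ _ hj']
  obtain ⟨e1, e2, e3⟩ := h2 j hj j' hj'J hne hxj hxj'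
  have h4 := l1_zero h hε hi (((J i).erase j).erase j')
    ((erase_subset _ _).trans (erase_subset _ _)) (by
      intro j'' hj''
      obtain ⟨n1, h5⟩ := mem_erase.mp hj''
      obtain ⟨n2, h6⟩ := mem_erase.mp h5
      by_contra hx
      have h7 := h.x0 i hi j'' h6
      exact h3 j hj j' hj'J j'' h6 hne n2.symm n1.symm hxj hxj' (by omega))
  rw [e1, e2]
  linarith

theorem l2_one {ι : Type} [DecidableEq ι] {a t k ε : ℤ} {I : Finset ι} {d : ι → ℤ}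
    {J : ι → Finset ι} {x o E : ι → ι → ℤ} {st : ι → ι → Prop}
    (h : HD a t 1 k ε I d J x o E st) (hε : 0 ≤ ε) (hk : 0 < k) {i : ι} (hi : i ∈ I)
    (hS : ¬ ∃ j ∈ J i, ∃ j' ∈ J i, j ≠ j' ∧ 1 ≤ x i j ∧ 1 ≤ x i j') :
    ∑ j ∈ J i, (2 * k * x i j - E i j) ≤ 2 * k + a * ε + ε := by
  by_cases hP : ∃ j ∈ J i, 1 ≤ x i j
  · obtain ⟨j, hj, hxj⟩ := hP
    rw [← add_sum_erase _ _ hj]
    have h4 := l1_zero h hε hi ((J i).erase j) (erase_subset _ _) (by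
      intro j'' hj''
      obtain ⟨n1, h6⟩ := mem_erase.mp hj''
      by_contra hx
      have h7 := h.x0 i hi j'' h6
      exact hS ⟨j, hj, j'', h6, n1.symm, hxj, by omega⟩)
    have h5 := h.xq i hi j hj
    have h6 := h.E0 i hi j hj
    have h7 : 2 * k * x i j ≤ 2 * k * 1 := mul_le_mul_of_nonneg_left h5 (by linarith)
    linarith
  · push Not at hP
    have h4 := l1_zero h hε hi (J i) (Subset.refl _) (by
      intro j'' hj''
      have h5 := hP j'' hj''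
      have h6 := h.x0 i hi j'' hj''
      omega)
    linarith

theorem thm_L2 (hLC : St_LC) : St_L2 := by
  classical
  intro a t ha hc
  refine ⟨a * (3 + 2 * a + 4) + 1 + 21, ?_⟩
  intro ι _ k ε I d J x o E st h hε hM hbS
  push_cast at hM
  have hcz : 7 * (t : ℤ) ≤ 2 * a + 1 := by exact_mod_cast hc
  have haz : (1 : ℤ) ≤ a := by exact_mod_cast ha
  have hA : 0 ≤ (a : ℤ) * (3 + 2 * a + 4) := by positivity
  have hAε : 0 ≤ (a : ℤ) * (3 + 2 * a + 4) * ε := mul_nonneg hA hε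
  have haε : 0 ≤ (a : ℤ) * ε := by positivity
  have hk : 0 < k := by nlinarith
  have hLCi := hLC ι a t 1 k ε I d J x o E st h hε (by norm_num) (by nlinarith)
  let S : Finset ι := I.filter (fun i => d i = 1 ∧
    ∃ j ∈ J i, ∃ j' ∈ J i, j ≠ j' ∧ 1 ≤ x i j ∧ 1 ≤ x i j')
  have hS := hbS S (filter_subset _ _) (fun i hi => (mem_filter.mp hi).2)
  have hgain : ∀ i ∈ I, ∑ j ∈ J i, (2 * k * x i j - E i j) ≤
      2 * k * (if d i = 0 then (1 : ℤ) + 1 else 0) - 2 * k * 2 + 6 * k * d i +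
        (3 + 2 * a + 4) * ε + 2 * k * (if i ∈ S then 1 else 0) := by
    intro i hi
    obtain ⟨l0, l1⟩ := hLCi i hi
    have hd0 := h.d0 i hi
    have hite : (0 : ℤ) ≤ 2 * k * (if i ∈ S then 1 else 0) := by
      split_ifs <;> linarith
    rcases lt_trichotomy (d i) 1 with hlt | heq | hgt
    · have hdz : d i = 0 := by omega
      have h1 := l1_zero h hε hi (J i) (Subset.refl _) (l0 hdz)
      rw [if_pos hdz, hdz]
      linarith
    · by_cases hSi : ∃ j ∈ J i, ∃ j' ∈ J i, j ≠ j' ∧ 1 ≤ x i j ∧ 1 ≤ x i j'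
      · have h1 := l2_two h hε hi (l1 heq).2.1 (l1 heq).2.2 hSi
        have hiS : i ∈ S := mem_filter.mpr ⟨hi, heq, hSi⟩
        rw [if_neg (by omega), if_pos hiS, heq]
        linarith
      · have h1 := l2_one h hε hk hi hSi
        rw [if_neg (show ¬ d i = 0 by omega), heq]
        linarith
    · have h1 := l1_any h hε hk (by norm_num) hi
      rw [if_neg (show ¬ d i = 0 by omega)]
      have h3 : 4 * k ≤ 3 * k * d i := by nlinarith
      linarith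
  have hsum := sum_le_sum hgain
  have hcS : ∑ i ∈ I, (if i ∈ S then (1 : ℤ) else 0) = S.card := by
    rw [sum_boole, filter_mem_eq_inter, inter_eq_right.mpr (filter_subset _ _)]
  have hL : ∑ i ∈ I, ∑ j ∈ J i, (2 * k * x i j - E i j) =
      2 * k * (∑ i ∈ I, ∑ j ∈ J i, (x i j + 1)) - ∑ i ∈ I, ∑ j ∈ J i, (2 * k + E i j) := by
    rw [mul_sum, ← sum_sub_distrib]
    apply sum_congr rfl
    intro i _
    rw [mul_sum, ← sum_sub_distrib]
    apply sum_congr rfl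
    intro j _
    ring
  have hR : ∑ i ∈ I, (2 * k * (if d i = 0 then (1 : ℤ) + 1 else 0) - 2 * k * 2 + 6 * k * d i +
        (3 + 2 * a + 4) * ε + 2 * k * (if i ∈ S then 1 else 0)) =
      2 * k * (∑ i ∈ I, (if d i = 0 then (1 : ℤ) + 1 else 0)) - a * (2 * k * 2) +
        6 * k * t + a * ((3 + 2 * a + 4) * ε) + 2 * k * S.card := by
    have e1 : ∑ i ∈ I, 6 * k * d i = 6 * k * t := by rw [← mul_sum, h.dt]
    have e2 : ∑ _i ∈ I, 2 * k * 2 = a * (2 * k * 2) := by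
      rw [sum_const, nsmul_eq_mul, h.cI]
    have e3 : ∑ _i ∈ I, (3 + 2 * (a : ℤ) + 4) * ε = a * ((3 + 2 * a + 4) * ε) := by
      rw [sum_const, nsmul_eq_mul, h.cI]
    have e4 : ∑ i ∈ I, 2 * k * (if i ∈ S then (1 : ℤ) else 0) = 2 * k * S.card := by
      rw [← mul_sum, hcS]
    rw [sum_add_distrib, sum_add_distrib, sum_add_distrib, sum_sub_distrib, e1, e2, e3, e4,
      mul_sum]
  rw [hR, hL, l1_sum h] at hsum
  have hfin : k * (2 * (a : ℤ) + 2 - 7 * t) ≤ (a * (3 + 2 * (a : ℤ) + 4) + 1) * ε := by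
    linarith
  have h1 : k * 1 ≤ k * (2 * (a : ℤ) + 2 - 7 * t) :=
    mul_le_mul_of_nonneg_left (by linarith) hk.le
  nlinarith

end Pool.Agent.UHX
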