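import Pool.Agent.UHX.HD

/-!
# UHX, module L3: the case of at least three further marked pairs
-/

set_option autoImplicit false

open Finset

namespace Pool.Agent.UHX

private lemma L3_claim (hLC : St_LC) {ι : Type} [DecidableEq ι] {a t q k ε : ℤ} {I : Finset ι}
    {d : ι → ℤ} {J : ι → Finset ι} {x o E : ι → ι → ℤ} {st : ι → ι → Prop}
    (h : HD a t q k ε I d J x o E st) (hq : 3 ≤ q) (hε : 0 ≤ ε) (hk : 0 < k)
    (h1 : (q + 20) * ε < k) (h2 : q * (a + 3) * ε < k) (i : ι) (hi : i ∈ I) (hdi : 1 ≤ d i)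
    (y : ι → ℤ) (hy0 : ∀ j ∈ J i, 0 ≤ y j) (hyx : ∀ j ∈ J i, y j ≤ x i j)
    (hyq : ∀ j ∈ J i, y j ≤ q - 1) : ∑ j ∈ J i, y j ≤ (q - 1) * (2 * d i - 1) := by
  classical
  obtain ⟨-, hL1⟩ := hLC ι a t q k ε I d J x o E st h hε (by linarith) h1 i hi
  rcases eq_or_lt_of_le hdi with hd | hd
  · obtain ⟨-, h2x, h3x⟩ := hL1 hd.symm
    have hsum : ∑ j ∈ J i, y j = ∑ j ∈ (J i).filter (fun j => 1 ≤ x i j), y j := by
      symm
      apply Finset.sum_subset (filter_subset _ _)
      intro j hj hnj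
      have h3 : ¬ 1 ≤ x i j := fun h4 => hnj (mem_filter.2 ⟨hj, h4⟩)
      have h4 := hy0 j hj
      have h5 := hyx j hj
      omega
    rw [hsum, ← hd]
    have hP : ∀ j ∈ (J i).filter (fun j => 1 ≤ x i j), j ∈ J i ∧ 1 ≤ x i j :=
      fun j hj => mem_filter.1 hj
    generalize (J i).filter (fun j => 1 ≤ x i j) = P at hP
    rcases Nat.lt_or_ge 2 P.card with h3 | h3
    · exfalso
      obtain ⟨j, hj, j', hj', j'', hj'', e1, e2, e3⟩ := Finset.two_lt_card.1 h3
      exact h3x j (hP j hj).1 j' (hP j' hj').1 j'' (hP j'' hj'').1 e1 e2 e3 (hP j hj).2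
        (hP j' hj').2 (hP j'' hj'').2
    · have h4 : P.card = 0 ∨ P.card = 1 ∨ P.card = 2 := by omega
      rcases h4 with h4 | h4 | h4
      · rw [Finset.card_eq_zero.1 h4, Finset.sum_empty]
        linarith
      · obtain ⟨j, rfl⟩ := Finset.card_eq_one.1 h4
        rw [Finset.sum_singleton]
        have := hyq j (hP j (mem_singleton_self j)).1
        linarith
      · obtain ⟨j, j', hne, rfl⟩ := Finset.card_eq_two.1 h4
        rw [Finset.sum_pair hne]
        have hj := hP j (by simp)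
        have hj' := hP j' (by simp)
        obtain ⟨e1, e2, -⟩ := h2x j hj.1 j' hj'.1 hne hj.2 hj'.2
        have h5 := hyx j hj.1
        have h6 := hyx j' hj'.1
        linarith
  · have hA := h.loc i hi ((J i).filter (fun j => st i j)) ∅ (filter_subset _ _)
      (empty_subset _) (disjoint_empty_right _)
    have hB := h.loc i hi ∅ (J i) (empty_subset _) (Subset.refl _) (disjoint_empty_left _)
    rw [Finset.sum_empty, add_zero] at hA
    rw [Finset.sum_empty, zero_add] at hB
    rw [Finset.sum_filter] at hA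
    have hpt : ∀ j ∈ J i, 2 * k * y j ≤
        2 * (q - 1) * (if st i j then o i j else 0) + (q - 1) * (E i j + ε) := by
      intro j hj
      have hE := h.E0 i hi j hj
      have hy := hyq j hj
      by_cases hs : st i j
      · rw [if_pos hs]
        have h3 := h.star i hi j hj hs
        have h4 := h.o0 i hi j hj
        have h5 := h.ok i hi j hj
        have h6 : y j * (k - o i j) ≤ x i j * (k - o i j) :=
          mul_le_mul_of_nonneg_right (hyx j hj) (by linarith)
        have h7 : y j * o i j ≤ (q - 1) * o i j := mul_le_mul_of_nonneg_right hy h4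
        have h8 : 2 * (E i j + ε) ≤ (q - 1) * (E i j + ε) :=
          mul_le_mul_of_nonneg_right (by linarith) hE
        have e1 : y j * (k - o i j) = k * y j - y j * o i j := by ring
        have e2 : x i j * (k - o i j) = k * x i j - x i j * o i j := by ring
        rw [e1, e2] at h6
        have e3 : 2 * k * y j = 2 * (k * y j) := by ring
        have e4 : 2 * (q - 1) * o i j = 2 * ((q - 1) * o i j) := by ring
        rw [e3, e4]
        linarith
      · rw [if_neg hs]
        have h3 := h.nst i hi j hj hs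
        have h4 : k * y j ≤ k * (q - 1) := mul_le_mul_of_nonneg_left hy hk.le
        have h5 : (q - 1) * (2 * k) ≤ (q - 1) * (E i j + ε) :=
          mul_le_mul_of_nonneg_left h3 (by linarith)
        have e3 : 2 * k * y j = 2 * (k * y j) := by ring
        rw [e3]
        linarith
    have hsum := Finset.sum_le_sum hpt
    rw [← Finset.mul_sum, Finset.sum_add_distrib, ← Finset.mul_sum, ← Finset.mul_sum,
      Finset.sum_add_distrib, Finset.sum_const, nsmul_eq_mul] at hsum
    have hc : ((J i).card : ℤ) ≤ a := by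
      rw [← h.cI]
      exact_mod_cast Finset.card_le_card fun j hj => (h.JI i hi j hj).1
    have hc2 : ((J i).card : ℤ) * ε ≤ a * ε := mul_le_mul_of_nonneg_right hc hε
    generalize ∑ j ∈ J i, y j = Y at hsum ⊢
    generalize (∑ j ∈ J i, if st i j then o i j else 0) = O at hsum hA
    generalize ∑ j ∈ J i, E i j = EE at hsum hB
    have h3 : 2 * (q - 1) * O ≤ 2 * (q - 1) * (k * d i + ε) :=
      mul_le_mul_of_nonneg_left hA (by linarith)
    have h4 : (q - 1) * (EE + (J i).card * ε) ≤ (q - 1) * (k * d i + ε + a * ε) :=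
      mul_le_mul_of_nonneg_left (by linarith) (by linarith)
    have h5 : (q - 1) * ((a + 3) * ε) ≤ q * ((a + 3) * ε) := by
      have ha : 0 ≤ a := by
        rw [← h.cI]
        positivity
      exact mul_le_mul_of_nonneg_right (by linarith) (by positivity)
    have h6 : k * (2 * Y) < k * (3 * (q - 1) * d i + 1) := by
      have e1 : k * (2 * Y) = 2 * k * Y := by ring
      have e2 : 2 * (q - 1) * (k * d i + ε) + (q - 1) * (k * d i + ε + a * ε) =
          k * (3 * (q - 1) * d i) + (q - 1) * ((a + 3) * ε) := by ring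
      have e3 : q * ((a + 3) * ε) = q * (a + 3) * ε := by ring
      rw [e1, mul_add, mul_one]
      linarith
    have h7 : 2 * Y < 3 * (q - 1) * d i + 1 := lt_of_mul_lt_mul_left h6 hk.le
    have h8 : 0 ≤ (q - 1) * (d i - 2) := mul_nonneg (by linarith) (by linarith)
    have e4 : 2 * ((q - 1) * (2 * d i - 1)) = 3 * (q - 1) * d i + (q - 1) * (d i - 2) := by ring
    omega

/-- the final arithmetic -/
private lemma L3_fin (a t q SD C1 Q SM Sm m0 SK : ℤ) (ha : a = SD + (C1 + Q))
    (hm0 : 0 ≤ m0) (F1 : 2 * m0 + SK ≤ 2 * SD - 2) (F2 : Sm ≤ SK + t)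
    (F3 : m0 + Sm = (q + 1) * SD - SM) (F4 : (q - 1) * Q + SM ≤ (q - 1) * (2 * t - C1))
    (F5 : t ≤ (q - 1) * (a - 2 * t) + 1) : False := by
  subst ha
  nlinarith

theorem thm_L3 (hLC : St_LC) : St_L3 := by
  intro a t q hq3 hat htq
  refine ⟨(q + 20) + q * (a + 3) + (a * a + 1), ?_⟩
  intro ι _ k ε I d J x o E st h hε hM
  have hq : (3 : ℤ) ≤ q := by exact_mod_cast hq3
  push_cast at hM
  have b1 : 0 ≤ ((q : ℤ) + 20) * ε := by positivity
  have b2 : 0 ≤ (q : ℤ) * ((a : ℤ) + 3) * ε := by positivity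
  have b3 : 0 ≤ ((a : ℤ) * a + 1) * ε := by positivity
  have eM : (((q : ℤ) + 20) + q * (a + 3) + (a * a + 1)) * ε =
      (q + 20) * ε + q * (a + 3) * ε + (a * a + 1) * ε := by ring
  rw [eM] at hM
  have h1 : ((q : ℤ) + 20) * ε < k := by linarith
  have h2 : (q : ℤ) * ((a : ℤ) + 3) * ε < k := by linarith
  have h3 : ((a : ℤ) * a + 1) * ε < k := by linarith
  have hk : 0 < k := by linarith
  have hL := fun i hi => (hLC ι a t q k ε I d J x o E st h hε (by linarith) h1 i hi).1
  -- targets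
  obtain ⟨T, hT⟩ : ∃ T : ι → Finset ι, T = fun j => I.filter (fun i => j ∈ J i) := ⟨_, rfl⟩
  have memT : ∀ i j, i ∈ T j ↔ i ∈ I ∧ j ∈ J i := by
    intro i j
    rw [hT]
    exact mem_filter
  have cntT : ∀ j ∈ I, d j = 0 → ∑ i ∈ T j, (x i j + 1) = (q : ℤ) + 1 := by
    intro j hj hd
    rw [hT]
    exact h.cnt j hj hd
  obtain ⟨D, hD⟩ : ∃ D : Finset ι, D = I.filter (fun j => d j = 0 ∧ (T j).card ≠ 1) := ⟨_, rfl⟩
  have memD : ∀ j, j ∈ D ↔ j ∈ I ∧ d j = 0 ∧ (T j).card ≠ 1 := by
    intro j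
    rw [hD]
    exact mem_filter
  obtain ⟨I', hI'⟩ : ∃ I' : Finset ι, I' = I.filter (fun i => 1 ≤ d i) := ⟨_, rfl⟩
  have memI' : ∀ i, i ∈ I' ↔ i ∈ I ∧ 1 ≤ d i := by
    intro i
    rw [hI']
    exact mem_filter
  obtain ⟨C, hC⟩ : ∃ C : ι → Finset ι, C = fun i => (J i).filter (fun j => (T j).card = 1) :=
    ⟨_, rfl⟩
  have memC : ∀ i j, j ∈ C i ↔ j ∈ J i ∧ (T j).card = 1 := by
    intro i j
    rw [hC]
    exact mem_filter
  have Tone : ∀ i ∈ I, ∀ j ∈ C i, T j = {i} := by
    intro i hi j hj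
    obtain ⟨hj1, hj2⟩ := (memC i j).1 hj
    obtain ⟨i', hi'⟩ := Finset.card_eq_one.1 hj2
    have : i ∈ T j := (memT i j).2 ⟨hi, hj1⟩
    rw [hi', mem_singleton] at this
    rw [hi', this]
  have Cx : ∀ i ∈ I, ∀ j ∈ C i, x i j = q := by
    intro i hi j hj
    have hj1 := ((memC i j).1 hj).1
    obtain ⟨hjI, hdj, -⟩ := h.JI i hi j hj1
    have := cntT j hjI hdj
    rw [Tone i hi j hj, Finset.sum_singleton] at this
    linarith
  have Dx : ∀ i ∈ I, ∀ j ∈ J i, (T j).card ≠ 1 → x i j ≤ q - 1 := by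
    intro i hi j hj hne
    obtain ⟨hjI, hdj, -⟩ := h.JI i hi j hj
    have hiT : i ∈ T j := (memT i j).2 ⟨hi, hj⟩
    have hs := cntT j hjI hdj
    rw [← Finset.add_sum_erase _ _ hiT] at hs
    have hc : 1 ≤ ((T j).erase i).card := by
      have h4 := Finset.card_erase_of_mem hiT
      have h5 := Finset.card_pos.2 ⟨i, hiT⟩
      omega
    have h6 : ∑ i' ∈ (T j).erase i, (1 : ℤ) ≤ ∑ i' ∈ (T j).erase i, (x i' j + 1) := by
      apply Finset.sum_le_sum
      intro i' hi'
      obtain ⟨h7, h8⟩ := (memT i' j).1 (mem_of_mem_erase hi')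
      have := h.x0 i' h7 j h8
      linarith
    rw [Finset.sum_const, nsmul_eq_mul, mul_one] at h6
    have h7 : (1 : ℤ) ≤ (((T j).erase i).card : ℤ) := by exact_mod_cast hc
    linarith
  -- the claim
  have claim : ∀ i ∈ I', ((q : ℤ) - 1) * ((C i).card : ℤ) +
      ∑ j ∈ D.filter (fun j => j ∈ J i), x i j ≤ (q - 1) * (2 * d i - 1) := by
    intro i hi'
    obtain ⟨hi, hdi⟩ := (memI' i).1 hi'
    have h4 := L3_claim hLC h hq hε hk h1 h2 i hi hdi
      (fun j => if (T j).card = 1 then (q : ℤ) - 1 else x i j) (by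
        intro j hj
        have := h.x0 i hi j hj
        show 0 ≤ if (T j).card = 1 then (q : ℤ) - 1 else x i j
        split_ifs
        · linarith
        · exact this) (by
        intro j hj
        show (if (T j).card = 1 then (q : ℤ) - 1 else x i j) ≤ x i j
        split_ifs with h5
        · rw [Cx i hi j ((memC i j).2 ⟨hj, h5⟩)]
          linarith
        · exact le_rfl) (by
        intro j hj
        show (if (T j).card = 1 then (q : ℤ) - 1 else x i j) ≤ q - 1
        split_ifs with h5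
        · exact le_rfl
        · exact Dx i hi j hj h5)
    refine le_trans (le_of_eq ?_) h4
    rw [Finset.sum_ite, Finset.sum_const, nsmul_eq_mul, hC]
    have e1 : D.filter (fun j => j ∈ J i) = (J i).filter (fun j => ¬ (T j).card = 1) := by
      ext j
      rw [mem_filter, mem_filter, memD]
      constructor
      · rintro ⟨⟨-, -, h5⟩, h6⟩
        exact ⟨h6, h5⟩
      · rintro ⟨h5, h6⟩
        obtain ⟨h7, h8, -⟩ := h.JI i hi j h5
        exact ⟨⟨h7, h8, h6⟩, h5⟩
    rw [e1]
    ring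
  -- the clusters
  have CI : ∀ i ∈ I', ∀ g ∈ insert i (C i), g ∈ I := by
    intro i hi' g hg
    obtain ⟨hi, -⟩ := (memI' i).1 hi'
    rcases mem_insert.1 hg with rfl | hg
    · exact hi
    · exact (h.JI i hi g ((memC i g).1 hg).1).1
  have iC : ∀ i ∈ I', i ∉ C i := by
    intro i hi' hiC
    obtain ⟨hi, -⟩ := (memI' i).1 hi'
    exact (h.JI i hi i ((memC i i).1 hiC).1).2.2 rfl
  have dC : ∀ i ∈ I', ∀ j ∈ C i, d j = 0 := by
    intro i hi' j hj
    obtain ⟨hi, -⟩ := (memI' i).1 hi'
    exact (h.JI i hi j ((memC i j).1 hj).1).2.1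
  have disj1 : ∀ S : Finset ι, S ⊆ I' →
      (S : Set ι).PairwiseDisjoint (fun i => insert i (C i)) := by
    intro S hS i hi i' hi' hne
    have hi1 := hS (Finset.mem_coe.1 hi)
    have hi2 := hS (Finset.mem_coe.1 hi')
    show Disjoint (insert i (C i)) (insert i' (C i'))
    rw [Finset.disjoint_left]
    intro g hg hg'
    have hd1 := ((memI' i).1 hi1).2
    have hd2 := ((memI' i').1 hi2).2
    rcases mem_insert.1 hg with rfl | hg
    · rcases mem_insert.1 hg' with rfl | hg'
      · exact hne rfl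
      · have := dC i' hi2 g hg'
        omega
    · rcases mem_insert.1 hg' with rfl | hg'
      · have := dC i hi1 g hg
        omega
      · have e1 := Tone i ((memI' i).1 hi1).1 g hg
        have e2 := Tone i' ((memI' i').1 hi2).1 g hg'
        rw [e1, Finset.singleton_inj] at e2
        exact hne e2
  have disj2 : ∀ S : Finset ι, S ⊆ I' → Disjoint D (S.biUnion (fun i => insert i (C i))) := by
    intro S hS
    rw [Finset.disjoint_left]
    intro g hg hg'
    obtain ⟨-, h4, h5⟩ := (memD g).1 hg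
    obtain ⟨i, hi, hgi⟩ := Finset.mem_biUnion.1 hg'
    rcases mem_insert.1 hgi with rfl | hgi
    · have := ((memI' g).1 (hS hi)).2
      omega
    · exact h5 ((memC i g).1 hgi).2
  have part : ∀ (S : Finset ι) (f : ι → ℤ), S ⊆ I' →
      ∑ g ∈ D ∪ S.biUnion (fun i => insert i (C i)), f g =
        ∑ g ∈ D, f g + ∑ i ∈ S, (f i + ∑ g ∈ C i, f g) := by
    intro S f hS
    rw [Finset.sum_union (disj2 S hS), Finset.sum_biUnion (disj1 S hS)]
    congr 1
    refine Finset.sum_congr rfl fun i hi => ?_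
    rw [Finset.sum_insert (iC i (hS hi))]
  have hall : D ∪ I'.biUnion (fun i => insert i (C i)) = I := by
    ext g
    rw [mem_union, mem_biUnion]
    constructor
    · rintro (hg | ⟨i, hi, hg⟩)
      · exact ((memD g).1 hg).1
      · exact CI i hi g hg
    · intro hg
      rcases eq_or_lt_of_le (h.d0 g hg) with hd | hd
      · by_cases hc : (T g).card = 1
        · right
          obtain ⟨i, hi⟩ := Finset.card_eq_one.1 hc
          have h4 : i ∈ T g := by rw [hi]; exact mem_singleton_self i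
          obtain ⟨h5, h6⟩ := (memT i g).1 h4
          have h7 : g ∈ C i := (memC i g).2 ⟨h6, hc⟩
          have h8 := Cx i h5 g h7
          have h9 : d i ≠ 0 := by
            intro h9
            have := hL i h5 h9 g h6
            omega
          have h10 := h.d0 i h5
          exact ⟨i, (memI' i).2 ⟨h5, by omega⟩, mem_insert_of_mem h7⟩
        · left
          exact (memD g).2 ⟨hg, hd.symm, hc⟩
      · right
        exact ⟨g, (memI' g).2 ⟨hg, by omega⟩, mem_insert_self _ _⟩
  -- sizes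
  have sz : (a : ℤ) = (D.card : ℤ) + ((I'.card : ℤ) + ∑ i ∈ I', ((C i).card : ℤ)) := by
    have := part I' (fun _ => 1) (Subset.refl _)
    rw [hall] at this
    simp only [Finset.sum_const, nsmul_eq_mul, mul_one, Finset.sum_add_distrib] at this
    rw [← h.cI]
    exact this
  have st' : ∑ i ∈ I', d i = t := by
    have := part I' d (Subset.refl _)
    rw [hall, h.dt] at this
    rw [this]
    have e1 : ∑ g ∈ D, d g = 0 := Finset.sum_eq_zero fun g hg => ((memD g).1 hg).2.1
    rw [e1, zero_add]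
    refine Finset.sum_congr rfl fun i hi => ?_
    rw [Finset.sum_eq_zero (dC i hi), add_zero]
  have F4 : ((q : ℤ) - 1) * ∑ i ∈ I', ((C i).card : ℤ) +
      ∑ i ∈ I', ∑ j ∈ D.filter (fun j => j ∈ J i), x i j ≤ (q - 1) * (2 * t - I'.card) := by
    have := Finset.sum_le_sum claim
    rw [Finset.sum_add_distrib, ← Finset.mul_sum, ← Finset.mul_sum, Finset.sum_sub_distrib,
      ← Finset.mul_sum, st', Finset.sum_const, nsmul_eq_mul, mul_one] at this
    exact this
  have hSM0 : 0 ≤ ∑ i ∈ I', ∑ j ∈ D.filter (fun j => j ∈ J i), x i j := by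
    refine Finset.sum_nonneg fun i hi => Finset.sum_nonneg fun j hj => ?_
    exact h.x0 i ((memI' i).1 hi).1 j (mem_filter.1 hj).2
  have hDne : D.Nonempty := by
    rw [Finset.nonempty_iff_ne_empty]
    intro hD0
    rw [hD0, Finset.card_empty] at sz
    have h4 : ((q : ℤ) - 1) * (∑ i ∈ I', ((C i).card : ℤ)) ≤ (q - 1) * (2 * t - I'.card) := by
      linarith
    have h5 := le_of_mul_le_mul_left h4 (by linarith)
    have h6 : (2 : ℤ) * t < a := by exact_mod_cast hat
    push_cast at sz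
    linarith
  -- the pairs with an end in `D`
  obtain ⟨u, hu⟩ : ∃ u : ι → ℤ, u = fun g => ((D.filter (fun j => j ∈ J g)).card : ℤ) := ⟨_, rfl⟩
  have hu0 : ∀ g, 0 ≤ u g := by
    intro g
    rw [hu]
    positivity
  have F3a : ∑ j ∈ D, ((T j).card : ℤ) = ∑ g ∈ I, u g := by
    rw [hu, hT]
    simp only [Finset.card_filter, Nat.cast_sum, Nat.cast_ite, Nat.cast_one, Nat.cast_zero]
    exact Finset.sum_comm
  have F3b : ∑ j ∈ D, ((T j).card : ℤ) = ((q : ℤ) + 1) * D.card -
      ∑ i ∈ I', ∑ j ∈ D.filter (fun j => j ∈ J i), x i j := by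
    have e1 : ∀ j ∈ D, ((T j).card : ℤ) = ((q : ℤ) + 1) - ∑ i ∈ T j, x i j := by
      intro j hj
      obtain ⟨h4, h5, -⟩ := (memD j).1 hj
      have := cntT j h4 h5
      rw [Finset.sum_add_distrib, Finset.sum_const, nsmul_eq_mul, mul_one] at this
      linarith
    rw [Finset.sum_congr rfl e1, Finset.sum_sub_distrib, Finset.sum_const, nsmul_eq_mul]
    have e2 : ∑ j ∈ D, ∑ i ∈ T j, x i j = ∑ i ∈ I, ∑ j ∈ D.filter (fun j => j ∈ J i), x i j := by
      rw [hT]
      simp only [Finset.sum_filter]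
      exact Finset.sum_comm
    have e3 : ∑ i ∈ I, ∑ j ∈ D.filter (fun j => j ∈ J i), x i j =
        ∑ i ∈ I', ∑ j ∈ D.filter (fun j => j ∈ J i), x i j := by
      symm
      apply Finset.sum_subset
      · intro i hi
        exact ((memI' i).1 hi).1
      · intro i hi hni
        have hd : d i = 0 := by
          have h4 := h.d0 i hi
          have h5 : ¬ 1 ≤ d i := fun h5 => hni ((memI' i).2 ⟨hi, h5⟩)
          omega
        refine Finset.sum_eq_zero fun j hj => ?_
        exact hL i hi hd j (mem_filter.1 hj).2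
    rw [e2, e3]
    ring
  obtain ⟨m, hm⟩ : ∃ m : ι → ℤ, m = fun i => u i + ∑ g ∈ C i, u g := ⟨_, rfl⟩
  have F3c : ∑ g ∈ I, u g = ∑ g ∈ D, u g + ∑ i ∈ I', m i := by
    have := part I' u (Subset.refl _)
    rw [hall] at this
    rw [this, hm]
  -- the kept clusters
  obtain ⟨S, hS⟩ : ∃ S : Finset ι, S = I'.filter (fun i => 2 + d i < 2 * m i) := ⟨_, rfl⟩
  have hSI : S ⊆ I' := by
    rw [hS]
    exact filter_subset _ _
  have F2 : ∑ i ∈ I', m i ≤ ∑ i ∈ S, (2 * m i - 2 - d i) + t := by
    rw [hS, Finset.sum_filter, ← st', ← Finset.sum_add_distrib]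
    apply Finset.sum_le_sum
    intro i hi
    have hd := ((memI' i).1 hi).2
    split_ifs with h4
    · omega
    · omega
  obtain ⟨L, hLdef⟩ : ∃ L : Finset ι, L = D ∪ S.biUnion (fun i => insert i (C i)) := ⟨_, rfl⟩
  have hLI : L ⊆ I := by
    rw [← hall, hLdef]
    apply Finset.union_subset_union (Subset.refl _)
    exact Finset.biUnion_subset_biUnion_of_subset_left _ hSI
  have hLne : L.Nonempty := by
    rw [hLdef]
    exact hDne.mono Finset.subset_union_left
  have hDL : D ⊆ L := by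
    rw [hLdef]
    exact Finset.subset_union_left
  have hCL : ∀ i ∈ S, C i ⊆ L := by
    intro i hi g hg
    rw [hLdef]
    exact mem_union_right _ (mem_biUnion.2 ⟨i, hi, mem_insert_of_mem hg⟩)
  have hb := h.bud L hLI hLne
  obtain ⟨w, hw⟩ : ∃ w : ι → ℤ, w = fun g => (((J g).filter (fun j => j ∈ L)).card : ℤ) :=
    ⟨_, rfl⟩
  have hcL : (L.card : ℤ) ≤ a := by
    rw [← h.cI]
    exact_mod_cast Finset.card_le_card hLI
  have hwa : ∀ g ∈ L, w g ≤ a := by
    intro g hg
    rw [hw, ← h.cI]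
    show (((J g).filter (fun j => j ∈ L)).card : ℤ) ≤ (I.card : ℤ)
    have : ((J g).filter (fun j => j ∈ L)).card ≤ I.card :=
      Finset.card_le_card fun j hj => hLI (mem_filter.1 hj).2
    exact_mod_cast this
  have hW0 : 0 ≤ ∑ g ∈ L, w g := by
    refine Finset.sum_nonneg fun g _ => ?_
    rw [hw]
    positivity
  have hWa : ∑ g ∈ L, w g ≤ a * a := by
    have h4 := Finset.sum_le_sum hwa
    rw [Finset.sum_const, nsmul_eq_mul] at h4
    have h5 : (L.card : ℤ) * a ≤ a * a := mul_le_mul_of_nonneg_right hcL (by positivity)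
    linarith
  have hlow : (2 * k - ε) * ∑ g ∈ L, w g ≤
      ∑ i ∈ L, ∑ j ∈ (J i).filter (fun j => j ∈ L), (2 * k + E i j) := by
    rw [Finset.mul_sum]
    apply Finset.sum_le_sum
    intro g hg
    have h4 : ∑ j ∈ (J g).filter (fun j => j ∈ L), (2 * k - ε) ≤
        ∑ j ∈ (J g).filter (fun j => j ∈ L), (2 * k + E g j) := by
      apply Finset.sum_le_sum
      intro j hj
      have := h.E0 g (hLI hg) j (mem_filter.1 hj).1
      linarith
    rw [Finset.sum_const, nsmul_eq_mul] at h4
    rw [hw]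
    show (2 * k - ε) * (((J g).filter (fun j => j ∈ L)).card : ℤ) ≤ _
    rw [mul_comm]
    exact h4
  have hsz : (L.card : ℤ) = D.card + ∑ i ∈ S, (1 + ((C i).card : ℤ)) := by
    have := part S (fun _ => 1) hSI
    rw [← hLdef] at this
    simp only [Finset.sum_const, nsmul_eq_mul, mul_one] at this
    exact this
  have hdL : ∑ i ∈ L, d i = ∑ i ∈ S, d i := by
    have := part S d hSI
    rw [← hLdef] at this
    rw [this]
    have e1 : ∑ g ∈ D, d g = 0 := Finset.sum_eq_zero fun g hg => ((memD g).1 hg).2.1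
    rw [e1, zero_add]
    refine Finset.sum_congr rfl fun i hi => ?_
    rw [Finset.sum_eq_zero (dC i (hSI hi)), add_zero]
  have hWlow : ∑ g ∈ D, u g + ∑ i ∈ S, (m i + ((C i).card : ℤ)) ≤ ∑ g ∈ L, w g := by
    have hp := part S w hSI
    rw [← hLdef] at hp
    rw [hp]
    have huw : ∀ g, u g ≤ w g := by
      intro g
      rw [hu, hw]
      show ((D.filter (fun j => j ∈ J g)).card : ℤ) ≤ (((J g).filter (fun j => j ∈ L)).card : ℤ)
      have : (D.filter (fun j => j ∈ J g)).card ≤ ((J g).filter (fun j => j ∈ L)).card := by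
        apply Finset.card_le_card
        intro j hj
        obtain ⟨h4, h5⟩ := mem_filter.1 hj
        exact mem_filter.2 ⟨h5, hDL h4⟩
      exact_mod_cast this
    apply add_le_add (Finset.sum_le_sum fun g _ => huw g)
    apply Finset.sum_le_sum
    intro i hi
    have h4 : u i + ((C i).card : ℤ) ≤ w i := by
      rw [hu, hw]
      show ((D.filter (fun j => j ∈ J i)).card : ℤ) + ((C i).card : ℤ) ≤
        (((J i).filter (fun j => j ∈ L)).card : ℤ)
      have hdis : Disjoint (D.filter (fun j => j ∈ J i)) (C i) := by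
        rw [Finset.disjoint_left]
        intro j hj hj'
        exact ((memD j).1 (mem_filter.1 hj).1).2.2 ((memC i j).1 hj').2
      have h5 := Finset.card_union_of_disjoint hdis
      have h6 : (D.filter (fun j => j ∈ J i) ∪ C i).card ≤
          ((J i).filter (fun j => j ∈ L)).card := by
        apply Finset.card_le_card
        intro j hj
        rcases mem_union.1 hj with hj | hj
        · obtain ⟨h7, h8⟩ := mem_filter.1 hj
          exact mem_filter.2 ⟨h8, hDL h7⟩
        · exact mem_filter.2 ⟨((memC i j).1 hj).1, hCL i hi hj⟩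
      rw [h5] at h6
      exact_mod_cast h6
    have h5 : ∑ g ∈ C i, u g ≤ ∑ g ∈ C i, w g := Finset.sum_le_sum fun g _ => huw g
    rw [hm]
    show u i + ∑ g ∈ C i, u g + ((C i).card : ℤ) ≤ w i + ∑ g ∈ C i, w g
    linarith
  have F1 : 2 * ∑ g ∈ D, u g + ∑ i ∈ S, (2 * m i - 2 - d i) ≤ 2 * D.card - 2 := by
    rw [hdL, hsz] at hb
    have h4 := hlow.trans hb
    generalize hWd : ∑ g ∈ L, w g = W at *
    have h5 : ε * W ≤ ε * (a * a) := mul_le_mul_of_nonneg_left hWa hε
    have h6 : k * (2 * W) < k * (2 * ((D.card : ℤ) + ∑ i ∈ S, (1 + ((C i).card : ℤ)) - 1) +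
        ∑ i ∈ S, d i + 1) := by
      have e1 : (2 * k - ε) * W = k * (2 * W) - ε * W := by ring
      have e2 : k * (2 * ((D.card : ℤ) + ∑ i ∈ S, (1 + ((C i).card : ℤ)) - 1) +
        ∑ i ∈ S, d i + 1) = 2 * k * ((D.card : ℤ) + ∑ i ∈ S, (1 + ((C i).card : ℤ)) - 1) +
        k * ∑ i ∈ S, d i + k := by ring
      rw [e1] at h4
      rw [e2]
      linarith
    have h7 := lt_of_mul_lt_mul_left h6 hk.le
    have e3 : ∑ i ∈ S, (2 * m i - 2 - d i) = 2 * ∑ i ∈ S, (m i + ((C i).card : ℤ)) -
        2 * ∑ i ∈ S, (1 + ((C i).card : ℤ)) - ∑ i ∈ S, d i := by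
      rw [Finset.mul_sum, Finset.mul_sum, ← Finset.sum_sub_distrib, ← Finset.sum_sub_distrib]
      refine Finset.sum_congr rfl fun i _ => ?_
      ring
    rw [e3]
    linarith
  refine L3_fin a t q D.card I'.card (∑ i ∈ I', ((C i).card : ℤ))
    (∑ i ∈ I', ∑ j ∈ D.filter (fun j => j ∈ J i), x i j) (∑ i ∈ I', m i) (∑ g ∈ D, u g)
    (∑ i ∈ S, (2 * m i - 2 - d i)) sz (Finset.sum_nonneg fun g _ => hu0 g) F1 F2 ?_ F4 ?_
  · rw [← F3c, ← F3a, F3b]
  · have h4 : 2 * t ≤ a := hat.le
    have h5 : (t : ℤ) ≤ ((q - 1 : ℕ) : ℤ) * ((a - 2 * t : ℕ) : ℤ) + 1 := by exact_mod_cast htq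
    rw [Nat.cast_sub (by omega), Nat.cast_sub h4] at h5
    push_cast at h5
    exact h5

end Pool.Agent.UHX
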