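import Pool.Agent.UHX.HD

/-!
# Campaign UHX, module L4: the case `a = 5`, `t = 2`, `q = 2`

The proof follows the docstring of `St_L4`.
-/

set_option autoImplicit false

open Finset

namespace Pool.Agent.UHX

section L4

variable {ι : Type} [DecidableEq ι] {k ε : ℤ} {I : Finset ι} {d : ι → ℤ} {J : ι → Finset ι}
  {x o E : ι → ι → ℤ} {st : ι → ι → Prop}

/-- the marked pairs, counted in two ways -/
private theorem L4_count (h : HD 5 2 2 k ε I d J x o E st) :
    ∑ i ∈ I, ∑ j ∈ J i, x i j + ∑ i ∈ I, ((J i).card : ℤ) =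
      3 * ((I.filter fun j => d j = 0).card : ℤ) := by
  have h1 : ∑ j ∈ I.filter (fun j => d j = 0), ∑ i ∈ I.filter (fun i => j ∈ J i), (x i j + 1) =
      ∑ i ∈ I, ∑ j ∈ J i, (x i j + 1) := by
    refine Finset.sum_comm' ?_
    intro j i
    simp only [Finset.mem_filter]
    constructor
    · rintro ⟨⟨_, _⟩, h3, h4⟩
      exact ⟨h4, h3⟩
    · rintro ⟨h3, h4⟩
      obtain ⟨h5, h6, _⟩ := h.JI i h4 j h3
      exact ⟨⟨h5, h6⟩, h4, h3⟩
  have h2 : ∑ j ∈ I.filter (fun j => d j = 0), ∑ i ∈ I.filter (fun i => j ∈ J i), (x i j + 1) =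
      ∑ j ∈ I.filter (fun j => d j = 0), (3 : ℤ) := by
    refine Finset.sum_congr rfl fun j hj => ?_
    rw [h.cnt j (Finset.mem_filter.1 hj).1 (Finset.mem_filter.1 hj).2]
    norm_num
  have h3 : ∑ i ∈ I, ∑ j ∈ J i, (x i j + 1) =
      ∑ i ∈ I, ∑ j ∈ J i, x i j + ∑ i ∈ I, ((J i).card : ℤ) := by
    rw [← Finset.sum_add_distrib]
    refine Finset.sum_congr rfl fun i _ => ?_
    rw [Finset.sum_add_distrib, Finset.sum_const, nsmul_eq_mul, mul_one]
  rw [← h3, ← h1, h2, Finset.sum_const, nsmul_eq_mul]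
  ring

private theorem L4_sub (h : HD 5 2 2 k ε I d J x o E st) {i : ι} (hi : i ∈ I) : J i ⊆ I :=
  fun j hj => (h.JI i hi j hj).1

/-- the number of the targets and the total budget -/
private theorem L4_P (h : HD 5 2 2 k ε I d J x o E st) (hε : 0 ≤ ε) (hk : 1000 * ε < k) :
    ∑ i ∈ I, ((J i).card : ℤ) ≤ 5 ∧
    (∑ i ∈ I, ((J i).card : ℤ) = 5 → ∀ i ∈ I, ∀ j ∈ J i, E i j ≤ 5 * ε) := by
  have hk0 : 0 < k := by linarith
  have h1 := h.bud I (Finset.Subset.refl _) (Finset.card_pos.1 (by have := h.cI; omega))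
  have h2 : ∑ i ∈ I, ∑ j ∈ (J i).filter (fun j => j ∈ I), (2 * k + E i j) =
      2 * k * ∑ i ∈ I, ((J i).card : ℤ) + ∑ i ∈ I, ∑ j ∈ J i, E i j := by
    rw [Finset.mul_sum, ← Finset.sum_add_distrib]
    refine Finset.sum_congr rfl fun i hi => ?_
    rw [Finset.filter_true_of_mem (fun j hj => L4_sub h hi hj), Finset.sum_add_distrib,
      Finset.sum_const, nsmul_eq_mul]
    ring
  rw [h2, h.cI, h.dt] at h1
  have h3 : ∑ i ∈ I, ∑ j ∈ J i, (E i j + ε) =
      ∑ i ∈ I, ∑ j ∈ J i, E i j + ε * ∑ i ∈ I, ((J i).card : ℤ) := by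
    rw [Finset.mul_sum, ← Finset.sum_add_distrib]
    refine Finset.sum_congr rfl fun i _ => ?_
    rw [Finset.sum_add_distrib, Finset.sum_const, nsmul_eq_mul]
    ring
  have h4 : ∀ i ∈ I, 0 ≤ ∑ j ∈ J i, (E i j + ε) := fun i hi =>
    Finset.sum_nonneg fun j hj => h.E0 i hi j hj
  have h5 : 0 ≤ ∑ i ∈ I, ∑ j ∈ J i, (E i j + ε) := Finset.sum_nonneg h4
  have h6 : ∑ i ∈ I, ((J i).card : ℤ) ≤ 25 := by
    calc ∑ i ∈ I, ((J i).card : ℤ) ≤ ∑ i ∈ I, (5 : ℤ) := by
          refine Finset.sum_le_sum fun i hi => ?_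
          have h7 := Finset.card_le_card (L4_sub h hi)
          have h8 := h.cI
          omega
      _ = 25 := by
          rw [Finset.sum_const, nsmul_eq_mul, h.cI]
          norm_num
  generalize ∑ i ∈ I, ((J i).card : ℤ) = P at *
  have hP : P ≤ 5 := by
    by_contra hc
    have hc' : 6 ≤ P := by omega
    have h9 : 2 * k * 6 ≤ 2 * k * P := mul_le_mul_of_nonneg_left hc' (by linarith)
    have h10 : ε * P ≤ ε * 25 := mul_le_mul_of_nonneg_left h6 hε
    linarith
  refine ⟨hP, ?_⟩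
  intro hP5 i hi j hj
  subst hP5
  have h11 : E i j + ε ≤ ∑ j ∈ J i, (E i j + ε) :=
    Finset.single_le_sum (f := fun j => E i j + ε) (fun j hj => h.E0 i hi j hj) hj
  have h12 : ∑ j ∈ J i, (E i j + ε) ≤ ∑ i ∈ I, ∑ j ∈ J i, (E i j + ε) :=
    Finset.single_le_sum (f := fun i => ∑ j ∈ J i, (E i j + ε)) h4 hi
  linarith

/-- one group with deficit two -/
private theorem L4_A (h : HD 5 2 2 k ε I d J x o E st) (hε : 0 ≤ ε) (hk : 1000 * ε < k)
    {i : ι} (hi : i ∈ I) (hd : d i = 2) : ∑ j ∈ J i, x i j ≤ 6 := by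
  classical
  have h1 : ∀ j ∈ J i, k * x i j ≤ (if st i j then 2 * o i j else 0) + (E i j + ε) := by
    intro j hj
    by_cases hs : st i j
    · rw [if_pos hs]
      have h2 := h.star i hi j hj hs
      have h3 := h.xq i hi j hj
      have h4 := h.o0 i hi j hj
      have h5 : x i j * o i j ≤ 2 * o i j := mul_le_mul_of_nonneg_right h3 h4
      linarith
    · rw [if_neg hs]
      have h2 := h.nst i hi j hj hs
      have h3 := h.xq i hi j hj
      have h5 : k * x i j ≤ k * 2 := mul_le_mul_of_nonneg_left h3 (by linarith)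
      linarith
  have h2 := Finset.sum_le_sum h1
  rw [← Finset.mul_sum, Finset.sum_add_distrib, ← Finset.sum_filter, ← Finset.mul_sum,
    Finset.sum_add_distrib, Finset.sum_const, nsmul_eq_mul] at h2
  have h3 := h.loc i hi ((J i).filter fun j => st i j) ∅ (Finset.filter_subset _ _)
    (Finset.empty_subset _) (Finset.disjoint_empty_right _)
  have h4 := h.loc i hi ∅ (J i) (Finset.empty_subset _) (Finset.Subset.refl _)
    (Finset.disjoint_empty_left _)
  rw [Finset.sum_empty, hd] at h3 h4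
  have h5 : ((J i).card : ℤ) ≤ 5 := by
    have h7 := Finset.card_le_card (L4_sub h hi)
    have h8 := h.cI
    omega
  have h6 : ((J i).card : ℤ) * ε ≤ 5 * ε := mul_le_mul_of_nonneg_right h5 hε
  by_contra hc
  have hc' : 7 ≤ ∑ j ∈ J i, x i j := by omega
  have h9 : k * 7 ≤ k * ∑ j ∈ J i, x i j := mul_le_mul_of_nonneg_left hc' (by linarith)
  linarith

/-- a group with deficit one -/
private theorem L4_B (hLC : St_LC) (h : HD 5 2 2 k ε I d J x o E st) (hε : 0 ≤ ε)
    (hk : 1000 * ε < k) {i : ι} (hi : i ∈ I) (hd : d i = 1) : ∑ j ∈ J i, x i j ≤ 2 ∧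
    ((∀ j ∈ J i, E i j ≤ 5 * ε) → ∑ j ∈ J i, x i j = 2 →
      ∃ j0 ∈ J i, x i j0 = 2 ∧ ∀ j ∈ J i, j ≠ j0 → x i j = 0) := by
  obtain ⟨-, hL⟩ := hLC ι 5 2 2 k ε I d J x o E st h hε (by norm_num) (by linarith) i hi
  obtain ⟨-, hL2, hL3⟩ := hL hd
  set Q := (J i).filter fun j => 1 ≤ x i j with hQ
  have hQm : ∀ j, j ∈ Q ↔ j ∈ J i ∧ 1 ≤ x i j := fun j => Finset.mem_filter
  have hz : ∀ j ∈ J i, j ∉ Q → x i j = 0 := by
    intro j hj hjQ
    have h1 := h.x0 i hi j hj
    by_contra hne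
    exact hjQ ((hQm j).2 ⟨hj, by omega⟩)
  have hsum : ∑ j ∈ J i, x i j = ∑ j ∈ Q, x i j :=
    (Finset.sum_subset (Finset.filter_subset _ _) hz).symm
  have hcard : Q.card ≤ 2 := by
    by_contra hc
    obtain ⟨a, ha, b, hb, c, hc2, hab, hac, hbc⟩ := Finset.two_lt_card.1 (not_le.1 hc)
    have ha' := (hQm a).1 ha
    have hb' := (hQm b).1 hb
    have hc' := (hQm c).1 hc2
    exact hL3 a ha'.1 b hb'.1 c hc'.1 hab hac hbc ha'.2 hb'.2 hc'.2
  rcases Nat.lt_or_ge Q.card 2 with hlt | hge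
  · rcases Nat.lt_or_ge Q.card 1 with hlt1 | hge1
    · have hQe : Q = ∅ := Finset.card_eq_zero.1 (by omega)
      rw [hsum, hQe, Finset.sum_empty]
      exact ⟨by norm_num, fun _ h2 => by norm_num at h2⟩
    · obtain ⟨j0, hj0⟩ := Finset.card_eq_one.1 (show Q.card = 1 by omega)
      have hj0Q : j0 ∈ Q := by rw [hj0]; exact Finset.mem_singleton_self _
      have hj0J := ((hQm j0).1 hj0Q).1
      rw [hsum, hj0, Finset.sum_singleton]
      refine ⟨h.xq i hi j0 hj0J, fun _ h2 => ⟨j0, hj0J, h2, fun j hj hne => ?_⟩⟩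
      refine hz j hj ?_
      rw [hj0, Finset.mem_singleton]
      exact hne
  · obtain ⟨j0, j1, hne, hj⟩ := Finset.card_eq_two.1 (show Q.card = 2 by omega)
    have hj0Q : j0 ∈ Q := by rw [hj]; simp
    have hj1Q : j1 ∈ Q := by rw [hj]; simp
    have h0 := (hQm j0).1 hj0Q
    have h1 := (hQm j1).1 hj1Q
    obtain ⟨h2, h3, h4⟩ := hL2 j0 h0.1 j1 h1.1 hne h0.2 h1.2
    rw [hsum, hj, Finset.sum_pair hne, h2, h3]
    refine ⟨by norm_num, fun hE _ => ?_⟩
    have h5 := hE j0 h0.1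
    have h6 := hE j1 h1.1
    exfalso
    linarith

/-- the last budget -/
private theorem L4_fin (h : HD 5 2 2 k ε I d J x o E st) (hε : 0 ≤ ε) (hk : 1000 * ε < k)
    {i j D : ι} (hi : i ∈ I) (hd : d i = 1) (hj : j ∈ J i) (hDj : D ≠ j) (hDi : D ∈ J i)
    (hDJ : D ∈ J j) : False := by
  obtain ⟨hjI, hjd, hji⟩ := h.JI i hi j hj
  obtain ⟨hDI, hDd, hDi'⟩ := h.JI i hi D hDi
  have h1 := h.bud {D, i, j} (by
    intro g hg
    simp only [Finset.mem_insert, Finset.mem_singleton] at hg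
    rcases hg with rfl | rfl | rfl
    · exact hDI
    · exact hi
    · exact hjI) ⟨D, by simp⟩
  have hn1 : D ∉ ({i, j} : Finset ι) := by
    simp only [Finset.mem_insert, Finset.mem_singleton, not_or]
    exact ⟨hDi', hDj⟩
  have hn2 : i ∉ ({j} : Finset ι) := by
    rw [Finset.mem_singleton]
    exact fun h2 => hji h2.symm
  have hnn : ∀ g ∈ I, ∀ g' ∈ J g, 2 * k - ε ≤ 2 * k + E g g' := by
    intro g hg g' hg'
    have := h.E0 g hg g' hg'
    linarith
  have hnn0 : ∀ g ∈ I, ∀ g' ∈ J g, 0 ≤ 2 * k + E g g' := by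
    intro g hg g' hg'
    have := hnn g hg g' hg'
    linarith
  have hc : (({D, i, j} : Finset ι).card : ℤ) = 3 := by
    rw [Finset.card_insert_of_notMem hn1, Finset.card_insert_of_notMem hn2,
      Finset.card_singleton]
    norm_num
  rw [hc, Finset.sum_insert hn1, Finset.sum_insert hn2, Finset.sum_singleton,
    Finset.sum_insert hn1, Finset.sum_insert hn2, Finset.sum_singleton, hDd, hd, hjd] at h1
  have hA : 0 ≤ ∑ g' ∈ (J D).filter (fun g' => g' ∈ ({D, i, j} : Finset ι)), (2 * k + E D g') :=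
    Finset.sum_nonneg fun g' hg' => hnn0 D hDI g' (Finset.mem_filter.1 hg').1
  have hB : 2 * k - ε ≤
      ∑ g' ∈ (J j).filter (fun g' => g' ∈ ({D, i, j} : Finset ι)), (2 * k + E j g') := by
    refine (hnn j hjI D hDJ).trans ?_
    refine Finset.single_le_sum (f := fun g' => 2 * k + E j g')
      (fun g' hg' => hnn0 j hjI g' (Finset.mem_filter.1 hg').1) ?_
    rw [Finset.mem_filter]
    exact ⟨hDJ, by simp⟩
  have hC : 4 * k - 2 * ε ≤
      ∑ g' ∈ (J i).filter (fun g' => g' ∈ ({D, i, j} : Finset ι)), (2 * k + E i g') := by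
    have h2 : ({D, j} : Finset ι) ⊆
        (J i).filter (fun g' => g' ∈ ({D, i, j} : Finset ι)) := by
      intro g hg
      simp only [Finset.mem_insert, Finset.mem_singleton] at hg
      rw [Finset.mem_filter]
      rcases hg with rfl | rfl
      · exact ⟨hDi, by simp⟩
      · exact ⟨hj, by simp⟩
    have h3 := Finset.sum_le_sum_of_subset_of_nonneg (f := fun g' => 2 * k + E i g') h2
      (fun g' hg' _ => hnn0 i hi g' (Finset.mem_filter.1 hg').1)
    rw [Finset.sum_pair hDj] at h3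
    have h4 := hnn i hi D hDi
    have h5 := hnn i hi j hj
    linarith
  linarith

/-- the group with two pairs at one target has no other target -/
private theorem L4_only (h : HD 5 2 2 k ε I d J x o E st) {i i' j : ι} (hi : i ∈ I)
    (hj : j ∈ J i) (hx : x i j = 2) (hi' : i' ∈ I) (hj' : j ∈ J i') : i' = i := by
  by_contra hne
  obtain ⟨hjI, hjd, hji⟩ := h.JI i hi j hj
  have h1 := h.cnt j hjI hjd
  have h2 : ({i, i'} : Finset ι) ⊆ I.filter (fun g => j ∈ J g) := by
    intro g hg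
    simp only [Finset.mem_insert, Finset.mem_singleton] at hg
    rw [Finset.mem_filter]
    rcases hg with rfl | rfl
    · exact ⟨hi, hj⟩
    · exact ⟨hi', hj'⟩
  have h3 := Finset.sum_le_sum_of_subset_of_nonneg (f := fun g => x g j + 1) h2
    (fun g hg _ => by
      have := h.x0 g (Finset.mem_filter.1 hg).1 j (Finset.mem_filter.1 hg).2
      omega)
  rw [Finset.sum_pair (fun h4 => hne h4.symm), h1, hx] at h3
  have h4 := h.x0 i' hi' j hj'
  omega

/-- the third full group -/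
private theorem L4_third (h : HD 5 2 2 k ε I d J x o E st) (hε : 0 ≤ ε) (hk : 1000 * ε < k)
    {i i' j j' D : ι} (hi : i ∈ I) (hi' : i' ∈ I) (hii : i ≠ i') (hd : d i = 1) (hd' : d i' = 1)
    (hj : j ∈ J i) (hj' : j' ∈ J i') (hjj : j ≠ j') (hD : D ∈ I) (hDd : d D = 0) (hDj : D ≠ j)
    (hDj' : D ≠ j') (hx : ∀ g ∈ I, D ∈ J g → x g D = 0) : False := by
  obtain ⟨hjI, hjd, hji⟩ := h.JI i hi j hj
  obtain ⟨hjI', hjd', hji'⟩ := h.JI i' hi' j' hj'
  set T := I.filter fun g => D ∈ J g with hT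
  have hTm : ∀ g, g ∈ T ↔ g ∈ I ∧ D ∈ J g := fun g => Finset.mem_filter
  have hTc : (T.card : ℤ) = 3 := by
    have h1 := h.cnt D hD hDd
    have h2 : ∑ g ∈ T, (x g D + 1) = ∑ g ∈ T, (1 : ℤ) := by
      refine Finset.sum_congr rfl fun g hg => ?_
      rw [hx g ((hTm g).1 hg).1 ((hTm g).1 hg).2]
      norm_num
    rw [h2, Finset.sum_const, nsmul_eq_mul, mul_one] at h1
    rw [h1]
    norm_num
  have hDT : D ∉ T := by
    intro hDT
    have := (hTm D).1 hDT
    exact (h.JI D this.1 D this.2).2.2 rfl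
  have key : ∀ u v : ι, u ∈ I → v ∈ I → u ≠ v → D ≠ u → D ≠ v → u ∉ T → v ∉ T → False := by
    intro u v hu hv huv hDu hDv huT hvT
    have h1 : T ⊆ ((I.erase D).erase u).erase v := by
      intro g hg
      rw [Finset.mem_erase, Finset.mem_erase, Finset.mem_erase]
      refine ⟨?_, ?_, ?_, ((hTm g).1 hg).1⟩
      · rintro rfl
        exact hvT hg
      · rintro rfl
        exact huT hg
      · rintro rfl
        exact hDT hg
    have h2 := Finset.card_le_card h1
    rw [Finset.card_erase_of_mem (by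
      rw [Finset.mem_erase, Finset.mem_erase]
      exact ⟨huv.symm, hDv.symm, hv⟩), Finset.card_erase_of_mem (by
      rw [Finset.mem_erase]
      exact ⟨hDu.symm, hu⟩), Finset.card_erase_of_mem hD] at h2
    have h3 := h.cI
    omega
  have hDi : D ≠ i := by
    rintro rfl
    omega
  have hDi' : D ≠ i' := by
    rintro rfl
    omega
  have hij' : i ≠ j' := by
    rintro rfl
    omega
  have hji2 : j ≠ i' := by
    rintro rfl
    omega
  by_cases h1 : i ∈ T ∧ j ∈ T
  · exact L4_fin h hε hk hi hd hj hDj ((hTm i).1 h1.1).2 ((hTm j).1 h1.2).2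
  by_cases h2 : i' ∈ T ∧ j' ∈ T
  · exact L4_fin h hε hk hi' hd' hj' hDj' ((hTm i').1 h2.1).2 ((hTm j').1 h2.2).2
  by_cases hiT : i ∈ T
  · have hjT : j ∉ T := fun h3 => h1 ⟨hiT, h3⟩
    by_cases hiT' : i' ∈ T
    · exact key j j' hjI hjI' hjj hDj hDj' hjT fun h3 => h2 ⟨hiT', h3⟩
    · exact key j i' hjI hi' hji2 hDj hDi' hjT hiT'
  · by_cases hiT' : i' ∈ T
    · exact key i j' hi hjI' hij' hDi hDj' hiT fun h3 => h2 ⟨hiT', h3⟩
    · exact key i i' hi hi' hii hDi hDi' hiT hiT'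

private theorem L4_main (hLC : St_LC) (h : HD 5 2 2 k ε I d J x o E st) (hε : 0 ≤ ε)
    (hk : 1000 * ε < k) : False := by
  have hcount := L4_count h
  obtain ⟨hP, hPE⟩ := L4_P h hε hk
  set S := I.filter fun i => ¬ d i = 0 with hS
  have hSm : ∀ i, i ∈ S ↔ i ∈ I ∧ ¬ d i = 0 := fun i => Finset.mem_filter
  have hz : ∀ i ∈ I, d i = 0 → ∀ j ∈ J i, x i j = 0 := fun i hi =>
    (hLC ι 5 2 2 k ε I d J x o E st h hε (by norm_num) (by linarith) i hi).1
  have hX : ∑ i ∈ I, ∑ j ∈ J i, x i j = ∑ i ∈ S, ∑ j ∈ J i, x i j := by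
    refine (Finset.sum_subset (Finset.filter_subset _ _) fun i hi hiS => ?_).symm
    have hd : d i = 0 := by
      by_contra hne
      exact hiS ((hSm i).2 ⟨hi, hne⟩)
    exact Finset.sum_eq_zero fun j hj => hz i hi hd j hj
  have hcards : (I.filter fun j => d j = 0).card + S.card = I.card :=
    Finset.card_filter_add_card_filter_not _
  have hcI := h.cI
  have hdS : ∑ i ∈ S, d i = 2 := by
    rw [← h.dt]
    refine Finset.sum_subset (Finset.filter_subset _ _) fun i hi hiS => ?_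
    by_contra hne
    exact hiS ((hSm i).2 ⟨hi, hne⟩)
  have hd1 : ∀ i ∈ S, 1 ≤ d i := by
    intro i hi
    have h1 := h.d0 i ((hSm i).1 hi).1
    have h2 := ((hSm i).1 hi).2
    omega
  have hSc : (S.card : ℤ) ≤ 2 := by
    rw [← hdS]
    calc (S.card : ℤ) = ∑ i ∈ S, (1 : ℤ) := by rw [Finset.sum_const, nsmul_eq_mul, mul_one]
      _ ≤ ∑ i ∈ S, d i := Finset.sum_le_sum hd1
  rcases Nat.lt_or_ge S.card 1 with hlt | hge
  · have hSe : S = ∅ := Finset.card_eq_zero.1 (by omega)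
    rw [hSe, Finset.sum_empty] at hdS
    norm_num at hdS
  rcases Nat.lt_or_ge S.card 2 with hlt2 | hge2
  · obtain ⟨i, hi⟩ := Finset.card_eq_one.1 (show S.card = 1 by omega)
    have hiS : i ∈ S := by rw [hi]; exact Finset.mem_singleton_self _
    rw [hi, Finset.sum_singleton] at hdS hX
    have h1 := L4_A h hε hk ((hSm i).1 hiS).1 hdS
    have h2 : S.card = 1 := by rw [hi, Finset.card_singleton]
    omega
  · obtain ⟨i, i', hii, hi⟩ := Finset.card_eq_two.1 (show S.card = 2 by omega)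
    have hiS : i ∈ S := by rw [hi]; simp
    have hiS' : i' ∈ S := by rw [hi]; simp
    have h2 : S.card = 2 := by rw [hi, Finset.card_pair hii]
    have h3 := hd1 i hiS
    have h4 := hd1 i' hiS'
    rw [hi, Finset.sum_pair hii] at hdS hX
    have hdi : d i = 1 := by omega
    have hdi' : d i' = 1 := by omega
    have hiI := ((hSm i).1 hiS).1
    have hiI' := ((hSm i').1 hiS').1
    obtain ⟨h5, h6⟩ := L4_B hLC h hε hk hiI hdi
    obtain ⟨h7, h8⟩ := L4_B hLC h hε hk hiI' hdi'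
    have hP5 : ∑ i ∈ I, ((J i).card : ℤ) = 5 := by omega
    have hE := hPE hP5
    obtain ⟨j, hj, hxj, hj0⟩ := h6 (hE i hiI) (by omega)
    obtain ⟨j', hj', hxj', hj0'⟩ := h8 (hE i' hiI') (by omega)
    obtain ⟨hjI, hjd, hji⟩ := h.JI i hiI j hj
    obtain ⟨hjI', hjd', hji'⟩ := h.JI i' hiI' j' hj'
    have hjj : j ≠ j' := by
      rintro rfl
      exact hii (L4_only h hiI' hj' hxj' hiI hj)
    obtain ⟨D, hD, hDn⟩ := Finset.exists_mem_notMem_of_card_lt_card
      (s := {j, j'}) (t := I.filter fun j => d j = 0) (by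
        rw [Finset.card_pair hjj]
        omega)
    rw [Finset.mem_filter] at hD
    simp only [Finset.mem_insert, Finset.mem_singleton, not_or] at hDn
    refine L4_third h hε hk hiI hiI' hii hdi hdi' hj hj' hjj hD.1 hD.2 hDn.1 hDn.2 ?_
    intro g hg hDg
    by_cases hgd : d g = 0
    · exact hz g hg hgd D hDg
    · have hgS : g ∈ S := (hSm g).2 ⟨hg, hgd⟩
      rw [hi] at hgS
      simp only [Finset.mem_insert, Finset.mem_singleton] at hgS
      rcases hgS with rfl | rfl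
      · exact hj0 D hDg hDn.1
      · exact hj0' D hDg hDn.2

end L4

theorem thm_L4 (hLC : St_LC) : St_L4 := by
  refine ⟨1000, ?_⟩
  intro ι _ k ε I d J x o E st h hε hk
  exact L4_main hLC h hε (by exact_mod_cast hk)

end Pool.Agent.UHX
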