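import Pool.Agent.UHX.HD

/-!
Campaign UHX, module LC: local lemmas (integer arithmetic).
-/

set_option autoImplicit false

open Finset

namespace Pool.Agent.UHX

theorem LC_k20 {q k ε : ℤ} (hε : 0 ≤ ε) (hq : 0 ≤ q) (h : (q + 20) * ε < k) :
    20 * ε < k ∧ (q + 2) * ε < k ∧ 0 < k := by
  have h1 : 0 ≤ q * ε := mul_nonneg hq hε
  refine ⟨by linarith [h], by linarith [h], by linarith [h]⟩

theorem LC_o1 {ι : Type} [DecidableEq ι] {a t q k ε : ℤ} {I : Finset ι} {d : ι → ℤ} {J : ι → Finset ι}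
    {x o E : ι → ι → ℤ} {st : ι → ι → Prop} (h : HD a t q k ε I d J x o E st) {i : ι} (hi : i ∈ I)
    {j : ι} (hj : j ∈ J i) : o i j ≤ k * d i + ε := by
  have := h.loc i hi {j} ∅ (by simpa using hj) (by simp) (by simp)
  simpa using this

theorem LC_E1 {ι : Type} [DecidableEq ι] {a t q k ε : ℤ} {I : Finset ι} {d : ι → ℤ} {J : ι → Finset ι}
    {x o E : ι → ι → ℤ} {st : ι → ι → Prop} (h : HD a t q k ε I d J x o E st) {i : ι} (hi : i ∈ I)
    {j : ι} (hj : j ∈ J i) : E i j ≤ k * d i + ε := by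
  have := h.loc i hi ∅ {j} (by simp) (by simpa using hj) (by simp)
  simpa using this

theorem LC_oE {ι : Type} [DecidableEq ι] {a t q k ε : ℤ} {I : Finset ι} {d : ι → ℤ} {J : ι → Finset ι}
    {x o E : ι → ι → ℤ} {st : ι → ι → Prop} (h : HD a t q k ε I d J x o E st) {i : ι} (hi : i ∈ I)
    {j j' : ι} (hj : j ∈ J i) (hj' : j' ∈ J i) (hne : j ≠ j') : o i j + E i j' ≤ k * d i + ε := by
  have := h.loc i hi {j} {j'} (by simpa using hj) (by simpa using hj') (by simpa using hne)
  simpa using this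

theorem LC_o2 {ι : Type} [DecidableEq ι] {a t q k ε : ℤ} {I : Finset ι} {d : ι → ℤ} {J : ι → Finset ι}
    {x o E : ι → ι → ℤ} {st : ι → ι → Prop} (h : HD a t q k ε I d J x o E st) {i : ι} (hi : i ∈ I)
    {j j' : ι} (hj : j ∈ J i) (hj' : j' ∈ J i) (hne : j ≠ j') : o i j + o i j' ≤ k * d i + ε := by
  have hs : ({j, j'} : Finset ι) ⊆ J i := by
    intro y hy
    rcases Finset.mem_insert.1 hy with rfl | hy
    · exact hj
    · rw [Finset.mem_singleton.1 hy]; exact hj'
  have := h.loc i hi {j, j'} ∅ hs (by simp) (by simp)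
  rw [Finset.sum_pair hne, Finset.sum_empty, add_zero] at this
  exact this

theorem LC_E2 {ι : Type} [DecidableEq ι] {a t q k ε : ℤ} {I : Finset ι} {d : ι → ℤ} {J : ι → Finset ι}
    {x o E : ι → ι → ℤ} {st : ι → ι → Prop} (h : HD a t q k ε I d J x o E st) {i : ι} (hi : i ∈ I)
    {j j' : ι} (hj : j ∈ J i) (hj' : j' ∈ J i) (hne : j ≠ j') : E i j + E i j' ≤ k * d i + ε := by
  have hs : ({j, j'} : Finset ι) ⊆ J i := by
    intro y hy
    rcases Finset.mem_insert.1 hy with rfl | hy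
    · exact hj
    · rw [Finset.mem_singleton.1 hy]; exact hj'
  have := h.loc i hi ∅ {j, j'} (by simp) hs (by simp)
  rw [Finset.sum_pair hne, Finset.sum_empty, zero_add] at this
  exact this

theorem LC_three {ι : Type} [DecidableEq ι] {a t q k ε : ℤ} {I : Finset ι} {d : ι → ℤ} {J : ι → Finset ι}
    {x o E : ι → ι → ℤ} {st : ι → ι → Prop} (h : HD a t q k ε I d J x o E st) {i : ι} (hi : i ∈ I)
    {j j' j'' : ι} (hj : j ∈ J i) (hj' : j' ∈ J i) (hj'' : j'' ∈ J i) (h1 : j ≠ j') (h2 : j ≠ j'') (h3 : j' ≠ j'') :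
    o i j + (o i j' + o i j'') ≤ k * d i + ε ∧ E i j + (E i j' + E i j'') ≤ k * d i + ε := by
  have hs : ({j, j', j''} : Finset ι) ⊆ J i := by
    intro y hy
    rcases Finset.mem_insert.1 hy with rfl | hy
    · exact hj
    · rcases Finset.mem_insert.1 hy with rfl | hy
      · exact hj'
      · rw [Finset.mem_singleton.1 hy]; exact hj''
  have hn : j ∉ ({j', j''} : Finset ι) := by simp [h1, h2]
  have e1 := h.loc i hi {j, j', j''} ∅ hs (by simp) (by simp)
  have e2 := h.loc i hi ∅ {j, j', j''} (by simp) hs (by simp)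
  rw [Finset.sum_insert hn, Finset.sum_pair h3, Finset.sum_empty, add_zero] at e1
  rw [Finset.sum_insert hn, Finset.sum_pair h3, Finset.sum_empty, zero_add] at e2
  exact ⟨e1, e2⟩

/-- lower bound of `E` for a star with `x ≥ c` -/
theorem LC_low {ι : Type} [DecidableEq ι] {a t q k ε : ℤ} {I : Finset ι} {d : ι → ℤ} {J : ι → Finset ι}
    {x o E : ι → ι → ℤ} {st : ι → ι → Prop} (h : HD a t q k ε I d J x o E st) {i : ι} (hi : i ∈ I)
    {j : ι} (hj : j ∈ J i) (hst : st i j) {c : ℤ} (hc : c ≤ x i j) :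
    c * (k - o i j) ≤ E i j + ε := by
  have h1 := h.star i hi j hj hst
  have h2 := h.ok i hi j hj
  have h3 : c * (k - o i j) ≤ x i j * (k - o i j) := mul_le_mul_of_nonneg_right hc (by linarith)
  nlinarith [h1, h3]

theorem LC_two {ι : Type} [DecidableEq ι] {a t q k ε : ℤ} {I : Finset ι} {d : ι → ℤ} {J : ι → Finset ι}
    {x o E : ι → ι → ℤ} {st : ι → ι → Prop} (h : HD a t q k ε I d J x o E st) (hε : 0 ≤ ε) (hk : 20 * ε < k)
    {i : ι} (hi : i ∈ I) (hd : d i = 1)
    {j j' : ι} (hj : j ∈ J i) (hj' : j' ∈ J i) (hne : j ≠ j') (hs : st i j) (hs' : st i j')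
    (hx : 1 ≤ x i j) (hx' : 1 ≤ x i j') : x i j = 1 := by
  have o2 := LC_o2 h hi hj hj' hne
  have E2 := LC_E2 h hi hj hj' hne
  have oE := LC_oE h hi hj hj' hne
  rw [hd] at o2 E2 oE
  have l2 := LC_low h hi hj' hs' hx'
  by_contra hcon
  have h2 : 2 ≤ x i j := by
    rcases lt_or_eq_of_le hx with h | h
    · linarith [Int.add_one_le_iff.2 h]
    · exact absurd h.symm hcon
  have l1 := LC_low h hi hj hs h2
  have a1 := h.ok i hi j hj
  have a2 := h.ok i hi j' hj'
  linarith

theorem thm_LC : St_LC := by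
  intro ι _ a t q k ε I d J x o E st h hε hq hk0 i hi
  obtain ⟨hk, hk2, hkpos⟩ := LC_k20 hε hq hk0
  refine ⟨?_, ?_⟩
  · intro hd j hj
    have e1 := LC_E1 h hi hj
    have o1 := LC_o1 h hi hj
    rw [hd, mul_zero, zero_add] at e1 o1
    have hst : st i j := by
      by_contra hns
      have := h.nst i hi j hj hns
      linarith
    have hs := h.star i hi j hj hst
    have hx0 := h.x0 i hi j hj
    have hxq := h.xq i hi j hj
    by_contra hne
    have hx1 : 1 ≤ x i j := by
      rcases lt_or_eq_of_le hx0 with h | h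
      · linarith [Int.add_one_le_iff.2 h]
      · exact absurd h.symm hne
    have b1 : x i j * o i j ≤ x i j * ε := mul_le_mul_of_nonneg_left o1 hx0
    have b2 : x i j * ε ≤ q * ε := mul_le_mul_of_nonneg_right hxq hε
    have b3 : k * 1 ≤ k * x i j := mul_le_mul_of_nonneg_left hx1 hkpos.le
    linarith
  · intro hd
    have hall : ∀ j ∈ J i, st i j := by
      intro j hj
      by_contra hns
      have e1 := LC_E1 h hi hj
      rw [hd] at e1
      have := h.nst i hi j hj hns
      linarith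
    refine ⟨hall, ?_, ?_⟩
    · intro j hj j' hj' hne hx hx'
      refine ⟨LC_two h hε hk hi hd hj hj' hne (hall j hj) (hall j' hj') hx hx',
        LC_two h hε hk hi hd hj' hj (Ne.symm hne) (hall j' hj') (hall j hj) hx' hx, ?_⟩
      have o2 := LC_o2 h hi hj hj' hne
      rw [hd] at o2
      have l1 := LC_low h hi hj (hall j hj) hx
      have l2 := LC_low h hi hj' (hall j' hj') hx'
      linarith
    · intro j hj j' hj' j'' hj'' h1 h2 h3 hx hx' hx''
      obtain ⟨o3, e3⟩ := LC_three h hi hj hj' hj'' h1 h2 h3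
      rw [hd] at o3 e3
      have l1 := LC_low h hi hj (hall j hj) hx
      have l2 := LC_low h hi hj' (hall j' hj') hx'
      have l3 := LC_low h hi hj'' (hall j'' hj'') hx''
      linarith

end Pool.Agent.UHX
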