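import Pool.Agent.UHX.Data
import Pool.Agent.UHX.LC
import Pool.Agent.UHX.L1
import Pool.Agent.UHX.L3
import Pool.Agent.UHX.L4

/-!
Lower bounds with at least two missing pairs.
-/

open Finset

namespace Pool.Agent.TwoDens

open Pool.Agent.UHX

/-- the data are impossible for these parameters -/
def BadHD (a t q : ℕ) : Prop := ∃ M : ℕ,
  ∀ (ι : Type) [DecidableEq ι] (k ε : ℤ) (I : Finset ι) (d : ι → ℤ) (J : ι → Finset ι)
    (x o E : ι → ι → ℤ) (st : ι → ι → Prop),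
    HD (a : ℤ) (t : ℤ) (q : ℤ) k ε I d J x o E st → 0 ≤ ε → (M : ℤ) * ε < k → False

/-- for `k` large every such graph has a set of `k` vertices with at most `q` missing pairs -/
def LowQ (a t q : ℕ) : Prop := ∃ K, ∀ k, K ≤ k →
    ∀ {V : Type} [DecidableEq V] (G : SimpleGraph V) [DecidableRel G.Adj] (Y : Finset V),
    Sk G k Y → Al G a Y → Y.card + t = k * a → ∃ Z ⊆ Y, Z.card = k ∧ m2 G Z ≤ 2 * q

theorem lowQ_of_bad {a t q : ℕ} (ha : 2 ≤ a) (h : BadHD a t q) : LowQ a t q := by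
  obtain ⟨M, hM⟩ := h
  obtain ⟨K, hK⟩ := half_data a t q M ha
  refine ⟨K, ?_⟩
  intro k hk V _ G _ Y hS hal hYc
  by_contra hcon
  push Not at hcon
  obtain ⟨ε, I, d, J, x, o, E, st, h1, h2, h3⟩ := hK k hk G Y hS hal hYc hcon
  exact hM V k ε I d J x o E st h1 h2 h3

theorem lowQ_one {a t q : ℕ} (ha : 2 ≤ a) (hq : 2 ≤ q) (h : (4 * q + 3) * t ≤ 2 * q * a + 1) :
    LowQ a t q :=
  lowQ_of_bad ha (thm_L1 thm_LC a t q (by omega) hq h)

theorem lowQ_two {a t q : ℕ} (ha : 2 ≤ a) (hq : 3 ≤ q) (h1 : 2 * t < a)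
    (h2 : t ≤ (q - 1) * (a - 2 * t) + 1) : LowQ a t q :=
  lowQ_of_bad ha (thm_L3 thm_LC a t q hq h1 h2)

theorem lowQ_five : LowQ 5 2 2 := by
  refine lowQ_of_bad (by omega) ?_
  obtain ⟨M, hM⟩ := thm_L4 thm_LC
  refine ⟨M, ?_⟩
  intro ι _ k ε I d J x o E st h1 h2 h3
  exact hM ι k ε I d J x o E st (by exact_mod_cast h1) h2 h3

end Pool.Agent.TwoDens
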