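import Pool.Agent.TwoDens.Bridge
import Pool.Agent.UHX.Low
import Pool.Agent.UHX.Data1
import Pool.Agent.UHX.L2

/-!
Lower bounds for the minimum 2-density in the upper half of the residues.
-/

open Finset

namespace Pool.Agent.TwoDens

open Pool.Agent.UHX

/-- the condition for the lower bound, `δ = s - 2 t` -/
def LOK (δ t q : ℕ) : Prop :=
  1 ≤ q ∧ (3 * t ≤ 2 * q * δ + 1 ∨ (2 ≤ q ∧ t ≤ (q - 1) * δ + 1))

/-- the bound for the minimum 2-density from the bound for missing pairs -/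
theorem LowQ.low {a t q : ℕ} (ha : 2 ≤ a) (h : LowQ a t q) : ∃ K : ℕ, ∀ k : ℕ, K ≤ k →
    ((k : ℝ) + 1) / 2 - (q : ℝ) / ((k : ℝ) - 2) ≤ minTwoDensity (k * a - t) (a + 1) := by
  obtain ⟨K, hK⟩ := h
  refine ⟨K + t + 13, ?_⟩
  intro k hk
  have hk13 : 13 ≤ k := by omega
  have hkR : (13 : ℝ) ≤ k := by exact_mod_cast hk13
  have hka : k ≤ k * a := Nat.le_mul_of_pos_right k (by omega)
  refine le_minTwoDensity (by omega) ?_
  intro G _ hα
  by_contra hcon
  push Not at hcon
  have hpos : 0 ≤ (q : ℝ) / ((k : ℝ) - 2) := by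
    apply div_nonneg (Nat.cast_nonneg _)
    linarith
  have hS : Sk G k Finset.univ := by
    intro Y _ hY
    have h1 := hcon Y hY
    have hY' : (3 : ℝ) ≤ Y.card := by exact_mod_cast hY
    have h2 : (e2 G Y : ℝ) + 2 * k < (k + 1) * Y.card := by
      nlinarith [mul_nonneg hpos (by linarith : (0 : ℝ) ≤ (Y.card : ℝ) - 2)]
    have h3 : e2 G Y + 2 * k < (k + 1) * Y.card := by exact_mod_cast h2
    omega
  have hal : Al G a Finset.univ := by
    intro I _ hI
    have := hα I hI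
    omega
  obtain ⟨Z, -, hZc, hZm⟩ := hK k (by omega) G Finset.univ hS hal (by
    rw [Finset.card_univ, Fintype.card_fin]
    omega)
  have h1 := hcon Z (by omega)
  have h2 := e2_add_m2 G Z
  have h3 : (e2 G Z : ℝ) + m2 G Z + Z.card = Z.card * Z.card := by exact_mod_cast h2
  have h4 : (m2 G Z : ℝ) ≤ 2 * q := by exact_mod_cast hZm
  have h5 : (Z.card : ℝ) = k := by exact_mod_cast hZc
  rw [h5] at h1 h3
  have h6 : (q : ℝ) / ((k : ℝ) - 2) * ((k : ℝ) - 2) = q :=
    div_mul_cancel₀ _ (by linarith)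
  nlinarith

/-- no graph with the strict condition in the case of one missing pair -/
theorem no_Hk (a t : ℕ) (ha : 2 ≤ a) (h : 7 * t ≤ 2 * a + 1) : ∃ K, ∀ k, K ≤ k →
    ∀ {V : Type} [DecidableEq V] (G : SimpleGraph V) [DecidableRel G.Adj] (Y : Finset V),
    Hk G k Y → Al G a Y → Y.card + t = k * a → False := by
  obtain ⟨M, hM⟩ := thm_L2 thm_LC a t (by omega) h
  obtain ⟨K, hK⟩ := half_data1 a t 1 M ha rfl
  refine ⟨K, ?_⟩
  intro k hk V _ G _ Y hS hal hYc
  obtain ⟨ε, I, d, J, x, o, E, st, h1, h2, h3, h4⟩ := hK k hk G Y hS hal hYc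
  exact hM V k ε I d J x o E st (by exact_mod_cast h1) h2 h3 h4

/-- the bound with one missing pair -/
theorem low_one (a t : ℕ) (ha : 2 ≤ a) (h : 7 * t ≤ 2 * a + 1) : ∃ K : ℕ, ∀ k : ℕ, K ≤ k →
    ((k : ℝ) + 1) / 2 - 1 / ((k : ℝ) - 2) ≤ minTwoDensity (k * a - t) (a + 1) := by
  obtain ⟨K, hK⟩ := no_Hk a t ha h
  refine ⟨K + t + 13, ?_⟩
  intro k hk
  have hk13 : 13 ≤ k := by omega
  have hkR : (13 : ℝ) ≤ k := by exact_mod_cast hk13
  have hka : k ≤ k * a := Nat.le_mul_of_pos_right k (by omega)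
  refine le_minTwoDensity (by omega) ?_
  intro G _ hα
  by_contra hcon
  push Not at hcon
  refine hK k (by omega) G Finset.univ ?_ ?_ (by
    rw [Finset.card_univ, Fintype.card_fin]
    omega)
  · intro Y _ hY
    have h1 := hcon Y hY
    have h6 : 1 / ((k : ℝ) - 2) * ((k : ℝ) - 2) = 1 := div_mul_cancel₀ _ (by linarith)
    have h7 : ((k : ℝ) - 2) * (e2 G Y : ℝ) + 2 * ((Y.card : ℝ) - 2) <
        ((k : ℝ) - 2) * (2 + ((k : ℝ) + 1) * ((Y.card : ℝ) - 2)) := by
      have h8 := mul_lt_mul_of_pos_left h1 (by linarith : (0 : ℝ) < (k : ℝ) - 2)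
      have h9 : ((k : ℝ) - 2) * (2 + 2 * (((k : ℝ) + 1) / 2 - 1 / ((k : ℝ) - 2)) *
          ((Y.card : ℝ) - 2)) = ((k : ℝ) - 2) * (2 + ((k : ℝ) + 1) * ((Y.card : ℝ) - 2)) -
          2 * (1 / ((k : ℝ) - 2) * ((k : ℝ) - 2)) * ((Y.card : ℝ) - 2) := by ring
      rw [h9, h6] at h8
      linarith
    exact_mod_cast h7
  · intro I _ hI
    have := hα I hI
    omega

/-- the lower bound -/
theorem low_main (s t q : ℕ) (ht : 1 ≤ t) (hst : 2 * t < s) (h : LOK (s - 2 * t) t q) :
    ∃ K : ℕ, ∀ k : ℕ, K ≤ k →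
      ((k : ℝ) + 1) / 2 - (q : ℝ) / ((k : ℝ) - 2) ≤ minTwoDensity (k * s - t) (s + 1) := by
  obtain ⟨δ, rfl⟩ : ∃ δ, s = 2 * t + δ := ⟨s - 2 * t, by omega⟩
  have hδ : 2 * t + δ - 2 * t = δ := by omega
  rw [hδ] at h
  obtain ⟨hq, h⟩ := h
  rcases Nat.lt_or_ge 1 q with hq2 | hq1
  · rcases h with h | ⟨_, h⟩
    · refine (lowQ_one (a := 2 * t + δ) (t := t) (q := q) (by omega) hq2 ?_).low (by omega)
      nlinarith
    · rcases Nat.lt_or_ge 2 q with hq3 | hq3
      · exact (lowQ_two (a := 2 * t + δ) (t := t) (q := q) (by omega) hq3 (by omega)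
          (by rw [hδ]; exact h)).low (by omega)
      · have hq' : q = 2 := by omega
        subst hq'
        have h' : t ≤ δ + 1 := by omega
        rcases Nat.lt_or_ge 1 δ with hδ2 | hδ1
        · refine (lowQ_one (a := 2 * t + δ) (t := t) (q := 2) (by omega) (le_refl _) ?_).low
            (by omega)
          omega
        · have hδ' : δ = 1 := by omega
          subst hδ'
          have ht' : t = 1 ∨ t = 2 := by omega
          rcases ht' with rfl | rfl
          · refine (lowQ_one (a := 2 * 1 + 1) (t := 1) (q := 2) (by omega) (le_refl _) ?_).low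
              (by omega)
            omega
          · exact lowQ_five.low (by omega)
  · have hq' : q = 1 := by omega
    subst hq'
    rcases h with h | h
    · have h2 := low_one (2 * t + δ) t (by omega) (by omega)
      simpa using h2
    · omega

end Pool.Agent.TwoDens
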